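import Pool.Agent.Lib.MP_e43fce_kd.Defs
import Pool.Agent.Lib.MP_e43fce_nt_nat.Words

/-!
Bridge: the definitions of `MP_e43fce_kd` and of `MP_e43fce_nt_nat` agree.
-/

set_option autoImplicit false

open Finset

namespace Pool.Agent.Lib.MP_e43fce_kd

theorem W_eq (L n : ℕ) : W L n = Pool.Agent.Lib.MP_e43fce_nt_nat.words L n := by
  induction n with
  | zero => rfl
  | succ n ih => simp only [W, Pool.Agent.Lib.MP_e43fce_nt_nat.words, ih]

theorem F_eq (w : List ℕ) : F w = Pool.Agent.Lib.MP_e43fce_nt_nat.F w := by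
  induction w with
  | nil => rfl
  | cons j w ih => simp only [F, Pool.Agent.Lib.MP_e43fce_nt_nat.F, ih]

theorem adm_iff (m : ℤ) (w : List ℕ) : adm m w ↔ Pool.Agent.Lib.MP_e43fce_nt_nat.adm m w := by
  unfold adm Pool.Agent.Lib.MP_e43fce_nt_nat.adm
  rw [F_eq]

theorem nd_eq (m : ℤ) (w : List ℕ) : nd m w = Pool.Agent.Lib.MP_e43fce_nt_nat.nd m w := by
  unfold nd Pool.Agent.Lib.MP_e43fce_nt_nat.nd
  rw [F_eq]

theorem wt_eq_nat (w : List ℕ) : wt w = Pool.Agent.Lib.MP_e43fce_nt_nat.wt w := rfl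

theorem pr_eq_nat (w : List ℕ) : pr w = Pool.Agent.Lib.MP_e43fce_nt_nat.pr w := rfl

theorem Per_iff {β : Type} (s : ℕ) (f : ℤ → β) :
    Per s f ↔ Pool.Agent.Lib.MP_e43fce_nt_nat.Per s f := Iff.rfl

theorem Av_eq (s : ℕ) (f : ℤ → ℝ) : Av s f = Pool.Agent.Lib.MP_e43fce_nt_nat.Av s f := rfl

/-- the weighted sums agree -/
theorem Sm_eq (L n : ℕ) (f : List ℕ → ℤ → ℝ) (m : ℤ) :
    Sm (W L n) f m = ∑ w ∈ Pool.Agent.Lib.MP_e43fce_nt_nat.words L n,
      if Pool.Agent.Lib.MP_e43fce_nt_nat.adm m w then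
        Pool.Agent.Lib.MP_e43fce_nt_nat.wt w * f w (Pool.Agent.Lib.MP_e43fce_nt_nat.nd m w)
      else 0 := by
  unfold Sm
  rw [W_eq]
  refine Finset.sum_congr rfl fun w _ => ?_
  rw [nd_eq, wt_eq_nat]
  by_cases h : adm m w
  · rw [if_pos h, if_pos ((adm_iff m w).1 h)]
  · rw [if_neg h, if_neg (fun h' => h ((adm_iff m w).2 h'))]

end Pool.Agent.Lib.MP_e43fce_kd
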