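import Pool.Agent.Lib.MP_e43fce_kd.BR
import Pool.Agent.Lib.MP_e43fce_nt_nat.INCg

/-!
(INC): replacing the last part of a word by its mean, in the average over the root.
-/

set_option autoImplicit false

open Finset

namespace Pool.Agent.Lib.MP_e43fce_kd

theorem tauI_nonneg {L : ℕ} {τ : ℕ → ℝ} (h : ∀ A, 0 ≤ τ A) (j A : ℕ) : 0 ≤ tauI L τ j A := by
  induction j generalizing A with
  | zero => exact h A
  | succ j ih =>
    simp only [tauI]
    exact Finset.sum_nonneg fun b _ => div_nonneg (ih _) (by positivity)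

theorem c07_sum_half (L : ℕ) : ∑ b ∈ Icc 1 L, (1 : ℝ) / 2 ^ b = 1 - (1 / 2) ^ L := by
  induction L with
  | zero => simp
  | succ L ih =>
    rw [Finset.sum_Icc_succ_top (by omega), ih]
    simp only [one_div, inv_pow, pow_succ, mul_inv]
    ring

theorem tauI_le_one {L : ℕ} {τ : ℕ → ℝ} (h0 : ∀ A, 0 ≤ τ A) (h : ∀ A, τ A ≤ 1) (j A : ℕ) :
    tauI L τ j A ≤ 1 := by
  induction j generalizing A with
  | zero => exact h A
  | succ j ih =>
    simp only [tauI]
    calc ∑ b ∈ Icc 1 L, tauI L τ j (A + b) / 2 ^ b ≤ ∑ b ∈ Icc 1 L, (1 : ℝ) / 2 ^ b :=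
          Finset.sum_le_sum fun b _ => div_le_div_of_nonneg_right (ih _) (by positivity)
      _ = 1 - (1 / 2) ^ L := c07_sum_half L
      _ ≤ 1 := by
        have : (0 : ℝ) ≤ (1 / 2) ^ L := by positivity
        linarith

theorem tauI_shift (L : ℕ) (τ : ℕ → ℝ) (a j A : ℕ) :
    tauI L (fun x => τ (a + x)) j A = tauI L τ j (a + A) := by
  induction j generalizing A with
  | zero => rfl
  | succ j ih =>
    simp only [tauI]
    exact Finset.sum_congr rfl fun b _ => by rw [ih, add_assoc]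

theorem tauI_one (L j A : ℕ) : tauI L (fun _ => 1) j A = (1 - (1 / 2) ^ L) ^ j := by
  induction j generalizing A with
  | zero => simp [tauI]
  | succ j ih =>
    simp only [tauI]
    rw [Finset.sum_congr rfl fun b _ => by rw [ih, show ((1 - (1 / 2) ^ L) ^ j : ℝ) / 2 ^ b =
      (1 - (1 / 2) ^ L) ^ j * (1 / 2 ^ b) by ring], ← Finset.mul_sum, c07_sum_half, pow_succ]

/-- `tauI` as a sum over words -/
theorem tauI_eq_sum (L : ℕ) (τ : ℕ → ℝ) (j A : ℕ) :
    tauI L τ j A = ∑ v ∈ W L j, pr v * τ (A + v.sum) := by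
  induction j generalizing A with
  | zero => simp [tauI, W, pr]
  | succ j ih =>
    simp only [tauI]
    have hinj : Set.InjOn (fun p : ℕ × List ℕ => p.1 :: p.2) ↑(Icc 1 L ×ˢ W L j) := by
      rintro ⟨a, u⟩ _ ⟨b, v⟩ _ h
      simpa using h
    rw [W, Finset.sum_image hinj, Finset.sum_product]
    refine Finset.sum_congr rfl fun b _ => ?_
    rw [ih, Finset.sum_div]
    refine Finset.sum_congr rfl fun v _ => ?_
    simp only [pr, List.sum_cons, pow_add, add_assoc]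
    field_simp

theorem INC (D : ℕ) : ∃ C : ℝ, 0 < C ∧ ∀ L : ℕ, 2 ≤ L → ∀ τ : ℕ → ℝ, (∀ A, 0 ≤ τ A) →
    (∀ A, τ A ≤ 1) → ∀ i : ℕ, 1 ≤ i → ∀ J : ℕ,
    Av (i + J) (fun m => |Sm (W L (i + J)) (fun w _ => τ w.sum) m -
      Sm (W L i) (fun w _ => tauI L τ J w.sum) m|) ≤ C / (i : ℝ) ^ D := by
  obtain ⟨C, hC, h⟩ := Pool.Agent.Lib.MP_e43fce_nt_nat.INCg D
  refine ⟨C, hC, fun L hL τ h0 h1 i hi J => ?_⟩
  have h2 := h i (i + J) L hi (by omega) hL τ (fun n => ⟨h0 n, h1 n⟩)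
  rw [Av_eq]
  refine le_trans (le_of_eq ?_) h2
  congr 1
  funext m
  rw [Sm_eq, Sm_eq]
  simp only [Nat.add_sub_cancel_left]
  congr 2
  refine Finset.sum_congr rfl fun w _ => ?_
  rw [tauI_eq_sum, W_eq]
  rfl

end Pool.Agent.Lib.MP_e43fce_kd
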