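import Pool.Agent.Lib.MP_e43fce_kd.Defs

/-!
Words, masses, generating function.
chernoff: ∑_{w ∈ W L n} pr w u^sum = (∑_{j=1}^L (u/2)^j)^n ≤ (u/(2-u))^n.
-/

set_option autoImplicit false

open Finset

namespace Pool.Agent.Lib.MP_e43fce_kd

theorem mem_W {L n : ℕ} {w : List ℕ} : w ∈ W L n ↔ w.length = n ∧ ∀ j ∈ w, 1 ≤ j ∧ j ≤ L := by
  induction n generalizing w with
  | zero =>
    rw [W, mem_singleton]
    constructor
    · rintro rfl
      simp
    · rintro ⟨h, -⟩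
      exact List.length_eq_zero_iff.1 h
  | succ n ih =>
    rw [W, mem_image]
    constructor
    · rintro ⟨⟨j, v⟩, hp, rfl⟩
      rw [mem_product, mem_Icc] at hp
      obtain ⟨h1, h2⟩ := hp
      obtain ⟨h3, h4⟩ := ih.1 h2
      refine ⟨by show (j :: v).length = n + 1; rw [List.length_cons, h3], ?_⟩
      intro i hi
      rcases List.mem_cons.1 hi with rfl | hi
      · exact h1
      · exact h4 i hi
    · rintro ⟨h1, h2⟩
      match w, h1, h2 with
      | [], h1, _ => simp at h1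
      | j :: v, h1, h2 =>
        refine ⟨(j, v), ?_, rfl⟩
        rw [mem_product, mem_Icc]
        refine ⟨h2 j List.mem_cons_self, ih.2 ⟨by simpa using h1, fun i hi => ?_⟩⟩
        exact h2 i (List.mem_cons_of_mem _ hi)

theorem sum_W_zero {β : Type*} [AddCommMonoid β] (L : ℕ) (f : List ℕ → β) :
    ∑ w ∈ W L 0, f w = f [] := by
  rw [W, sum_singleton]

theorem sum_W_succ {β : Type*} [AddCommMonoid β] (L n : ℕ) (f : List ℕ → β) :
    ∑ w ∈ W L (n + 1), f w = ∑ j ∈ Icc 1 L, ∑ w ∈ W L n, f (j :: w) := by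
  rw [W, sum_image, sum_product]
  rintro ⟨j, v⟩ _ ⟨j', v'⟩ _ h
  simp only [List.cons.injEq] at h
  rw [h.1, h.2]

theorem sum_W_add {β : Type*} [AddCommMonoid β] (L m n : ℕ) (f : List ℕ → β) :
    ∑ w ∈ W L (m + n), f w = ∑ u ∈ W L m, ∑ v ∈ W L n, f (u ++ v) := by
  induction m generalizing f with
  | zero =>
    rw [sum_W_zero, zero_add]
    rfl
  | succ m ih =>
    rw [show m + 1 + n = m + n + 1 by ring, sum_W_succ, sum_W_succ]
    refine sum_congr rfl fun j _ => ?_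
    rw [ih]
    rfl

theorem W_mono {L L' : ℕ} (n : ℕ) (h : L ≤ L') : W L n ⊆ W L' n := by
  intro w hw
  rw [mem_W] at hw ⊢
  exact ⟨hw.1, fun j hj => ⟨(hw.2 j hj).1, (hw.2 j hj).2.trans h⟩⟩

theorem mem_cat {C D : Finset (List ℕ)} {w : List ℕ} :
    w ∈ cat C D ↔ ∃ u ∈ C, ∃ v ∈ D, w = u ++ v := by
  unfold cat
  rw [mem_image]
  constructor
  · rintro ⟨⟨u, v⟩, h, rfl⟩
    rw [mem_product] at h
    exact ⟨u, h.1, v, h.2, rfl⟩
  · rintro ⟨u, hu, v, hv, rfl⟩
    exact ⟨(u, v), mem_product.2 ⟨hu, hv⟩, rfl⟩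

theorem sum_cat {β : Type*} [AddCommMonoid β] {C D : Finset (List ℕ)} {k : ℕ}
    (hC : ∀ w ∈ C, w.length = k) (f : List ℕ → β) :
    ∑ w ∈ cat C D, f w = ∑ u ∈ C, ∑ v ∈ D, f (u ++ v) := by
  unfold cat
  rw [sum_image, sum_product]
  rintro ⟨u, v⟩ h ⟨u', v'⟩ h' he
  rw [mem_coe, mem_product] at h h'
  simp only at he h h'
  have hl : u.length = u'.length := by rw [hC u h.1, hC u' h'.1]
  obtain ⟨h1, h2⟩ := List.append_inj he hl
  rw [h1, h2]

theorem pr_pos (w : List ℕ) : 0 < pr w := by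
  unfold pr
  positivity

theorem wt_pos (w : List ℕ) : 0 < wt w := by
  unfold wt
  positivity

theorem wt_eq (w : List ℕ) : wt w = 3 ^ w.length * pr w := by
  unfold wt pr
  ring

theorem pr_append (u v : List ℕ) : pr (u ++ v) = pr u * pr v := by
  unfold pr
  rw [List.sum_append, pow_add]
  field_simp

theorem wt_append (u v : List ℕ) : wt (u ++ v) = wt u * wt v := by
  rw [wt_eq, wt_eq, wt_eq, pr_append, List.length_append, pow_add]
  ring

theorem a01_pr_cons (j : ℕ) (w : List ℕ) : pr (j :: w) = (1 / 2) ^ j * pr w := by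
  unfold pr
  rw [List.sum_cons, pow_add, one_div, one_div, mul_inv, one_div, inv_pow]

theorem a01_geom (L : ℕ) (q : ℝ) : (1 - q) * ∑ j ∈ Icc 1 L, q ^ j = q - q ^ (L + 1) := by
  induction L with
  | zero => simp
  | succ L ih =>
    rw [sum_Icc_succ_top (by omega), mul_add, ih]
    ring

theorem a01_gen (L n : ℕ) (u : ℝ) :
    ∑ w ∈ W L n, pr w * u ^ w.sum = (∑ j ∈ Icc 1 L, (u / 2) ^ j) ^ n := by
  induction n with
  | zero =>
    rw [sum_W_zero, pow_zero]
    simp [pr]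
  | succ n ih =>
    rw [sum_W_succ, pow_succ, ← ih, mul_comm, sum_mul]
    refine sum_congr rfl fun j _ => ?_
    rw [mul_sum]
    refine sum_congr rfl fun w _ => ?_
    have h1 : ((1 : ℝ) / 2) ^ j * u ^ j = (u / 2) ^ j := by
      rw [← mul_pow]
      congr 1
      ring
    rw [a01_pr_cons, List.sum_cons, pow_add, ← h1]
    ring

theorem sum_pr (L n : ℕ) : ∑ w ∈ W L n, pr w = (1 - (1 / 2) ^ L) ^ n := by
  have h := a01_gen L n 1
  simp only [one_pow, mul_one] at h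
  rw [h]
  congr 1
  have h2 := a01_geom L (1 / 2)
  rw [pow_succ] at h2
  linarith

theorem sum_pr_le (L n : ℕ) : ∑ w ∈ W L n, pr w ≤ 1 := by
  rw [sum_pr]
  refine pow_le_one₀ ?_ ?_
  · have : ((1 : ℝ) / 2) ^ L ≤ 1 := pow_le_one₀ (by norm_num) (by norm_num)
    linarith
  · have : (0 : ℝ) ≤ (1 / 2) ^ L := by positivity
    linarith

theorem chernoff (L n : ℕ) {u : ℝ} (h0 : 0 ≤ u) (h2 : u < 2) :
    ∑ w ∈ W L n, pr w * u ^ w.sum ≤ (u / (2 - u)) ^ n := by
  rw [a01_gen]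
  have h3 : (0 : ℝ) < 2 - u := by linarith
  refine pow_le_pow_left₀ (sum_nonneg fun j _ => by positivity) ?_ n
  rw [le_div_iff₀ h3]
  have h4 := a01_geom L (u / 2)
  have h5 : (0 : ℝ) ≤ (u / 2) ^ (L + 1) := by positivity
  nlinarith

end Pool.Agent.Lib.MP_e43fce_kd
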