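import Pool.Agent.Lib.MP_e43fce_kd.Defs

/-!
The affine constant `F`. `F_append` by induction on `u`; `F_odd`, `F_inj` by reverse induction: `F (w ++ [a]) = 2^a F w + 3^|w|`,
and for `w ≠ []` with positive letters `F w` is odd, so `a` is the 2-adic valuation of `F (w ++ [a]) - 3^|w|`.
-/

set_option autoImplicit false

open Finset

namespace Pool.Agent.Lib.MP_e43fce_kd

theorem F_append (u v : List ℕ) : F (u ++ v) = 2 ^ v.sum * F u + 3 ^ u.length * F v := by
  induction u with
  | nil => simp [F]
  | cons j u ih =>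
    rw [List.cons_append, F, F, ih, List.sum_append, List.length_cons, pow_add, pow_succ]
    ring

theorem F_odd {w : List ℕ} (h : w ≠ []) (hw : ∀ j ∈ w, 1 ≤ j) : Odd (F w) := by
  induction w with
  | nil => exact absurd rfl h
  | cons j w ih =>
    rw [F]
    by_cases hn : w = []
    · subst hn
      simp [F]
    · have h1 := ih hn fun i hi => hw i (List.mem_cons_of_mem _ hi)
      obtain ⟨i, w', rfl⟩ := List.exists_cons_of_ne_nil hn
      have h2 : 1 ≤ i := hw i (by simp)
      have h3 : (i :: w').sum ≠ 0 := by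
        rw [List.sum_cons]
        omega
      have h4 : Even (2 ^ (i :: w').sum) := (Nat.even_pow.2 ⟨even_two, h3⟩)
      exact h4.add_odd (Odd.mul (by decide) h1)

theorem a02_two {a b x y : ℕ} (hx : Odd x) (hy : Odd y) (h : 2 ^ a * x = 2 ^ b * y) : a = b := by
  wlog hab : a ≤ b generalizing a b x y with H
  · exact (H hy hx h.symm (by omega)).symm
  by_contra hne
  obtain ⟨c, rfl⟩ : ∃ c, b = a + (c + 1) := ⟨b - a - 1, by omega⟩
  rw [pow_add, mul_assoc] at h
  have h1 := Nat.eq_of_mul_eq_mul_left (by positivity) h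
  rw [h1, pow_succ, mul_comm (2 ^ c), mul_assoc] at hx
  exact (Nat.not_even_iff_odd.2 hx) (even_two_mul _)

theorem a02_inj (n : ℕ) : ∀ u v : List ℕ, (∀ j ∈ u, 1 ≤ j) → (∀ j ∈ v, 1 ≤ j) → u.length = n →
    v.length = n → u.sum = v.sum → F u = F v → u = v := by
  induction n with
  | zero =>
    intro u v _ _ h1 h2 _ _
    rw [List.length_eq_zero_iff.1 h1, List.length_eq_zero_iff.1 h2]
  | succ n ih =>
    intro u v hu hv h1 h2 hs hF
    rcases List.eq_nil_or_concat u with rfl | ⟨u', a, rfl⟩
    · simp at h1
    rcases List.eq_nil_or_concat v with rfl | ⟨v', b, rfl⟩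
    · simp at h2
    rw [List.concat_eq_append] at *
    rw [List.concat_eq_append] at *
    have l1 : u'.length = n := by simpa using h1
    have l2 : v'.length = n := by simpa using h2
    rw [F_append, F_append, l1, l2] at hF
    have e1 : ([a] : List ℕ).sum = a := by simp
    have e2 : ([b] : List ℕ).sum = b := by simp
    have e3 : F [a] = F [b] := by simp [F]
    rw [e1, e2, e3] at hF
    have hF' : 2 ^ a * F u' = 2 ^ b * F v' := by omega
    rw [List.sum_append, List.sum_append, e1, e2] at hs
    have hu' : ∀ j ∈ u', 1 ≤ j := fun j hj => hu j (List.mem_append_left _ hj)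
    have hv' : ∀ j ∈ v', 1 ≤ j := fun j hj => hv j (List.mem_append_left _ hj)
    by_cases hn : n = 0
    · subst hn
      rw [List.length_eq_zero_iff.1 l1, List.length_eq_zero_iff.1 l2] at hs ⊢
      simp only [List.sum_nil, zero_add] at hs
      rw [hs]
    · have n1 : u' ≠ [] := by
        rintro rfl
        simp at l1
        omega
      have n2 : v' ≠ [] := by
        rintro rfl
        simp at l2
        omega
      have hab := a02_two (F_odd n1 hu') (F_odd n2 hv') hF'
      subst hab
      have h3 := Nat.eq_of_mul_eq_mul_left (by positivity) hF'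
      rw [ih u' v' hu' hv' l1 l2 (by omega) h3]

theorem F_inj {u v : List ℕ} (hu : ∀ j ∈ u, 1 ≤ j) (hv : ∀ j ∈ v, 1 ≤ j)
    (hl : u.length = v.length) (hs : u.sum = v.sum) (hF : F u = F v) : u = v :=
  a02_inj v.length u v hu hv hl rfl hs hF

end Pool.Agent.Lib.MP_e43fce_kd
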