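import Pool.Agent.Lib.MP_e43fce_kd.Defs
import Pool.Agent.Lib.MP_e43fce_kd.A01
import Pool.Agent.Lib.MP_e43fce_kd.A02

/-!
Tails. tail_low: u = 19/20, tail_high: u = 13/10 in chernoff. tail_F: the mean of the square root
of F/2^sum is at most 11 (induction), then Markov. tail_good: chernoff with u = 1 ± 1/(4g).
-/

set_option autoImplicit false

open Finset

namespace Pool.Agent.Lib.MP_e43fce_kd

/-- general exponential tail -/
theorem C04_tail (L n : ℕ) {u r : ℝ} (h0 : 0 ≤ u) (h2 : u < 2) (hr : 0 < r)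
    (P : List ℕ → Prop) [DecidablePred P] (hP : ∀ w, P w → r ^ n ≤ u ^ w.sum) :
    ∑ w ∈ (W L n).filter P, pr w ≤ (u / (2 - u) / r) ^ n := by
  have hrn : 0 < r ^ n := pow_pos hr n
  rw [div_pow, le_div_iff₀ hrn, Finset.sum_mul]
  calc ∑ w ∈ (W L n).filter P, pr w * r ^ n
      ≤ ∑ w ∈ (W L n).filter P, pr w * u ^ w.sum := by
        refine Finset.sum_le_sum fun w hw => ?_
        exact mul_le_mul_of_nonneg_left (hP w (mem_filter.1 hw).2) (pr_pos w).le
    _ ≤ ∑ w ∈ W L n, pr w * u ^ w.sum := by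
        refine Finset.sum_le_sum_of_subset_of_nonneg (filter_subset _ _) fun w _ _ => ?_
        exact mul_nonneg (pr_pos w).le (pow_nonneg h0 _)
    _ ≤ _ := chernoff L n h0 h2

theorem tail_low (L n : ℕ) :
    ∑ w ∈ (W L n).filter (fun w => 10 * w.sum < 19 * n), pr w ≤ (999 / 1000) ^ n := by
  have h := C04_tail L n (u := 19 / 20) (r := 907 / 1000) (by norm_num) (by norm_num)
    (by norm_num) (fun w => 10 * w.sum < 19 * n) (fun w hw => by
      have h1 : ((907 / 1000 : ℝ) ^ n) ^ 10 ≤ ((19 / 20 : ℝ) ^ w.sum) ^ 10 := by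
        calc ((907 / 1000 : ℝ) ^ n) ^ 10 = ((907 / 1000 : ℝ) ^ 10) ^ n := by
              rw [← pow_mul, ← pow_mul, mul_comm]
          _ ≤ ((19 / 20 : ℝ) ^ 19) ^ n := by
              refine pow_le_pow_left₀ (by norm_num) ?_ n
              norm_num
          _ = (19 / 20 : ℝ) ^ (19 * n) := by rw [← pow_mul]
          _ ≤ (19 / 20 : ℝ) ^ (10 * w.sum) :=
              pow_le_pow_of_le_one (by norm_num) (by norm_num) hw.le
          _ = _ := by rw [← pow_mul, mul_comm]
      exact (pow_le_pow_iff_left₀ (by positivity) (by positivity) (by norm_num)).1 h1)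
  refine h.trans ?_
  refine pow_le_pow_left₀ (by norm_num) ?_ n
  norm_num

theorem tail_high (L n : ℕ) :
    ∑ w ∈ (W L n).filter (fun w => 3 * n < w.sum), pr w ≤ (9 / 10) ^ n := by
  have h := C04_tail L n (u := 13 / 10) (r := (13 / 10) ^ 3) (by norm_num) (by norm_num)
    (by norm_num) (fun w => 3 * n < w.sum) (fun w hw => by
      rw [← pow_mul]
      exact pow_le_pow_right₀ (by norm_num) hw.le)
  refine h.trans ?_
  refine pow_le_pow_left₀ (by norm_num) ?_ n
  norm_num

theorem C04_pr_cons (j : ℕ) (w : List ℕ) : pr (j :: w) = (1 / 2) ^ j * pr w := by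
  unfold pr
  rw [List.sum_cons, pow_add, one_div_pow]
  field_simp

theorem C04_geom (L : ℕ) (r : ℝ) (h0 : 0 ≤ r) (h1 : r < 1) :
    ∑ j ∈ Icc 1 L, r ^ j ≤ r / (1 - r) := by
  have hpos : 0 < 1 - r := by linarith
  rw [le_div_iff₀ hpos]
  have key : ∀ n : ℕ, (∑ j ∈ Icc 1 n, r ^ j) * (1 - r) = r - r ^ (n + 1) := by
    intro n
    induction n with
    | zero => simp
    | succ m ihm =>
        rw [Finset.sum_Icc_succ_top (by omega), add_mul, ihm]
        ring
  rw [key]
  have : 0 ≤ r ^ (L + 1) := pow_nonneg h0 _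
  linarith

/-- `phi w = F w / 2 ^ A(w)` -/
noncomputable def C04phi (w : List ℕ) : ℝ := (F w : ℝ) / 2 ^ w.sum

theorem C04phi_nonneg (w : List ℕ) : 0 ≤ C04phi w := by unfold C04phi; positivity

theorem C04phi_cons (j : ℕ) (w : List ℕ) :
    C04phi (j :: w) = (1 / 2) ^ j * (1 + 3 * C04phi w) := by
  unfold C04phi
  rw [List.sum_cons, pow_add, one_div_pow]
  simp only [F]
  push_cast
  field_simp

/-- the constant `1 / sqrt 2` -/
noncomputable def C04c : ℝ := Real.sqrt (1 / 2)

theorem C04c_sq : C04c ^ 2 = 1 / 2 := Real.sq_sqrt (by norm_num)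

theorem C04c_nonneg : 0 ≤ C04c := Real.sqrt_nonneg _

theorem C04c_le : C04c ≤ 0.70711 := by
  unfold C04c
  rw [show (0.70711 : ℝ) = Real.sqrt (0.70711 ^ 2) by
    rw [Real.sqrt_sq (by norm_num)]]
  exact Real.sqrt_le_sqrt (by norm_num)

theorem C04_sqrt3 : Real.sqrt 3 ≤ 1.73206 := by
  rw [show (1.73206 : ℝ) = Real.sqrt (1.73206 ^ 2) by
    rw [Real.sqrt_sq (by norm_num)]]
  exact Real.sqrt_le_sqrt (by norm_num)

theorem C04_sqrt_cons (j : ℕ) (w : List ℕ) :
    Real.sqrt (C04phi (j :: w)) ≤ C04c ^ j * (1 + Real.sqrt 3 * Real.sqrt (C04phi w)) := by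
  have hc : Real.sqrt ((1 / 2 : ℝ) ^ j) = C04c ^ j := by
    rw [← C04c_sq, ← pow_mul, mul_comm 2 j, pow_mul, Real.sqrt_sq (pow_nonneg C04c_nonneg _)]
  rw [C04phi_cons, Real.sqrt_mul (by positivity), hc]
  refine mul_le_mul_of_nonneg_left ?_ (pow_nonneg C04c_nonneg _)
  have h0 := C04phi_nonneg w
  rw [Real.sqrt_le_iff]
  constructor
  · positivity
  · have e1 : Real.sqrt 3 ^ 2 = 3 := Real.sq_sqrt (by norm_num)
    have e2 : Real.sqrt (C04phi w) ^ 2 = C04phi w := Real.sq_sqrt h0
    have h3 : 0 ≤ Real.sqrt 3 * Real.sqrt (C04phi w) := by positivity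
    nlinarith [h3, e1, e2]

theorem C04_E (L k : ℕ) : ∑ w ∈ W L k, pr w * Real.sqrt (C04phi w) ≤ 11 := by
  induction k with
  | zero => simp [W, pr, C04phi, F]
  | succ k ih =>
      rw [sum_W_succ]
      have h : ∀ j ∈ Icc 1 L, ∑ w ∈ W L k, pr (j :: w) * Real.sqrt (C04phi (j :: w))
          ≤ (C04c / 2) ^ j * (1 + 1.73206 * 11) := by
        intro j _
        have hterm : ∀ w ∈ W L k, pr (j :: w) * Real.sqrt (C04phi (j :: w))
            ≤ (C04c / 2) ^ j * (pr w + 1.73206 * (pr w * Real.sqrt (C04phi w))) := by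
          intro w _
          rw [C04_pr_cons]
          have hp := pr_pos w
          have hs : 0 ≤ Real.sqrt (C04phi w) := Real.sqrt_nonneg _
          have h1 := C04_sqrt_cons j w
          have h2 : (1 + Real.sqrt 3 * Real.sqrt (C04phi w))
              ≤ 1 + 1.73206 * Real.sqrt (C04phi w) := by
            have := mul_le_mul_of_nonneg_right C04_sqrt3 hs
            linarith
          have h3 : Real.sqrt (C04phi (j :: w))
              ≤ C04c ^ j * (1 + 1.73206 * Real.sqrt (C04phi w)) :=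
            h1.trans (mul_le_mul_of_nonneg_left h2 (pow_nonneg C04c_nonneg _))
          have h4 : (1 / 2 : ℝ) ^ j * pr w * Real.sqrt (C04phi (j :: w))
              ≤ (1 / 2 : ℝ) ^ j * pr w * (C04c ^ j * (1 + 1.73206 * Real.sqrt (C04phi w))) :=
            mul_le_mul_of_nonneg_left h3 (by positivity)
          refine h4.trans (le_of_eq ?_)
          rw [div_pow, div_pow, one_pow]
          ring
        refine (Finset.sum_le_sum hterm).trans ?_
        rw [← Finset.mul_sum, Finset.sum_add_distrib, ← Finset.mul_sum]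
        refine mul_le_mul_of_nonneg_left ?_ (pow_nonneg (by have := C04c_nonneg; positivity) _)
        have := sum_pr_le L k
        linarith
      refine (Finset.sum_le_sum h).trans ?_
      rw [← Finset.sum_mul]
      have hc0 := C04c_nonneg
      have hc1 := C04c_le
      have hg := C04_geom L (C04c / 2) (by positivity) (by linarith)
      have hb : C04c / 2 / (1 - C04c / 2) ≤ 0.54693 := by
        rw [div_le_iff₀ (by linarith)]
        linarith
      have : ∑ j ∈ Icc 1 L, (C04c / 2) ^ j ≤ 0.54693 := hg.trans hb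
      have h20 : (∑ j ∈ Icc 1 L, (C04c / 2) ^ j) * (1 + 1.73206 * 11)
          ≤ 0.54693 * (1 + 1.73206 * 11) := mul_le_mul_of_nonneg_right this (by norm_num)
      refine h20.trans (by norm_num)

open Classical in
theorem tail_F (L n : ℕ) {T : ℝ} (hT : 0 < T) :
    ∑ w ∈ (W L n).filter (fun w => T * 2 ^ w.sum < (F w : ℝ)), pr w ≤ 11 / Real.sqrt T := by
  have hs : 0 < Real.sqrt T := Real.sqrt_pos.2 hT
  rw [le_div_iff₀ hs, Finset.sum_mul]
  calc ∑ w ∈ (W L n).filter (fun w => T * 2 ^ w.sum < (F w : ℝ)), pr w * Real.sqrt T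
      ≤ ∑ w ∈ (W L n).filter (fun w => T * 2 ^ w.sum < (F w : ℝ)),
          pr w * Real.sqrt (C04phi w) := by
        refine Finset.sum_le_sum fun w hw => ?_
        refine mul_le_mul_of_nonneg_left (Real.sqrt_le_sqrt ?_) (pr_pos w).le
        unfold C04phi
        rw [le_div_iff₀ (by positivity)]
        exact (mem_filter.1 hw).2.le
    _ ≤ ∑ w ∈ W L n, pr w * Real.sqrt (C04phi w) := by
        refine Finset.sum_le_sum_of_subset_of_nonneg (filter_subset _ _) fun w _ _ => ?_
        exact mul_nonneg (pr_pos w).le (Real.sqrt_nonneg _)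
    _ ≤ 11 := C04_E L n

theorem C04_log {x : ℝ} (h0 : 0 ≤ x) (h1 : x ≤ 1 / 4) : -Real.log (1 - x ^ 2) ≤ 2 * x ^ 2 := by
  have hx2 : x ^ 2 ≤ 1 / 16 := by nlinarith
  have hpos : 0 < 1 - x ^ 2 := by linarith
  have h := Real.log_le_sub_one_of_pos (inv_pos.2 hpos)
  rw [Real.log_inv] at h
  refine h.trans ?_
  have h3 : (1 - x ^ 2)⁻¹ ≤ 1 + 2 * x ^ 2 := by
    rw [inv_le_iff_one_le_mul₀ hpos]
    nlinarith [sq_nonneg x]
  linarith

theorem tail_good {g : ℕ} (hg : 100 ≤ g) : ∃ κ : ℝ, 0 < κ ∧ κ < 1 ∧ ∀ L l : ℕ,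
    ∑ w ∈ (W L l).filter (fun w => ¬ ((2 * g - 1) * l ≤ g * w.sum ∧ g * w.sum ≤ (2 * g + 1) * l)),
      pr w ≤ 2 * κ ^ l := by
  have hg0 : (0 : ℝ) < g := by
    have : (100 : ℝ) ≤ g := by exact_mod_cast hg
    linarith
  have hg1 : (100 : ℝ) ≤ g := by exact_mod_cast hg
  set x : ℝ := 1 / (4 * g) with hx
  have hx0 : 0 < x := by positivity
  have hgx : g * x = 1 / 4 := by rw [hx]; field_simp
  have hx1 : x ≤ 1 / 4 := by nlinarith
  have hxg : x / g = 4 * x ^ 2 := by
    rw [hx]; field_simp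
  refine ⟨Real.exp (-(x ^ 2)), Real.exp_pos _, ?_, ?_⟩
  · rw [Real.exp_lt_one_iff]
    have : 0 < x ^ 2 := by positivity
    linarith
  intro L l
  have hlog := C04_log hx0.le hx1
  have hfac : Real.log (1 - x ^ 2) = Real.log (1 - x) + Real.log (1 + x) := by
    rw [← Real.log_mul (by linarith) (by linarith)]
    congr 1
    ring
  -- lower tail
  have hlow : ∑ w ∈ (W L l).filter (fun w => g * w.sum < (2 * g - 1) * l), pr w ≤
      Real.exp (-(x ^ 2)) ^ l := by
    have hneg : Real.log (1 - x) ≤ -x := by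
      have := Real.log_le_sub_one_of_pos (show 0 < 1 - x by linarith)
      linarith
    have h := C04_tail L l (u := 1 - x) (r := Real.exp ((2 - 1 / g) * Real.log (1 - x)))
      (by linarith) (by linarith) (Real.exp_pos _) (fun w => g * w.sum < (2 * g - 1) * l)
      (fun w hw => by
        have h1 : (1 - x) ^ w.sum = Real.exp (w.sum * Real.log (1 - x)) := by
          rw [← Real.log_pow, Real.exp_log (pow_pos (by linarith) _)]
        rw [h1, ← Real.exp_nat_mul]
        refine Real.exp_le_exp.2 ?_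
        have h2 : (g * w.sum : ℝ) ≤ (2 * g - 1) * l := by
          have h3 : ((g * w.sum : ℕ) : ℝ) ≤ (((2 * g - 1) * l : ℕ) : ℝ) := by exact_mod_cast hw.le
          rw [Nat.cast_mul, Nat.cast_mul, Nat.cast_sub (show 1 ≤ 2 * g by omega), Nat.cast_mul,
            Nat.cast_ofNat, Nat.cast_one] at h3
          exact h3
        have h4 : (w.sum : ℝ) ≤ (2 - 1 / g) * l := by
          have h5 : (2 - 1 / (g : ℝ)) * l = ((2 * g - 1) * l) / g := by
            field_simp
          rw [h5, le_div_iff₀ hg0]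
          linarith
        nlinarith)
    refine h.trans (pow_le_pow_left₀ (by
      have : 0 < 1 - x := by linarith
      have : 0 < 2 - (1 - x) := by linarith
      positivity) ?_ l)
    have e1 : (1 - x) / (2 - (1 - x)) = Real.exp (Real.log (1 - x) - Real.log (1 + x)) := by
      rw [Real.exp_sub, Real.exp_log (by linarith), Real.exp_log (by linarith)]
      congr 1
      ring
    rw [e1, ← Real.exp_sub]
    refine Real.exp_le_exp.2 ?_
    have e2 : 1 / (g : ℝ) * Real.log (1 - x) ≤ -(4 * x ^ 2) := by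
      rw [← hxg]
      have : 1 / (g : ℝ) * Real.log (1 - x) ≤ 1 / (g : ℝ) * (-x) :=
        mul_le_mul_of_nonneg_left hneg (by positivity)
      refine this.trans (le_of_eq ?_)
      ring
    nlinarith [sq_nonneg x]
  -- upper tail
  have hup : ∑ w ∈ (W L l).filter (fun w => (2 * g + 1) * l < g * w.sum), pr w ≤
      Real.exp (-(x ^ 2)) ^ l := by
    have hpos : x / 2 ≤ Real.log (1 + x) := by
      have h1 := Real.log_le_sub_one_of_pos (inv_pos.2 (show 0 < 1 + x by linarith))
      rw [Real.log_inv] at h1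
      have h2 : (1 + x)⁻¹ ≤ 1 - x / 2 := by
        rw [inv_le_iff_one_le_mul₀ (by linarith)]
        nlinarith
      linarith
    have hpos2 : 7 / 8 * x ≤ Real.log (1 + x) := by
      have h1 := Real.log_le_sub_one_of_pos (inv_pos.2 (show 0 < 1 + x by linarith))
      rw [Real.log_inv] at h1
      have hx3 : x ≤ 1 / 400 := by nlinarith
      have h2 : (1 + x)⁻¹ ≤ 1 - 7 / 8 * x := by
        rw [inv_le_iff_one_le_mul₀ (by linarith)]
        nlinarith
      linarith
    have h := C04_tail L l (u := 1 + x) (r := Real.exp ((2 + 1 / g) * Real.log (1 + x)))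
      (by linarith) (by linarith) (Real.exp_pos _) (fun w => (2 * g + 1) * l < g * w.sum)
      (fun w hw => by
        have h1 : (1 + x) ^ w.sum = Real.exp (w.sum * Real.log (1 + x)) := by
          rw [← Real.log_pow, Real.exp_log (pow_pos (by linarith) _)]
        rw [h1, ← Real.exp_nat_mul]
        refine Real.exp_le_exp.2 ?_
        have h2 : ((2 * g + 1) * l : ℝ) ≤ g * w.sum := by exact_mod_cast hw.le
        have h4 : (2 + 1 / g) * (l : ℝ) ≤ w.sum := by
          have h5 : (2 + 1 / (g : ℝ)) * l = ((2 * g + 1) * l) / g := by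
            field_simp
          rw [h5, div_le_iff₀ hg0]
          linarith
        have h6 : 0 ≤ Real.log (1 + x) := by linarith
        nlinarith)
    refine h.trans (pow_le_pow_left₀ (by
      have : 0 < 1 + x := by linarith
      have : 0 < 2 - (1 + x) := by linarith
      positivity) ?_ l)
    have e1 : (1 + x) / (2 - (1 + x)) = Real.exp (Real.log (1 + x) - Real.log (1 - x)) := by
      rw [Real.exp_sub, Real.exp_log (by linarith), Real.exp_log (by linarith)]
      congr 1
      ring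
    rw [e1, ← Real.exp_sub]
    refine Real.exp_le_exp.2 ?_
    have e2 : 7 / 2 * x ^ 2 ≤ 1 / (g : ℝ) * Real.log (1 + x) := by
      have h3 : 1 / (g : ℝ) * (7 / 8 * x) ≤ 1 / (g : ℝ) * Real.log (1 + x) :=
        mul_le_mul_of_nonneg_left hpos2 (by positivity)
      refine le_trans (le_of_eq ?_) h3
      rw [show 1 / (g : ℝ) * (7 / 8 * x) = 7 / 8 * (x / g) by ring, hxg]
      ring
    nlinarith [sq_nonneg x]
  -- union
  have hun : (W L l).filter (fun w => ¬ ((2 * g - 1) * l ≤ g * w.sum ∧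
      g * w.sum ≤ (2 * g + 1) * l)) ⊆ (W L l).filter (fun w => g * w.sum < (2 * g - 1) * l) ∪
      (W L l).filter (fun w => (2 * g + 1) * l < g * w.sum) := by
    intro w hw
    rw [mem_filter] at hw
    rw [mem_union, mem_filter, mem_filter]
    by_cases h : g * w.sum < (2 * g - 1) * l
    · exact Or.inl ⟨hw.1, h⟩
    · refine Or.inr ⟨hw.1, ?_⟩
      by_contra h'
      exact hw.2 ⟨not_lt.1 h, not_lt.1 h'⟩
  calc _ ≤ ∑ w ∈ (W L l).filter (fun w => g * w.sum < (2 * g - 1) * l) ∪
        (W L l).filter (fun w => (2 * g + 1) * l < g * w.sum), pr w :=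
        Finset.sum_le_sum_of_subset_of_nonneg hun fun w _ _ => (pr_pos w).le
    _ ≤ ∑ w ∈ (W L l).filter (fun w => g * w.sum < (2 * g - 1) * l), pr w +
        ∑ w ∈ (W L l).filter (fun w => (2 * g + 1) * l < g * w.sum), pr w := by
        rw [← Finset.sum_union_inter]
        have : 0 ≤ ∑ w ∈ (W L l).filter (fun w => g * w.sum < (2 * g - 1) * l) ∩
          (W L l).filter (fun w => (2 * g + 1) * l < g * w.sum), pr w :=
          Finset.sum_nonneg fun w _ => (pr_pos w).le
        linarith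
    _ ≤ 2 * Real.exp (-(x ^ 2)) ^ l := by linarith

end Pool.Agent.Lib.MP_e43fce_kd
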