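import Pool.Agent.Lib.MP_e43fce_kd.Defs
import Pool.Agent.Lib.MP_e43fce_kd.A01
import Pool.Agent.Lib.MP_e43fce_kd.C04

/-!
Good words. A word of W L l outside Q g T l either violates the window or has F > T 2^sum (if the window holds, every letter is ≤ sum ≤ 2.01 l ≤ 3 l).
-/

set_option autoImplicit false

open Finset

namespace Pool.Agent.Lib.MP_e43fce_kd

theorem mem_Q {g l : ℕ} {T : ℝ} {w : List ℕ} : w ∈ Q g T l ↔ w ∈ W (3 * l) l ∧
    ((2 * g - 1) * l ≤ g * w.sum ∧ g * w.sum ≤ (2 * g + 1) * l ∧ (F w : ℝ) ≤ T * 2 ^ w.sum) := by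
  unfold Q
  rw [Finset.mem_filter]

theorem Q_sub {g l L : ℕ} (T : ℝ) (h : 3 * l ≤ L) : Q g T l ⊆ W L l := by
  intro w hw
  exact W_mono l h (mem_Q.mp hw).1

theorem Q_length {g l : ℕ} {T : ℝ} {w : List ℕ} (hw : w ∈ Q g T l) : w.length = l :=
  (mem_W.mp (mem_Q.mp hw).1).1

theorem le_sum_of_mem {w : List ℕ} {j : ℕ} (h : j ∈ w) : j ≤ w.sum := by
  induction w with
  | nil => simp at h
  | cons a w ih =>
    rw [List.sum_cons]
    rcases List.mem_cons.mp h with rfl | h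
    · omega
    · have := ih h
      omega

theorem bad_le {g : ℕ} (hg : 100 ≤ g) : ∃ κ : ℝ, 0 < κ ∧ κ < 1 ∧ ∀ (L l : ℕ) (T : ℝ), 0 < T →
    ∑ w ∈ W L l \ Q g T l, pr w ≤ 2 * κ ^ l + 11 / Real.sqrt T := by
  classical
  obtain ⟨κ, h0, h1, h⟩ := tail_good hg
  refine ⟨κ, h0, h1, ?_⟩
  intro L l T hT
  have hsub : W L l \ Q g T l ⊆
      (W L l).filter (fun w => ¬ ((2 * g - 1) * l ≤ g * w.sum ∧ g * w.sum ≤ (2 * g + 1) * l)) ∪
      (W L l).filter (fun w => T * 2 ^ w.sum < (F w : ℝ)) := by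
    intro w hw
    rw [Finset.mem_sdiff] at hw
    obtain ⟨hw1, hw2⟩ := hw
    rw [Finset.mem_union, Finset.mem_filter, Finset.mem_filter]
    by_cases hwin : (2 * g - 1) * l ≤ g * w.sum ∧ g * w.sum ≤ (2 * g + 1) * l
    · right
      refine ⟨hw1, ?_⟩
      by_contra hF
      push Not at hF
      apply hw2
      rw [mem_Q]
      refine ⟨?_, hwin.1, hwin.2, hF⟩
      rw [mem_W] at hw1 ⊢
      refine ⟨hw1.1, fun j hj => ⟨(hw1.2 j hj).1, ?_⟩⟩
      have g1 := le_sum_of_mem hj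
      have g2 : w.sum ≤ 3 * l := by
        have := hwin.2
        have g3 : g * w.sum ≤ g * (3 * l) := by nlinarith
        exact Nat.le_of_mul_le_mul_left g3 (by omega)
      omega
    · left
      exact ⟨hw1, hwin⟩
  calc ∑ w ∈ W L l \ Q g T l, pr w ≤ ∑ w ∈ (W L l).filter
        (fun w => ¬ ((2 * g - 1) * l ≤ g * w.sum ∧ g * w.sum ≤ (2 * g + 1) * l)) ∪
        (W L l).filter (fun w => T * 2 ^ w.sum < (F w : ℝ)), pr w :=
        Finset.sum_le_sum_of_subset_of_nonneg hsub (fun w _ _ => (pr_pos w).le)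
    _ ≤ ∑ w ∈ (W L l).filter
        (fun w => ¬ ((2 * g - 1) * l ≤ g * w.sum ∧ g * w.sum ≤ (2 * g + 1) * l)), pr w +
        ∑ w ∈ (W L l).filter (fun w => T * 2 ^ w.sum < (F w : ℝ)), pr w := by
        rw [← Finset.sum_union_inter]
        have : 0 ≤ ∑ w ∈ (W L l).filter
          (fun w => ¬ ((2 * g - 1) * l ≤ g * w.sum ∧ g * w.sum ≤ (2 * g + 1) * l)) ∩
          (W L l).filter (fun w => T * 2 ^ w.sum < (F w : ℝ)), pr w :=
          Finset.sum_nonneg fun w _ => (pr_pos w).le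
        linarith
    _ ≤ _ := add_le_add (h L l) (tail_F L l hT)

theorem Q_mass {g : ℕ} (hg : 100 ≤ g) : ∃ κ : ℝ, 0 < κ ∧ κ < 1 ∧ ∀ (l : ℕ) (T : ℝ), 0 < T →
    1 - l / 2 ^ (3 * l) - 2 * κ ^ l - 11 / Real.sqrt T ≤ ∑ w ∈ Q g T l, pr w := by
  classical
  obtain ⟨κ, h0, h1, h⟩ := bad_le hg
  refine ⟨κ, h0, h1, ?_⟩
  intro l T hT
  have e1 := Finset.sum_sdiff (f := pr) (Q_sub (g := g) (l := l) T (le_refl (3 * l)))
  have e2 := h (3 * l) l T hT
  have e3 := sum_pr (3 * l) l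
  have e4 : (1 : ℝ) - l / 2 ^ (3 * l) ≤ (1 - (1 / 2) ^ (3 * l)) ^ l := by
    have hb := one_add_mul_le_pow (a := -((1 / 2 : ℝ) ^ (3 * l))) (by
      have : (1 / 2 : ℝ) ^ (3 * l) ≤ 1 := pow_le_one₀ (by norm_num) (by norm_num)
      linarith) l
    have e5 : (1 / 2 : ℝ) ^ (3 * l) = 1 / 2 ^ (3 * l) := by rw [one_div, one_div, inv_pow]
    rw [e5] at hb ⊢
    have e6 : (1 : ℝ) + l * -(1 / 2 ^ (3 * l)) = 1 - l / 2 ^ (3 * l) := by ring
    rw [e6] at hb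
    rw [show (1 : ℝ) - 1 / 2 ^ (3 * l) = 1 + -(1 / 2 ^ (3 * l)) by ring]
    exact hb
  linarith

end Pool.Agent.Lib.MP_e43fce_kd
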