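import Pool.Agent.Lib.MP_e43fce_kd.Defs
import Pool.Agent.Lib.MP_e43fce_kd.A01
import Pool.Agent.Lib.MP_e43fce_kd.A02
import Pool.Agent.Lib.MP_e43fce_kd.D02

/-!
Properties of the prefixes. PP_F: φ(p ++ q) = φ(p) + 3^|p| 2^-A(p) φ(q), φ = F/2^sum, 3^I 1.1^I ≤ (21/25)^I 2^A for 199 I ≤ 100 A ((3.3/.84)^100 ≤ 2^199),
so φ ≤ 10000 + ∑_j (21/25)^(I_j), I_j ≥ n0 + j ≥ 100 + j. Window: (2g-1) I ≤ g A ≤ (2g+1) I with g ≥ 100 implies 199 I ≤ 100 A ≤ 201 I.
-/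

set_option autoImplicit false

open Finset

namespace Pool.Agent.Lib.MP_e43fce_kd

theorem II_pos {n0 : ℕ} (h : 100 ≤ n0) (k : ℕ) : 100 + k ≤ II n0 k := by
  induction k with
  | zero => simpa [II] using h
  | succ k ih =>
    show 100 + (k + 1) ≤ II n0 k + (II n0 k / 50 + 1)
    omega

theorem II_succ (n0 k : ℕ) : II n0 (k + 1) = II n0 k + ll n0 (k + 1) := rfl

theorem QQ_window {g n0 k : ℕ} {w : List ℕ} (hw : w ∈ QQ g n0 k) :
    (2 * g - 1) * ll n0 k ≤ g * w.sum ∧ g * w.sum ≤ (2 * g + 1) * ll n0 k := by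
  have := (mem_Q.mp hw).2
  exact ⟨this.1, this.2.1⟩

theorem QQ_F {g n0 k : ℕ} {w : List ℕ} (hw : w ∈ QQ g n0 k) :
    (F w : ℝ) ≤ TB n0 k * 2 ^ w.sum := (mem_Q.mp hw).2.2.2

theorem QQ_length {g n0 k : ℕ} {w : List ℕ} (hw : w ∈ QQ g n0 k) : w.length = ll n0 k :=
  Q_length hw

theorem QQ_letters {g n0 k : ℕ} {w : List ℕ} (hw : w ∈ QQ g n0 k) :
    ∀ j ∈ w, 1 ≤ j ∧ j ≤ 3 * ll n0 k := (mem_W.mp (mem_Q.mp hw).1).2

theorem PP_zero_length (g n0 : ℕ) {w : List ℕ} (hw : w ∈ PP g n0 0) : w.length = II n0 0 :=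
  QQ_length (k := 0) hw

theorem PP_length {g n0 k : ℕ} {w : List ℕ} (hw : w ∈ PP g n0 k) : w.length = II n0 k := by
  induction k generalizing w with
  | zero => exact PP_zero_length g n0 hw
  | succ k ih =>
    obtain ⟨u, hu, v, hv, rfl⟩ := mem_cat.mp (show w ∈ cat (PP g n0 k) (QQ g n0 (k + 1)) from hw)
    rw [List.length_append, ih hu, QQ_length hv, II_succ]

theorem PP_window {g n0 k : ℕ} {w : List ℕ} (hw : w ∈ PP g n0 k) :
    (2 * g - 1) * II n0 k ≤ g * w.sum ∧ g * w.sum ≤ (2 * g + 1) * II n0 k := by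
  induction k generalizing w with
  | zero => exact QQ_window (k := 0) hw
  | succ k ih =>
    obtain ⟨u, hu, v, hv, rfl⟩ := mem_cat.mp (show w ∈ cat (PP g n0 k) (QQ g n0 (k + 1)) from hw)
    obtain ⟨a1, a2⟩ := ih hu
    obtain ⟨b1, b2⟩ := QQ_window hv
    rw [List.sum_append, II_succ, Nat.mul_add, Nat.mul_add, Nat.mul_add]
    exact ⟨Nat.add_le_add a1 b1, Nat.add_le_add a2 b2⟩

theorem PP_window' {g n0 k : ℕ} (hg : 100 ≤ g) {w : List ℕ} (hw : w ∈ PP g n0 k) :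
    199 * II n0 k ≤ 100 * w.sum ∧ 100 * w.sum ≤ 201 * II n0 k := by
  obtain ⟨h1, h2⟩ := PP_window hw
  have hg0 : 0 < g := by omega
  obtain ⟨e, rfl⟩ : ∃ e, g = 100 + e := ⟨g - 100, by omega⟩
  constructor
  · apply Nat.le_of_mul_le_mul_left _ hg0
    have h3 : 2 * (100 + e) - 1 = 199 + 2 * e := by omega
    rw [h3] at h1
    nlinarith
  · apply Nat.le_of_mul_le_mul_left _ hg0
    nlinarith

theorem PP_letters {g n0 k : ℕ} {w : List ℕ} (hw : w ∈ PP g n0 k) :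
    ∀ j ∈ w, 1 ≤ j ∧ j ≤ 3 * II n0 k := by
  induction k generalizing w with
  | zero => exact QQ_letters (k := 0) hw
  | succ k ih =>
    obtain ⟨u, hu, v, hv, rfl⟩ := mem_cat.mp (show w ∈ cat (PP g n0 k) (QQ g n0 (k + 1)) from hw)
    intro j hj
    have e := II_succ n0 k
    rcases List.mem_append.mp hj with hj | hj
    · have := ih hu j hj
      exact ⟨this.1, by omega⟩
    · have := QQ_letters hv j hj
      exact ⟨this.1, by omega⟩

theorem phi_pow_le {I A : ℕ} (hA : 199 * I ≤ 100 * A) :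
    (3 : ℝ) ^ I * (11 / 10) ^ I ≤ (21 / 25) ^ I * 2 ^ A := by
  have h1 : (55 / 14 : ℝ) ^ I ≤ 2 ^ A := by
    apply le_of_pow_le_pow_left₀ (n := 100) (by norm_num) (by positivity)
    rw [← pow_mul, ← pow_mul, mul_comm I 100, mul_comm A 100, pow_mul]
    calc ((55 / 14 : ℝ) ^ 100) ^ I ≤ (2 ^ 199) ^ I := by
          apply pow_le_pow_left₀ (by positivity)
          norm_num
      _ = 2 ^ (199 * I) := by rw [pow_mul]
      _ ≤ 2 ^ (100 * A) := pow_le_pow_right₀ (by norm_num) hA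
  have h2 : (3 : ℝ) ^ I * (11 / 10) ^ I = (21 / 25) ^ I * (55 / 14) ^ I := by
    rw [← mul_pow, ← mul_pow]
    norm_num
  rw [h2]
  exact mul_le_mul_of_nonneg_left h1 (by positivity)

theorem PP_F_aux {g n0 k : ℕ} (hg : 100 ≤ g) (hn : 100 ≤ n0) {w : List ℕ} (hw : w ∈ PP g n0 k) :
    (F w : ℝ) ≤ (10001 - (21 / 25) ^ k) * 2 ^ w.sum := by
  induction k generalizing w with
  | zero =>
    have := QQ_F (k := 0) hw
    have e : TB n0 0 = 10000 := rfl
    rw [e] at this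
    rw [pow_zero]
    linarith
  | succ k ih =>
    have hw' := hw
    obtain ⟨u, hu, v, hv, rfl⟩ := mem_cat.mp (show w ∈ cat (PP g n0 k) (QQ g n0 (k + 1)) from hw)
    have h1 := ih hu
    have h2 := QQ_F hv
    have e : TB n0 (k + 1) = (11 / 10) ^ II n0 k := rfl
    rw [e] at h2
    rw [F_append, PP_length hu, List.sum_append, pow_add (2 : ℝ) u.sum v.sum]
    push_cast
    have h3 := phi_pow_le (PP_window' hg hu).1
    have h4 : (21 / 25 : ℝ) ^ II n0 k ≤ (21 / 25) ^ (100 + k) :=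
      pow_le_pow_of_le_one (by norm_num) (by norm_num) (II_pos hn k)
    have h5 : (21 / 25 : ℝ) ^ (100 + k) ≤ (4 / 25) * (21 / 25) ^ k := by
      rw [pow_add]
      apply mul_le_mul_of_nonneg_right _ (by positivity)
      norm_num
    have hv0 : (0 : ℝ) < 2 ^ v.sum := by positivity
    have hu0 : (0 : ℝ) < 2 ^ u.sum := by positivity
    calc (2 : ℝ) ^ v.sum * (F u : ℝ) + 3 ^ II n0 k * (F v : ℝ)
        ≤ 2 ^ v.sum * ((10001 - (21 / 25) ^ k) * 2 ^ u.sum) +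
          3 ^ II n0 k * ((11 / 10) ^ II n0 k * 2 ^ v.sum) := by
          apply add_le_add
          · exact mul_le_mul_of_nonneg_left h1 hv0.le
          · exact mul_le_mul_of_nonneg_left h2 (by positivity)
      _ = 2 ^ v.sum * ((10001 - (21 / 25) ^ k) * 2 ^ u.sum + 3 ^ II n0 k * (11 / 10) ^ II n0 k) := by
          ring
      _ ≤ 2 ^ v.sum * ((10001 - (21 / 25) ^ k) * 2 ^ u.sum +
            (4 / 25 * (21 / 25) ^ k) * 2 ^ u.sum) := by
          apply mul_le_mul_of_nonneg_left _ hv0.le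
          have h6 : (21 / 25 : ℝ) ^ II n0 k * 2 ^ u.sum ≤ (4 / 25 * (21 / 25) ^ k) * 2 ^ u.sum :=
            mul_le_mul_of_nonneg_right (h4.trans h5) hu0.le
          linarith
      _ = (10001 - (21 / 25) ^ (k + 1)) * (2 ^ u.sum * 2 ^ v.sum) := by
          rw [pow_succ]; ring

theorem PP_F {g n0 k : ℕ} (hg : 100 ≤ g) (hn : 100 ≤ n0) {w : List ℕ} (hw : w ∈ PP g n0 k) :
    (F w : ℝ) ≤ 10001 * 2 ^ w.sum := by
  refine (PP_F_aux hg hn hw).trans ?_
  apply mul_le_mul_of_nonneg_right _ (by positivity)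
  have : (0 : ℝ) ≤ (21 / 25) ^ k := by positivity
  linarith

theorem three_pow_le_of {N A : ℕ} (h : 8 * N ≤ 5 * A) : (3 : ℝ) ^ N ≤ 2 ^ A := by
  apply le_of_pow_le_pow_left₀ (n := 5) (by norm_num) (by positivity)
  rw [← pow_mul, ← pow_mul, mul_comm N 5, mul_comm A 5, pow_mul]
  calc ((3 : ℝ) ^ 5) ^ N ≤ (2 ^ 8) ^ N := by
        apply pow_le_pow_left₀ (by positivity)
        norm_num
    _ = 2 ^ (8 * N) := by rw [pow_mul]
    _ ≤ 2 ^ (5 * A) := pow_le_pow_right₀ (by norm_num) h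

theorem three_pow_le {n0 k A : ℕ} (hn : 100 ≤ n0) (hA : 199 * II n0 k ≤ 100 * A) :
    (3 : ℝ) ^ II n0 (k + 2) ≤ 2 ^ A := by
  apply three_pow_le_of
  have h1 := II_pos hn k
  have e1 : II n0 (k + 1) = II n0 k + (II n0 k / 50 + 1) := rfl
  have e2 : II n0 (k + 2) = II n0 (k + 1) + (II n0 (k + 1) / 50 + 1) := rfl
  omega

theorem three_pow_le' {n0 k A K : ℕ} (hn : 100 ≤ n0) (hA : 199 * II n0 k ≤ 100 * A)
    (hK : 100 * K ≤ 114 * II n0 (k + 1)) : (3 : ℝ) ^ K ≤ 2 ^ A := by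
  apply three_pow_le_of
  have h1 := II_pos hn k
  have e1 : II n0 (k + 1) = II n0 k + (II n0 k / 50 + 1) := rfl
  omega

end Pool.Agent.Lib.MP_e43fce_kd
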