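import Pool.Agent.Lib.MP_e43fce_kd.Defs
import Pool.Agent.Lib.MP_e43fce_kd.A01
import Pool.Agent.Lib.MP_e43fce_kd.A02

/-!
Admissibility, nodes and the sums `Sm`.
adm_append / nd_append: `2^{A(uv)} m - F(uv) = 2^{A(v)} (2^{A(u)} m - F(u)) - 3^{|u|} F(v)`; if 3^{|u|+|v|} divides it then 3^{|u|} divides
`2^{A(u)} m - F(u)` (2 is prime to 3).
-/

set_option autoImplicit false

open Finset

namespace Pool.Agent.Lib.MP_e43fce_kd

theorem nd_mul {m : ℤ} {w : List ℕ} (h : adm m w) :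
    3 ^ w.length * nd m w = 2 ^ w.sum * m - F w := by
  unfold nd
  exact Int.mul_ediv_cancel' h

theorem a03_num (m : ℤ) (u v : List ℕ) : 2 ^ (u ++ v).sum * m - (F (u ++ v) : ℤ) =
    2 ^ v.sum * (2 ^ u.sum * m - F u) - 3 ^ u.length * F v := by
  rw [F_append, List.sum_append, pow_add]
  push_cast
  ring

theorem a03_num' {m : ℤ} {u : List ℕ} (v : List ℕ) (h : adm m u) :
    2 ^ (u ++ v).sum * m - (F (u ++ v) : ℤ) = 3 ^ u.length * (2 ^ v.sum * nd m u - F v) := by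
  rw [a03_num, ← nd_mul h]
  ring

theorem adm_append {m : ℤ} {u v : List ℕ} : adm m (u ++ v) ↔ adm m u ∧ adm (nd m u) v := by
  constructor
  · intro h
    have hu : adm m u := by
      unfold adm at h ⊢
      rw [a03_num, List.length_append, pow_add] at h
      have h1 : (3 : ℤ) ^ u.length ∣ 2 ^ v.sum * (2 ^ u.sum * m - F u) - 3 ^ u.length * F v :=
        (Dvd.intro _ rfl).trans h
      have h2 : (3 : ℤ) ^ u.length ∣ 2 ^ v.sum * (2 ^ u.sum * m - F u) :=
        (dvd_sub_left (Dvd.intro _ rfl)).1 h1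
      refine IsCoprime.dvd_of_dvd_mul_left ?_ h2
      exact IsCoprime.pow (by norm_num)
    refine ⟨hu, ?_⟩
    unfold adm at h ⊢
    rw [a03_num' v hu, List.length_append, pow_add] at h
    exact (mul_dvd_mul_iff_left (by positivity)).1 h
  · rintro ⟨hu, hv⟩
    unfold adm at hv ⊢
    rw [a03_num' v hu, List.length_append, pow_add]
    exact mul_dvd_mul_left _ hv

theorem nd_append {m : ℤ} {u : List ℕ} (v : List ℕ) (h : adm m u) :
    nd m (u ++ v) = nd (nd m u) v := by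
  have h1 := a03_num' v h
  unfold nd at h1 ⊢
  rw [h1, List.length_append, pow_add, Int.mul_ediv_mul_of_pos _ _ (by positivity)]

theorem adm_add (m z : ℤ) (w : List ℕ) : adm (m + 3 ^ w.length * z) w ↔ adm m w := by
  unfold adm
  have h : 2 ^ w.sum * (m + 3 ^ w.length * z) - (F w : ℤ) =
      2 ^ w.sum * m - F w + 3 ^ w.length * (2 ^ w.sum * z) := by ring
  rw [h]
  exact dvd_add_left (Dvd.intro _ rfl)

theorem nd_add (m z : ℤ) (w : List ℕ) :
    nd (m + 3 ^ w.length * z) w = nd m w + 2 ^ w.sum * z := by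
  unfold nd
  have h : 2 ^ w.sum * (m + 3 ^ w.length * z) - (F w : ℤ) =
      2 ^ w.sum * m - F w + 3 ^ w.length * (2 ^ w.sum * z) := by ring
  rw [h, Int.add_mul_ediv_left _ _ (by positivity)]

theorem adm_nil (m : ℤ) : adm m [] := by
  unfold adm
  simp

theorem nd_nil (m : ℤ) : nd m [] = m := by
  unfold nd
  simp [F]

theorem adm_singleton (x : ℤ) (b : ℕ) : adm x [b] ↔ (3 : ℤ) ∣ 2 ^ b * x - 1 := by
  unfold adm
  simp [F]

theorem Sm_cat {C D : Finset (List ℕ)} {k : ℕ} (hC : ∀ w ∈ C, w.length = k)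
    (f : List ℕ → ℤ → ℝ) (m : ℤ) :
    Sm (cat C D) f m = Sm C (fun u x => Sm D (fun v y => f (u ++ v) y) x) m := by
  unfold Sm
  rw [sum_cat hC]
  refine sum_congr rfl fun u _ => ?_
  by_cases hu : adm m u
  · rw [if_pos hu, mul_sum]
    refine sum_congr rfl fun v _ => ?_
    by_cases hv : adm (nd m u) v
    · rw [if_pos (adm_append.2 ⟨hu, hv⟩), if_pos hv, nd_append v hu, wt_append]
      ring
    · rw [if_neg fun h => hv (adm_append.1 h).2, if_neg hv, mul_zero]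
  · rw [if_neg hu]
    exact sum_eq_zero fun v _ => if_neg fun h => hu (adm_append.1 h).1

theorem Sm_W_add (L k n : ℕ) (f : List ℕ → ℤ → ℝ) (m : ℤ) :
    Sm (W L (k + n)) f m = Sm (W L k) (fun u x => Sm (W L n) (fun v y => f (u ++ v) y) x) m := by
  unfold Sm
  rw [sum_W_add]
  refine sum_congr rfl fun u _ => ?_
  by_cases hu : adm m u
  · rw [if_pos hu, mul_sum]
    refine sum_congr rfl fun v _ => ?_
    by_cases hv : adm (nd m u) v
    · rw [if_pos (adm_append.2 ⟨hu, hv⟩), if_pos hv, nd_append v hu, wt_append]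
      ring
    · rw [if_neg fun h => hv (adm_append.1 h).2, if_neg hv, mul_zero]
  · rw [if_neg hu]
    exact sum_eq_zero fun v _ => if_neg fun h => hu (adm_append.1 h).1

theorem SmC_W_add (L k n : ℕ) (f : List ℕ → ℤ → ℂ) (m : ℤ) :
    SmC (W L (k + n)) f m = SmC (W L k) (fun u x => SmC (W L n) (fun v y => f (u ++ v) y) x) m := by
  unfold SmC
  rw [sum_W_add]
  refine sum_congr rfl fun u _ => ?_
  by_cases hu : adm m u
  · rw [if_pos hu, mul_sum]
    refine sum_congr rfl fun v _ => ?_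
    by_cases hv : adm (nd m u) v
    · rw [if_pos (adm_append.2 ⟨hu, hv⟩), if_pos hv, nd_append v hu, wt_append]
      push_cast
      ring
    · rw [if_neg fun h => hv (adm_append.1 h).2, if_neg hv, mul_zero]
  · rw [if_neg hu]
    exact sum_eq_zero fun v _ => if_neg fun h => hu (adm_append.1 h).1

theorem Sm_nonneg {C : Finset (List ℕ)} {f : List ℕ → ℤ → ℝ} (h : ∀ w ∈ C, ∀ x, 0 ≤ f w x)
    (m : ℤ) : 0 ≤ Sm C f m := by
  unfold Sm
  refine sum_nonneg fun w hw => ?_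
  split_ifs
  · exact mul_nonneg (wt_pos w).le (h w hw _)
  · exact le_rfl

theorem Sm_mono {C : Finset (List ℕ)} {f f' : List ℕ → ℤ → ℝ} (h : ∀ w ∈ C, ∀ x, f w x ≤ f' w x)
    (m : ℤ) : Sm C f m ≤ Sm C f' m := by
  unfold Sm
  refine sum_le_sum fun w hw => ?_
  split_ifs
  · exact mul_le_mul_of_nonneg_left (h w hw _) (wt_pos w).le
  · exact le_rfl

theorem Sm_subset {C D : Finset (List ℕ)} {f : List ℕ → ℤ → ℝ} (hCD : C ⊆ D)
    (h : ∀ w ∈ D, ∀ x, 0 ≤ f w x) (m : ℤ) : Sm C f m ≤ Sm D f m := by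
  unfold Sm
  refine sum_le_sum_of_subset_of_nonneg hCD fun w hw _ => ?_
  split_ifs
  · exact mul_nonneg (wt_pos w).le (h w hw _)
  · exact le_rfl

theorem Sm_sub (C : Finset (List ℕ)) (f f' : List ℕ → ℤ → ℝ) (m : ℤ) :
    Sm C (fun w x => f w x - f' w x) m = Sm C f m - Sm C f' m := by
  unfold Sm
  rw [← sum_sub_distrib]
  refine sum_congr rfl fun w _ => ?_
  split_ifs
  · ring
  · ring

theorem Sm_add (C : Finset (List ℕ)) (f f' : List ℕ → ℤ → ℝ) (m : ℤ) :
    Sm C (fun w x => f w x + f' w x) m = Sm C f m + Sm C f' m := by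
  unfold Sm
  rw [← sum_add_distrib]
  refine sum_congr rfl fun w _ => ?_
  split_ifs
  · ring
  · ring

theorem Sm_mul (C : Finset (List ℕ)) (a : ℝ) (f : List ℕ → ℤ → ℝ) (m : ℤ) :
    Sm C (fun w x => a * f w x) m = a * Sm C f m := by
  unfold Sm
  rw [mul_sum]
  refine sum_congr rfl fun w _ => ?_
  split_ifs
  · ring
  · ring

theorem abs_Sm_le (C : Finset (List ℕ)) (f : List ℕ → ℤ → ℝ) (m : ℤ) :
    |Sm C f m| ≤ Sm C (fun w x => |f w x|) m := by
  unfold Sm
  refine (abs_sum_le_sum_abs _ _).trans (sum_le_sum fun w _ => ?_)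
  split_ifs
  · rw [abs_mul, abs_of_pos (wt_pos w)]
  · rw [abs_zero]

theorem norm_SmC_le (C : Finset (List ℕ)) (f : List ℕ → ℤ → ℂ) (m : ℤ) :
    ‖SmC C f m‖ ≤ Sm C (fun w x => ‖f w x‖) m := by
  unfold Sm SmC
  refine (norm_sum_le _ _).trans (sum_le_sum fun w _ => ?_)
  split_ifs
  · rw [norm_mul, Complex.norm_real, Real.norm_eq_abs, abs_of_pos (wt_pos w)]
  · rw [norm_zero]

theorem Sm_sdiff {C D : Finset (List ℕ)} (h : C ⊆ D) (f : List ℕ → ℤ → ℝ) (m : ℤ) :
    Sm D f m = Sm C f m + Sm (D \ C) f m := by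
  unfold Sm
  rw [add_comm, sum_sdiff h]

end Pool.Agent.Lib.MP_e43fce_kd
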