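import Pool.Agent.Lib.MP_e43fce_kd.Defs
import Pool.Agent.Lib.MP_e43fce_kd.A03

/-!
Averages of periodic functions. `Av_Sm` is the equidistribution (EQ): for a word of length k, exactly 3^s residues modulo 3^(k+s) are
admissible (m = h^A (F + 3^k x), x mod 3^s) and the node runs once through all residues x modulo 3^s.
-/

set_option autoImplicit false

open Finset

namespace Pool.Agent.Lib.MP_e43fce_kd

theorem Per_mono {β : Type} {s s' : ℕ} (h : s ≤ s') {f : ℤ → β} (hf : Per s f) : Per s' f := by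
  intro x z
  obtain ⟨c, rfl⟩ := Nat.exists_eq_add_of_le h
  rw [pow_add, mul_assoc]
  exact hf x _

theorem Av_const (s : ℕ) (a : ℝ) : Av s (fun _ => a) = a := by
  unfold Av
  rw [Finset.sum_const, Finset.card_range, nsmul_eq_mul]
  push_cast
  field_simp

theorem Av_nonneg {s : ℕ} {f : ℤ → ℝ} (h : ∀ x, 0 ≤ f x) : 0 ≤ Av s f := by
  unfold Av
  exact div_nonneg (Finset.sum_nonneg fun i _ => h _) (by positivity)

theorem Av_mono {s : ℕ} {f f' : ℤ → ℝ} (h : ∀ x, f x ≤ f' x) : Av s f ≤ Av s f' := by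
  unfold Av
  exact div_le_div_of_nonneg_right (Finset.sum_le_sum fun i _ => h _) (by positivity)

theorem Av_add (s : ℕ) (f f' : ℤ → ℝ) : Av s (fun x => f x + f' x) = Av s f + Av s f' := by
  unfold Av
  rw [Finset.sum_add_distrib, add_div]

theorem Av_sub (s : ℕ) (f f' : ℤ → ℝ) : Av s (fun x => f x - f' x) = Av s f - Av s f' := by
  unfold Av
  rw [Finset.sum_sub_distrib, sub_div]

theorem Av_mul (s : ℕ) (a : ℝ) (f : ℤ → ℝ) : Av s (fun x => a * f x) = a * Av s f := by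
  unfold Av
  rw [← Finset.mul_sum, mul_div_assoc]

theorem Av_sum {ι : Type*} (s : ℕ) (S : Finset ι) (f : ι → ℤ → ℝ) :
    Av s (fun x => ∑ i ∈ S, f i x) = ∑ i ∈ S, Av s (f i) := by
  unfold Av
  rw [Finset.sum_comm, Finset.sum_div]

theorem abs_Av_le (s : ℕ) (f : ℤ → ℝ) : |Av s f| ≤ Av s (fun x => |f x|) := by
  unfold Av
  rw [abs_div, abs_of_pos (show (0 : ℝ) < 3 ^ s by positivity)]
  exact div_le_div_of_nonneg_right (Finset.abs_sum_le_sum_abs _ _) (by positivity)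

theorem exists_ge_Av (s : ℕ) (f : ℤ → ℝ) : ∃ m : ℤ, Av s f ≤ f m := by
  have hne : (range (3 ^ s)).Nonempty := by
    rw [Finset.nonempty_range_iff]
    positivity
  obtain ⟨i, _, hi⟩ := Finset.exists_le_of_sum_le (f := fun _ : ℕ => Av s f)
    (g := fun i : ℕ => f i) hne (by
      rw [Finset.sum_const, Finset.card_range, nsmul_eq_mul]
      unfold Av
      push_cast
      rw [mul_div_cancel₀]
      positivity)
  exact ⟨i, hi⟩

theorem Av_sq_le (s : ℕ) (f : ℤ → ℝ) : Av s f ^ 2 ≤ Av s (fun x => f x ^ 2) := by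
  unfold Av
  have h := sq_sum_le_card_mul_sum_sq (s := range (3 ^ s)) (f := fun x : ℕ => f x)
  rw [Finset.card_range] at h
  push_cast at h
  have h3 : (0 : ℝ) < 3 ^ s := by positivity
  rw [div_pow, div_le_div_iff₀ (by positivity) h3]
  nlinarith

private lemma a04_sum_mul {s : ℕ} {f : ℤ → ℝ} (hf : Per s f) (k : ℕ) :
    ∑ x ∈ range (3 ^ s * k), f x = k * ∑ x ∈ range (3 ^ s), f x := by
  induction k with
  | zero => simp
  | succ k ih =>
    rw [Nat.mul_succ, Finset.sum_range_add, ih]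
    have : ∀ x ∈ range (3 ^ s), f ((3 ^ s * k + x : ℕ) : ℤ) = f (x : ℤ) := by
      intro x _
      have := hf x k
      rw [← this]
      congr 1
      push_cast
      ring
    rw [Finset.sum_congr rfl this]
    push_cast
    ring

theorem Av_per {s s' : ℕ} (h : s ≤ s') {f : ℤ → ℝ} (hf : Per s f) : Av s' f = Av s f := by
  obtain ⟨c, rfl⟩ := Nat.exists_eq_add_of_le h
  unfold Av
  have h1 := a04_sum_mul hf (3 ^ c)
  rw [← pow_add] at h1
  rw [h1, pow_add]
  push_cast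
  have h3 : (3 : ℝ) ^ c ≠ 0 := by positivity
  rw [mul_comm ((3 : ℝ) ^ s), mul_div_mul_left _ _ h3]

theorem Per_Sm {C : Finset (List ℕ)} {k s : ℕ} (hC : ∀ w ∈ C, w.length = k)
    {f : List ℕ → ℤ → ℝ} (hf : ∀ w ∈ C, Per s (f w)) : Per (k + s) (Sm C f) := by
  intro x z
  unfold Sm
  apply Finset.sum_congr rfl
  intro w hw
  have e : x + 3 ^ (k + s) * z = x + 3 ^ w.length * (3 ^ s * z) := by
    rw [hC w hw, pow_add, mul_assoc]
  rw [e, nd_add]
  have e2 : nd x w + 2 ^ w.sum * (3 ^ s * z) = nd x w + 3 ^ s * (2 ^ w.sum * z) := by ring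
  rw [e2, hf w hw]
  have := adm_add x (3 ^ s * z) w
  simp only [this]

private lemma a04_bij {k s : ℕ} {w : List ℕ} (hk : w.length = k) {f : ℤ → ℝ} (hf : Per s f) :
    ∑ x ∈ (range (3 ^ (k + s))).filter (fun x : ℕ => adm (x : ℤ) w), f (nd (x : ℤ) w) =
      ∑ y ∈ range (3 ^ s), f (y : ℤ) := by
  have h3s : (0 : ℤ) < 3 ^ s := by positivity
  have h3k : (3 : ℤ) ^ k ≠ 0 := by positivity
  have hcop : IsCoprime ((2 : ℤ) ^ w.sum) (3 ^ (k + s)) := by
    apply IsCoprime.pow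
    rw [Int.isCoprime_iff_gcd_eq_one]
    decide
  refine Finset.sum_bij (fun (x : ℕ) _ => (nd (x : ℤ) w % 3 ^ s).toNat) ?_ ?_ ?_ ?_
  · intro x _
    have h1 := Int.emod_lt_of_pos (nd (x : ℤ) w) h3s
    have h2 := Int.emod_nonneg (nd (x : ℤ) w) h3s.ne'
    rw [Finset.mem_range]
    zify
    rw [Int.toNat_of_nonneg h2]
    exact_mod_cast h1
  · intro x hx x' hx' h
    rw [Finset.mem_filter, Finset.mem_range] at hx hx'
    have h2 := Int.emod_nonneg (nd (x : ℤ) w) h3s.ne'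
    have h2' := Int.emod_nonneg (nd (x' : ℤ) w) h3s.ne'
    have h4 : nd (x : ℤ) w % 3 ^ s = nd (x' : ℤ) w % 3 ^ s := by
      have h5 : (nd (x : ℤ) w % 3 ^ s).toNat = (nd (x' : ℤ) w % 3 ^ s).toNat := h
      rw [← Int.toNat_of_nonneg h2, ← Int.toNat_of_nonneg h2', h5]
    have h6 : (3 : ℤ) ^ s ∣ nd (x : ℤ) w - nd (x' : ℤ) w :=
      Int.ModEq.dvd (Int.ModEq.symm h4)
    have h7 := nd_mul hx.2
    have h8 := nd_mul hx'.2
    rw [hk] at h7 h8
    have h9 : (3 : ℤ) ^ (k + s) ∣ 2 ^ w.sum * ((x : ℤ) - x') := by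
      obtain ⟨c, hc⟩ := h6
      refine ⟨c, ?_⟩
      have : (3 : ℤ) ^ k * (nd (x : ℤ) w - nd (x' : ℤ) w) = 2 ^ w.sum * ((x : ℤ) - x') := by
        linear_combination h7 - h8
      rw [← this, hc, pow_add]
      ring
    have h10 : (3 : ℤ) ^ (k + s) ∣ (x : ℤ) - x' := hcop.symm.dvd_of_dvd_mul_left h9
    have h11 : (x : ℤ) < 3 ^ (k + s) := by exact_mod_cast hx.1
    have h12 : (x' : ℤ) < 3 ^ (k + s) := by exact_mod_cast hx'.1
    have h13 : (x : ℤ) - x' = 0 := by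
      apply Int.eq_zero_of_abs_lt_dvd h10
      rw [abs_lt]
      constructor <;> omega
    omega
  · intro y hy
    rw [Finset.mem_range] at hy
    obtain ⟨a, b, hab⟩ := hcop
    -- a * 2 ^ A + b * 3 ^ (k + s) = 1
    have hN : (0 : ℤ) < 3 ^ (k + s) := by positivity
    let X : ℤ := a * ((F w : ℤ) + 3 ^ k * y)
    have hX0 := Int.emod_nonneg X hN.ne'
    have hX1 := Int.emod_lt_of_pos X hN
    obtain ⟨t, ht⟩ : ∃ t : ℤ, X % 3 ^ (k + s) = X + 3 ^ (k + s) * t := by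
      refine ⟨-(X / 3 ^ (k + s)), ?_⟩
      have := Int.emod_add_mul_ediv X (3 ^ (k + s))
      linear_combination this
    have hkey : 2 ^ w.sum * (X % 3 ^ (k + s)) - (F w : ℤ) =
        3 ^ k * (y + 3 ^ s * (2 ^ w.sum * t - b * ((F w : ℤ) + 3 ^ k * y))) := by
      rw [ht]
      have e1 : 2 ^ w.sum * a = 1 - b * 3 ^ (k + s) := by linear_combination hab
      have e2 : 2 ^ w.sum * (X + 3 ^ (k + s) * t) =
          (2 ^ w.sum * a) * ((F w : ℤ) + 3 ^ k * y) + 2 ^ w.sum * 3 ^ (k + s) * t := by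
        show 2 ^ w.sum * (a * ((F w : ℤ) + 3 ^ k * y) + 3 ^ (k + s) * t) = _
        ring
      rw [e2, e1, pow_add]
      ring
    have hadm : adm (((X % 3 ^ (k + s)).toNat : ℕ) : ℤ) w := by
      unfold adm
      rw [Int.toNat_of_nonneg hX0, hkey, hk]
      exact Dvd.intro _ rfl
    refine ⟨(X % 3 ^ (k + s)).toNat, ?_, ?_⟩
    · rw [Finset.mem_filter, Finset.mem_range]
      refine ⟨?_, hadm⟩
      zify
      rw [Int.toNat_of_nonneg hX0]
      exact_mod_cast hX1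
    · have h1 := nd_mul hadm
      rw [Int.toNat_of_nonneg hX0, hkey, hk] at h1
      have h2 := mul_left_cancel₀ h3k h1
      show (nd (((X % 3 ^ (k + s)).toNat : ℕ) : ℤ) w % 3 ^ s).toNat = y
      rw [Int.toNat_of_nonneg hX0, h2, Int.add_mul_emod_self_left,
        Int.emod_eq_of_lt (by positivity) (by exact_mod_cast hy)]
      simp
  · intro x _
    have h2 := Int.emod_nonneg (nd (x : ℤ) w) h3s.ne'
    show f (nd (x : ℤ) w) = f (((nd (x : ℤ) w % 3 ^ s).toNat : ℕ) : ℤ)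
    rw [Int.toNat_of_nonneg h2]
    have h5 := hf (nd (x : ℤ) w) (-(nd (x : ℤ) w / 3 ^ s))
    rw [← h5]
    congr 1
    have := Int.emod_add_mul_ediv (nd (x : ℤ) w) (3 ^ s)
    linear_combination -this

theorem Av_Sm {C : Finset (List ℕ)} {k s : ℕ} (hC : ∀ w ∈ C, w.length = k)
    {f : List ℕ → ℤ → ℝ} (hf : ∀ w ∈ C, Per s (f w)) :
    Av (k + s) (Sm C f) = ∑ w ∈ C, pr w * Av s (f w) := by
  unfold Av Sm
  rw [Finset.sum_comm, Finset.sum_div]
  apply Finset.sum_congr rfl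
  intro w hw
  rw [← Finset.sum_filter, ← Finset.mul_sum, a04_bij (hC w hw) (hf w hw), wt_eq, hC w hw, pow_add]
  have h1 : (3 : ℝ) ^ k ≠ 0 := by positivity
  have h2 : (3 : ℝ) ^ s ≠ 0 := by positivity
  field_simp

end Pool.Agent.Lib.MP_e43fce_kd
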