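import Pool.Agent.Lib.MP_e43fce_kd.Defs
import Pool.Agent.Lib.MP_e43fce_kd.A03
import Pool.Agent.Lib.MP_e43fce_kd.A04
import Pool.Agent.Lib.MP_e43fce_kd.D03

/-!
The mass MM and its increments (Sm_cat; PP (k+1) = cat (PP k) (QQ (k+1))).
-/

set_option autoImplicit false

open Finset

namespace Pool.Agent.Lib.MP_e43fce_kd

theorem Per_const (s : ℕ) (a : ℝ) : Per s (fun _ : ℤ => a) := fun _ _ => rfl

theorem Per_MM (g n0 k : ℕ) : Per (II n0 k) (MM g n0 k) := by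
  have h := Per_Sm (C := PP g n0 k) (k := II n0 k) (s := 0) (fun w hw => PP_length hw)
    (f := fun _ _ => 1) (fun w _ => Per_const 0 1)
  rw [add_zero] at h
  exact h

theorem Av_MM (g n0 k : ℕ) : Av (II n0 k) (MM g n0 k) = ∑ w ∈ PP g n0 k, pr w := by
  have h := Av_Sm (C := PP g n0 k) (k := II n0 k) (s := 0) (fun w hw => PP_length hw)
    (f := fun _ _ => 1) (fun w _ => Per_const 0 1)
  rw [add_zero] at h
  have h' : Av (II n0 k) (MM g n0 k) = Av (II n0 k) (Sm (PP g n0 k) (fun _ _ => 1)) := rfl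
  rw [h', h]
  apply Finset.sum_congr rfl
  intro w _
  rw [Av_const, mul_one]

theorem sum_pr_PP (g n0 k : ℕ) : ∑ w ∈ PP g n0 (k + 1), pr w =
    (∑ w ∈ PP g n0 k, pr w) * ∑ w ∈ QQ g n0 (k + 1), pr w := by
  have e : PP g n0 (k + 1) = cat (PP g n0 k) (QQ g n0 (k + 1)) := rfl
  rw [e, sum_cat (fun w hw => PP_length hw), Finset.sum_mul_sum]
  apply Finset.sum_congr rfl
  intro u _
  apply Finset.sum_congr rfl
  intro v _
  exact pr_append u v

theorem Sm_PP_succ (g n0 k : ℕ) (f : List ℕ → ℤ → ℝ) (m : ℤ) : Sm (PP g n0 (k + 1)) f m =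
    Sm (PP g n0 k) (fun u x => Sm (QQ g n0 (k + 1)) (fun v y => f (u ++ v) y) x) m := by
  have e : PP g n0 (k + 1) = cat (PP g n0 k) (QQ g n0 (k + 1)) := rfl
  rw [e, Sm_cat (fun w hw => PP_length hw)]

theorem MM_step (g n0 k : ℕ) (m : ℤ) : MM g n0 (k + 2) m - MM g n0 (k + 1) m =
    Sm (PP g n0 k) (fun _ x => HH g n0 k x) m := by
  have e1 : MM g n0 (k + 2) m = Sm (PP g n0 k) (fun _ x => Sm (QQ g n0 (k + 1))
      (fun _ y => Sm (QQ g n0 (k + 2)) (fun _ _ => 1) y) x) m := by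
    show Sm (PP g n0 (k + 1 + 1)) (fun _ _ => 1) m = _
    rw [Sm_PP_succ, Sm_PP_succ]
  have e2 : MM g n0 (k + 1) m = Sm (PP g n0 k) (fun _ x => Sm (QQ g n0 (k + 1))
      (fun _ _ => 1) x) m := by
    show Sm (PP g n0 (k + 1)) (fun _ _ => 1) m = _
    rw [Sm_PP_succ]
  rw [e1, e2, ← Sm_sub]
  congr 1
  funext _ x
  rw [← Sm_sub]
  rfl

theorem Per_HH (g n0 k : ℕ) : Per (ll n0 (k + 1) + ll n0 (k + 2)) (HH g n0 k) := by
  apply Per_Sm (fun w hw => QQ_length hw)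
  intro w _
  have h := Per_Sm (C := QQ g n0 (k + 2)) (k := ll n0 (k + 2)) (s := 0) (fun w hw => QQ_length hw)
    (f := fun _ _ => 1) (fun w _ => Per_const 0 1)
  rw [add_zero] at h
  intro x z
  show Sm (QQ g n0 (k + 2)) (fun _ _ => 1) (x + 3 ^ ll n0 (k + 2) * z) - 1 =
    Sm (QQ g n0 (k + 2)) (fun _ _ => 1) x - 1
  rw [h x z]

end Pool.Agent.Lib.MP_e43fce_kd
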