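import Pool.Agent.Lib.MP_e43fce_kd.Defs
import Pool.Agent.Lib.MP_e43fce_kd.A02
import Pool.Agent.Lib.MP_e43fce_kd.A03
import Pool.Agent.Lib.MP_e43fce_kd.A04

/-!
(SAMP). The nodes nd m w (w ∈ C admissible) are distinct integers (F_inj, nd_mul) in the interval [(2^A m - T 2^A)/3^k, 2^A m/3^k]; each class modulo 3^s contains
at most T 2^A/3^(k+s) + 1 of them. So the sum is ≤ 3^k 2^-A (T 2^A/3^(k+s) + 1) ∑_{x mod 3^s} f x = (T + 3^(k+s)/2^A) Av s f.
-/

set_option autoImplicit false

open Finset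

namespace Pool.Agent.Lib.MP_e43fce_kd

/-- number of integers of one residue class in a real interval -/
theorem card_class {S : Finset ℤ} {q : ℕ} (hq : 0 < q) {x : ℤ} (hS : ∀ n ∈ S, (q : ℤ) ∣ n - x)
    {lo len : ℝ} (hlen : 0 ≤ len) (h : ∀ n ∈ S, lo ≤ (n : ℝ) ∧ (n : ℝ) ≤ lo + len) :
    (S.card : ℝ) ≤ len / q + 1 := by
  rcases S.eq_empty_or_nonempty with rfl | hne
  · simp; positivity
  have hq' : (0 : ℝ) < q := by exact_mod_cast hq
  have hqz : (0 : ℤ) < q := by exact_mod_cast hq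
  set a := S.min' hne with ha
  have haS : a ∈ S := S.min'_mem hne
  have hdvd : ∀ n ∈ S, (q : ℤ) ∣ n - a := by
    intro n hn
    have := dvd_sub (hS n hn) (hS a haS)
    rwa [show n - x - (a - x) = n - a by ring] at this
  have hle : ∀ n ∈ S, 0 ≤ n - a := fun n hn => by
    have := S.min'_le n hn
    omega
  have hcard : S.card ≤ (range (⌊len / q⌋₊ + 1)).card := by
    apply Finset.card_le_card_of_injOn (fun n => ((n - a) / q).toNat)
    · intro n hn
      have hn : n ∈ S := hn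
      obtain ⟨c, hc⟩ := hdvd n hn
      have h1 := hle n hn
      have hc0 : 0 ≤ c := by
        by_contra hcon
        push Not at hcon
        nlinarith
      rw [Finset.coe_range, Set.mem_Iio]
      have h2 : (n - a) / (q : ℤ) = c := by
        rw [hc]; exact Int.mul_ediv_cancel_left _ hqz.ne'
      simp only [h2]
      rw [Nat.lt_add_one_iff]
      apply Nat.le_floor
      rw [le_div_iff₀ hq']
      have h3 : ((c.toNat : ℤ) : ℝ) = (c : ℝ) := by
        rw [Int.toNat_of_nonneg hc0]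
      have h4 : ((c.toNat : ℕ) : ℝ) = (c : ℝ) := by exact_mod_cast h3
      rw [h4]
      have h5 : ((n : ℝ) - a) = q * c := by exact_mod_cast hc
      have h6 := (h n hn).2
      have h7 := (h a haS).1
      linarith
    · intro n hn n' hn' hnn
      have hn : n ∈ S := hn
      have hn' : n' ∈ S := hn'
      obtain ⟨c, hc⟩ := hdvd n hn
      obtain ⟨c', hc'⟩ := hdvd n' hn'
      have e1 : (n - a) / (q : ℤ) = c := by
        rw [hc]; exact Int.mul_ediv_cancel_left _ hqz.ne'
      have e2 : (n' - a) / (q : ℤ) = c' := by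
        rw [hc']; exact Int.mul_ediv_cancel_left _ hqz.ne'
      have h1 := Int.ediv_nonneg (hle n hn) hqz.le
      have h1' := Int.ediv_nonneg (hle n' hn') hqz.le
      have h2 : (n - a) / (q : ℤ) = (n' - a) / (q : ℤ) := by
        have : ((((n - a) / (q : ℤ)).toNat : ℕ) : ℤ) = ((((n' - a) / (q : ℤ)).toNat : ℕ) : ℤ) := by
          exact_mod_cast hnn
        rwa [Int.toNat_of_nonneg h1, Int.toNat_of_nonneg h1'] at this
      rw [e1, e2] at h2
      subst h2
      linarith
  rw [Finset.card_range] at hcard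
  calc (S.card : ℝ) ≤ ((⌊len / q⌋₊ + 1 : ℕ) : ℝ) := by exact_mod_cast hcard
    _ = (⌊len / q⌋₊ : ℝ) + 1 := by push_cast; ring
    _ ≤ len / q + 1 := by
        have := Nat.floor_le (show 0 ≤ len / q by positivity)
        linarith

theorem samp {k s A : ℕ} {T : ℝ} (hT : 0 ≤ T) {C : Finset (List ℕ)} (hk : ∀ w ∈ C, w.length = k)
    (hs : ∀ w ∈ C, w.sum = A) (h1 : ∀ w ∈ C, ∀ j ∈ w, 1 ≤ j)
    (hF : ∀ w ∈ C, (F w : ℝ) ≤ T * 2 ^ A) (h3 : (3 : ℝ) ^ (k + s) ≤ 2 ^ A) {f : ℤ → ℝ}
    (h0 : ∀ x, 0 ≤ f x) (hf : Per s f) (m : ℤ) : Sm C (fun _ x => f x) m ≤ (T + 1) * Av s f := by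
  classical
  set C' := C.filter (fun w => adm m w) with hC'
  have hmem : ∀ w ∈ C', w ∈ C ∧ adm m w := fun w hw => Finset.mem_filter.mp hw
  have e1 : Sm C (fun _ x => f x) m = 3 ^ k / 2 ^ A * ∑ w ∈ C', f (nd m w) := by
    unfold Sm
    rw [← Finset.sum_filter, ← hC', Finset.mul_sum]
    apply Finset.sum_congr rfl
    intro w hw
    obtain ⟨hw1, hw2⟩ := hmem w hw
    unfold wt
    rw [hk w hw1, hs w hw1]
  have h3s : (0 : ℤ) < 3 ^ s := by positivity
  have hmaps : ∀ w ∈ C', (nd m w % 3 ^ s).toNat ∈ range (3 ^ s) := by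
    intro w _
    rw [Finset.mem_range]
    have g1 := Int.emod_nonneg (nd m w) h3s.ne'
    have g2 := Int.emod_lt_of_pos (nd m w) h3s
    zify
    rw [Int.toNat_of_nonneg g1]
    exact g2
  have e2 : ∑ w ∈ C', f (nd m w) = ∑ x ∈ range (3 ^ s),
      ∑ w ∈ C'.filter (fun w => (nd m w % 3 ^ s).toNat = x), f (nd m w) :=
    (Finset.sum_fiberwise_of_maps_to hmaps _).symm
  have hcount : ∀ x ∈ range (3 ^ s),
      ((C'.filter (fun w => (nd m w % 3 ^ s).toNat = x)).card : ℝ) ≤
        (T * 2 ^ A / 3 ^ k) / 3 ^ s + 1 := by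
    intro x hx
    set D := C'.filter (fun w => (nd m w % 3 ^ s).toNat = x) with hD
    have hDm : ∀ w ∈ D, (w ∈ C ∧ adm m w) ∧ (nd m w % 3 ^ s).toNat = x := by
      intro w hw
      have := Finset.mem_filter.mp hw
      exact ⟨hmem w this.1, this.2⟩
    have hinj : Set.InjOn (fun w => nd m w) (D : Set (List ℕ)) := by
      intro w hw w' hw' hww
      obtain ⟨⟨g1, g2⟩, -⟩ := hDm w (by simpa using hw)
      obtain ⟨⟨g1', g2'⟩, -⟩ := hDm w' (by simpa using hw')
      have a1 := nd_mul g2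
      have a2 := nd_mul g2'
      have a3 : nd m w = nd m w' := hww
      rw [hk w g1, hs w g1, a3] at a1
      rw [hk w' g1', hs w' g1'] at a2
      apply F_inj (h1 w g1) (h1 w' g1') (by rw [hk w g1, hk w' g1']) (by rw [hs w g1, hs w' g1'])
      have : (F w : ℤ) = (F w' : ℤ) := by linarith
      exact_mod_cast this
    have hcc : (D.image (fun w => nd m w)).card = D.card := Finset.card_image_of_injOn hinj
    rw [← hcc]
    have h3k : (0 : ℝ) < 3 ^ k := by positivity
    have key := card_class (S := D.image (fun w => nd m w)) (q := 3 ^ s) (by positivity)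
      (x := (x : ℤ)) (lo := (2 ^ A * (m : ℝ) - T * 2 ^ A) / 3 ^ k) (len := T * 2 ^ A / 3 ^ k)
      (by
        intro n hn
        obtain ⟨w, hw, rfl⟩ := Finset.mem_image.mp hn
        obtain ⟨-, g3⟩ := hDm w hw
        have g1 := Int.emod_nonneg (nd m w) h3s.ne'
        have g4 : nd m w % 3 ^ s = (x : ℤ) := by
          rw [← g3, Int.toNat_of_nonneg g1]
        push_cast
        rw [← g4]
        exact Int.dvd_self_sub_emod)
      (by positivity)
      (by
        intro n hn
        obtain ⟨w, hw, rfl⟩ := Finset.mem_image.mp hn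
        obtain ⟨⟨g1, g2⟩, -⟩ := hDm w hw
        have a1 := nd_mul g2
        rw [hk w g1, hs w g1] at a1
        have a2 : (3 : ℝ) ^ k * (nd m w : ℝ) = 2 ^ A * (m : ℝ) - (F w : ℝ) := by exact_mod_cast a1
        have a3 := hF w g1
        have a4 : (0 : ℝ) ≤ F w := by positivity
        constructor
        · rw [div_le_iff₀ h3k]
          linarith
        · rw [← add_div, le_div_iff₀ h3k]
          linarith)
    push_cast at key
    exact key
  have e3 : ∀ x ∈ range (3 ^ s), ∑ w ∈ C'.filter (fun w => (nd m w % 3 ^ s).toNat = x), f (nd m w) ≤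
      ((T * 2 ^ A / 3 ^ k) / 3 ^ s + 1) * f x := by
    intro x hx
    have g0 : ∀ w ∈ C'.filter (fun w => (nd m w % 3 ^ s).toNat = x), f (nd m w) = f x := by
      intro w hw
      have g3 := (Finset.mem_filter.mp hw).2
      have g1 := Int.emod_nonneg (nd m w) h3s.ne'
      have g4 : nd m w % 3 ^ s = (x : ℤ) := by
        rw [← g3, Int.toNat_of_nonneg g1]
      have g5 := Int.emod_add_mul_ediv (nd m w) (3 ^ s)
      rw [g4] at g5
      rw [← g5]
      exact hf _ _
    rw [Finset.sum_congr rfl g0, Finset.sum_const, nsmul_eq_mul]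
    exact mul_le_mul_of_nonneg_right (hcount x hx) (h0 _)
  rw [e1, e2]
  have hAv : ∑ x ∈ range (3 ^ s), f x = 3 ^ s * Av s f := by
    unfold Av
    field_simp
  have hAv0 : 0 ≤ Av s f := Av_nonneg h0
  calc 3 ^ k / 2 ^ A * ∑ x ∈ range (3 ^ s),
      ∑ w ∈ C'.filter (fun w => (nd m w % 3 ^ s).toNat = x), f (nd m w)
      ≤ 3 ^ k / 2 ^ A * ∑ x ∈ range (3 ^ s), ((T * 2 ^ A / 3 ^ k) / 3 ^ s + 1) * f x :=
        mul_le_mul_of_nonneg_left (Finset.sum_le_sum e3) (by positivity)
    _ = (T + 3 ^ (k + s) / 2 ^ A) * Av s f := by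
        rw [← Finset.mul_sum, hAv, pow_add]
        field_simp
    _ ≤ (T + 1) * Av s f := by
        apply mul_le_mul_of_nonneg_right _ hAv0
        have : (3 : ℝ) ^ (k + s) / 2 ^ A ≤ 1 := by
          rw [div_le_one (by positivity)]; exact h3
        linarith

end Pool.Agent.Lib.MP_e43fce_kd
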