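import Pool.Agent.Lib.MP_e43fce_kd.Defs
import Pool.Agent.Lib.MP_e43fce_kd.D01
import Pool.Agent.Lib.MP_e43fce_kd.D03

/-!
Sampling over the prefixes: split PP g n0 k according to w.sum (≤ 2.01 II ≤ 3 II), samp with T = 10001 for each value.
-/

set_option autoImplicit false

open Finset

namespace Pool.Agent.Lib.MP_e43fce_kd

theorem PP_samp {g n0 k s : ℕ} (hg : 100 ≤ g) (hn : 100 ≤ n0)
    (h3 : ∀ A, 199 * II n0 k ≤ 100 * A → (3 : ℝ) ^ (II n0 k + s) ≤ 2 ^ A) {f : ℕ → ℤ → ℝ}
    (h0 : ∀ A x, 0 ≤ f A x) (hf : ∀ A, Per s (f A)) {θ : ℝ} (hθ : ∀ A, Av s (f A) ≤ θ) (m : ℤ) :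
    Sm (PP g n0 k) (fun w x => f w.sum x) m ≤ 10002 * (3 * II n0 k + 1) * θ := by
  classical
  have hθ0 : 0 ≤ θ := (Av_nonneg (h0 0)).trans (hθ 0)
  have hmaps : ∀ w ∈ PP g n0 k, w.sum ∈ range (3 * II n0 k + 1) := by
    intro w hw
    rw [Finset.mem_range]
    have := (PP_window' hg hw).2
    omega
  have e1 : Sm (PP g n0 k) (fun w x => f w.sum x) m = ∑ A ∈ range (3 * II n0 k + 1),
      Sm ((PP g n0 k).filter (fun w => w.sum = A)) (fun _ x => f A x) m := by
    unfold Sm
    rw [← Finset.sum_fiberwise_of_maps_to hmaps]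
    apply Finset.sum_congr rfl
    intro A _
    apply Finset.sum_congr rfl
    intro w hw
    simp only [(Finset.mem_filter.mp hw).2]
  rw [e1]
  have e2 : ∀ A ∈ range (3 * II n0 k + 1),
      Sm ((PP g n0 k).filter (fun w => w.sum = A)) (fun _ x => f A x) m ≤ 10002 * θ := by
    intro A _
    rcases ((PP g n0 k).filter (fun w => w.sum = A)).eq_empty_or_nonempty with hemp | ⟨w0, hw0⟩
    · rw [hemp]
      simp only [Sm, Finset.sum_empty]
      positivity
    · have hA : 199 * II n0 k ≤ 100 * A := by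
        obtain ⟨g1, g2⟩ := Finset.mem_filter.mp hw0
        have := (PP_window' hg g1).1
        rwa [g2] at this
      have key := samp (k := II n0 k) (s := s) (A := A) (T := 10001) (by norm_num)
        (C := (PP g n0 k).filter (fun w => w.sum = A))
        (fun w hw => PP_length (Finset.mem_filter.mp hw).1)
        (fun w hw => (Finset.mem_filter.mp hw).2)
        (fun w hw j hj => (PP_letters (Finset.mem_filter.mp hw).1 j hj).1)
        (fun w hw => by
          have := PP_F hg hn (Finset.mem_filter.mp hw).1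
          rwa [(Finset.mem_filter.mp hw).2] at this)
        (h3 A hA) (f := f A) (h0 A) (hf A) m
      calc _ ≤ (10001 + 1) * Av s (f A) := key
        _ ≤ 10002 * θ := by
          have := hθ A
          linarith
  refine (Finset.sum_le_sum e2).trans ?_
  rw [Finset.sum_const, Finset.card_range, nsmul_eq_mul]
  push_cast
  apply le_of_eq
  ring

end Pool.Agent.Lib.MP_e43fce_kd
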