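import Pool.Agent.Lib.MP_e43fce_kd.Defs
import Pool.Agent.Lib.MP_e43fce_kd.C07
import Pool.Agent.Lib.MP_e43fce_kd.D02
import Pool.Agent.Lib.MP_e43fce_kd.D03
import Pool.Agent.Lib.MP_e43fce_kd.D04

/-!
Av_ERR: INC (i = ll n0 (k+1), J, τ) gives the bound for all words q ∈ W L i instead of the good ones (Sm_W_add, tauI_shift not needed); the difference is
≤ Sm (W L i \ QQ) (Sm 1 + 1), Av ≤ 2 * (mass of the bad words) ≤ 2 (2κ^l + 11/√(1.1^I)), l = I/50+1 ≥ I/50: everything ≤ C/I^D.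
Av_HH: Av_ERR with τ = 1, J = ll (k+2), L = 3 ll (k+2) ≥ 3 ll (k+1); |Sm (QQ (k+2)) 1 - 1 - (Sm (W L J) 1 - tauI)| ≤ Sm (W L J \ QQ) 1 + J/2^L (tauI_one, Bernoulli).
-/

set_option autoImplicit false

open Finset

namespace Pool.Agent.Lib.MP_e43fce_kd

/-- exponential decay beats powers -/
theorem pow_decay (D : ℕ) {κ : ℝ} (h0 : 0 < κ) (h1 : κ < 1) :
    ∃ M : ℝ, 0 < M ∧ ∀ n : ℕ, (n : ℝ) ^ D * κ ^ n ≤ M := by
  have ht := tendsto_pow_const_mul_const_pow_of_abs_lt_one D (r := κ) (by rwa [abs_of_pos h0])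
  obtain ⟨M, hM⟩ := ht.bddAbove_range
  refine ⟨max M 1, lt_max_of_lt_right one_pos, fun n => ?_⟩
  exact (hM ⟨n, rfl⟩).trans (le_max_left _ _)

theorem pow_decay' (D : ℕ) {κ : ℝ} (h0 : 0 < κ) (h1 : κ < 1) :
    ∃ M : ℝ, 0 < M ∧ ∀ I l : ℕ, 1 ≤ I → I ≤ 50 * l → κ ^ l ≤ M / (I : ℝ) ^ D := by
  obtain ⟨M, hM, h⟩ := pow_decay D h0 h1
  refine ⟨50 ^ D * M, by positivity, ?_⟩
  intro I l hI hl
  have hI0 : (0 : ℝ) < I := by exact_mod_cast hI
  rw [le_div_iff₀ (by positivity)]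
  have h2 : (I : ℝ) ^ D ≤ 50 ^ D * (l : ℝ) ^ D := by
    rw [← mul_pow]
    apply pow_le_pow_left₀ hI0.le
    exact_mod_cast hl
  calc κ ^ l * (I : ℝ) ^ D ≤ κ ^ l * (50 ^ D * (l : ℝ) ^ D) :=
        mul_le_mul_of_nonneg_left h2 (by positivity)
    _ = 50 ^ D * ((l : ℝ) ^ D * κ ^ l) := by ring
    _ ≤ 50 ^ D * M := mul_le_mul_of_nonneg_left (h l) (by positivity)

theorem inv_sqrt_TB (n0 k : ℕ) : 11 / Real.sqrt (TB n0 (k + 1)) ≤ 11 * (25 / 26) ^ II n0 k := by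
  have e : TB n0 (k + 1) = (11 / 10) ^ II n0 k := rfl
  rw [e]
  have h1 : (26 / 25 : ℝ) ^ II n0 k ≤ Real.sqrt ((11 / 10) ^ II n0 k) := by
    apply Real.le_sqrt_of_sq_le
    rw [← pow_mul, mul_comm, pow_mul]
    apply pow_le_pow_left₀ (by positivity)
    norm_num
  have h2 : (0 : ℝ) < (26 / 25) ^ II n0 k := by positivity
  calc 11 / Real.sqrt ((11 / 10) ^ II n0 k) ≤ 11 / (26 / 25) ^ II n0 k :=
        div_le_div_of_nonneg_left (by norm_num) h2 h1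
    _ = 11 * (25 / 26) ^ II n0 k := by
        rw [div_eq_mul_inv, ← inv_pow]
        norm_num

theorem TB_pos (n0 k : ℕ) : 0 < TB n0 k := by
  rcases k with _ | k
  · show (0 : ℝ) < 10000
    norm_num
  · show (0 : ℝ) < (11 / 10) ^ II n0 k
    positivity

theorem II_mono (n0 : ℕ) {k k' : ℕ} (h : k ≤ k') : II n0 k ≤ II n0 k' := by
  induction k', h using Nat.le_induction with
  | base => exact le_rfl
  | succ k' _ ih =>
    have := II_succ n0 k'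
    omega

theorem ll_mono (n0 k : ℕ) : ll n0 (k + 1) ≤ ll n0 (k + 2) := by
  show II n0 k / 50 + 1 ≤ II n0 (k + 1) / 50 + 1
  have := II_mono n0 (show k ≤ k + 1 by omega)
  omega

/-- mass of the bad words of block k+1 -/
theorem bad_block {g : ℕ} (hg : 100 ≤ g) (D : ℕ) : ∃ C : ℝ, 0 < C ∧ ∀ n0 : ℕ, 100 ≤ n0 →
    ∀ k k' L : ℕ, k' ≤ k →
    ∑ w ∈ W L (ll n0 (k + 1)) \ QQ g n0 (k + 1), pr w ≤ C / (II n0 k' : ℝ) ^ D := by
  obtain ⟨κ, h0, h1, h⟩ := bad_le hg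
  obtain ⟨M1, hM1, hd1⟩ := pow_decay' D h0 h1
  obtain ⟨M2, hM2, hd2⟩ := pow_decay' D (κ := 25 / 26) (by norm_num) (by norm_num)
  refine ⟨2 * M1 + 11 * M2, by positivity, ?_⟩
  intro n0 hn k k' L hk
  have hI : 1 ≤ II n0 k' := by
    have := II_pos hn k'
    omega
  have hII := II_mono n0 hk
  have e : ll n0 (k + 1) = II n0 k / 50 + 1 := rfl
  have a1 := h L (ll n0 (k + 1)) (TB n0 (k + 1)) (TB_pos n0 (k + 1))
  have a2 := inv_sqrt_TB n0 k
  have a3 := hd1 (II n0 k') (ll n0 (k + 1)) hI (by omega)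
  have a4 := hd2 (II n0 k') (II n0 k) hI (by omega)
  have a5 : ∑ w ∈ W L (ll n0 (k + 1)) \ QQ g n0 (k + 1), pr w ≤
      2 * κ ^ ll n0 (k + 1) + 11 / Real.sqrt (TB n0 (k + 1)) := a1
  calc _ ≤ 2 * κ ^ ll n0 (k + 1) + 11 / Real.sqrt (TB n0 (k + 1)) := a5
    _ ≤ 2 * (M1 / (II n0 k' : ℝ) ^ D) + 11 * (M2 / (II n0 k' : ℝ) ^ D) := by
        linarith
    _ = _ := by ring

theorem Sm_one_Per (C : Finset (List ℕ)) (k : ℕ) (hC : ∀ w ∈ C, w.length = k) :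
    Per k (Sm C (fun _ _ => (1 : ℝ))) := by
  have h := Per_Sm (C := C) (k := k) (s := 0) hC (f := fun _ _ => 1) (fun w _ => Per_const 0 1)
  rwa [add_zero] at h

theorem Av_Sm_one (C : Finset (List ℕ)) (k : ℕ) (hC : ∀ w ∈ C, w.length = k) :
    Av k (Sm C (fun _ _ => (1 : ℝ))) = ∑ w ∈ C, pr w := by
  have h := Av_Sm (C := C) (k := k) (s := 0) hC (f := fun _ _ => 1) (fun w _ => Per_const 0 1)
  rw [add_zero] at h
  rw [h]
  apply Finset.sum_congr rfl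
  intro w _
  rw [Av_const, mul_one]

theorem W_length {L n : ℕ} {w : List ℕ} (hw : w ∈ W L n) : w.length = n := (mem_W.mp hw).1

theorem Sm_congr {C : Finset (List ℕ)} {f f' : List ℕ → ℤ → ℝ} (h : ∀ w ∈ C, ∀ x, f w x = f' w x)
    (m : ℤ) : Sm C f m = Sm C f' m := by
  unfold Sm
  apply Finset.sum_congr rfl
  intro w hw
  rw [h w hw]

theorem Av_ERR {g : ℕ} (hg : 100 ≤ g) (D : ℕ) : ∃ C : ℝ, 0 < C ∧ ∀ n0 : ℕ, 100 ≤ n0 → ∀ k J L : ℕ,
    3 * ll n0 (k + 1) ≤ L → ∀ τ : ℕ → ℝ, (∀ A, 0 ≤ τ A) → (∀ A, τ A ≤ 1) →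
    Av (ll n0 (k + 1) + J) (fun x => |Sm (QQ g n0 (k + 1)) (fun q y =>
      Sm (W L J) (fun b _ => τ (q.sum + b.sum)) y - tauI L τ J q.sum) x|) ≤ C / (II n0 k : ℝ) ^ D := by
  obtain ⟨C1, hC1, hinc⟩ := INC D
  obtain ⟨C2, hC2, hbad⟩ := bad_block hg D
  refine ⟨50 ^ D * C1 + 2 * C2, by positivity, ?_⟩
  intro n0 hn k J L hL τ hτ0 hτ1
  have hI : 1 ≤ II n0 k := by
    have := II_pos hn k
    omega
  have hI0 : (0 : ℝ) < II n0 k := by exact_mod_cast hI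
  have hl : ll n0 (k + 1) = II n0 k / 50 + 1 := rfl
  set l := ll n0 (k + 1) with hldef
  have hl1 : 1 ≤ l := by omega
  have hQsub : QQ g n0 (k + 1) ⊆ W L l := Q_sub _ hL
  set Gf : List ℕ → ℤ → ℝ := fun q y =>
    Sm (W L J) (fun b _ => τ (q.sum + b.sum)) y - tauI L τ J q.sum with hGf
  have e1 : ∀ x, Sm (W L l) Gf x = Sm (W L (l + J)) (fun w _ => τ w.sum) x -
      Sm (W L l) (fun w _ => tauI L τ J w.sum) x := by
    intro x
    rw [Sm_W_add, ← Sm_sub]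
    apply Sm_congr
    intro q _ y
    simp only [hGf, List.sum_append]
  have e2 : ∀ x, |Sm (QQ g n0 (k + 1)) Gf x| ≤
      |Sm (W L (l + J)) (fun w _ => τ w.sum) x - Sm (W L l) (fun w _ => tauI L τ J w.sum) x| +
      Sm (W L l \ QQ g n0 (k + 1)) (fun _ y => Sm (W L J) (fun _ _ => 1) y + 1) x := by
    intro x
    have h1 := Sm_sdiff hQsub Gf x
    have h2 := abs_Sm_le (W L l \ QQ g n0 (k + 1)) Gf x
    have h3 : Sm (W L l \ QQ g n0 (k + 1)) (fun w x => |Gf w x|) x ≤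
        Sm (W L l \ QQ g n0 (k + 1)) (fun _ y => Sm (W L J) (fun _ _ => 1) y + 1) x := by
      apply Sm_mono
      intro q _ y
      have g1 : 0 ≤ Sm (W L J) (fun b _ => τ (q.sum + b.sum)) y :=
        Sm_nonneg (fun _ _ _ => hτ0 _) y
      have g2 : Sm (W L J) (fun b _ => τ (q.sum + b.sum)) y ≤ Sm (W L J) (fun _ _ => 1) y :=
        Sm_mono (fun _ _ _ => hτ1 _) y
      have g3 := tauI_nonneg (L := L) hτ0 J q.sum
      have g4 := tauI_le_one (L := L) hτ0 hτ1 J q.sum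
      rw [abs_le]
      simp only [hGf]
      constructor <;> linarith
    rw [← e1 x, h1]
    have h4 : Sm (QQ g n0 (k + 1)) Gf x = (Sm (QQ g n0 (k + 1)) Gf x +
        Sm (W L l \ QQ g n0 (k + 1)) Gf x) - Sm (W L l \ QQ g n0 (k + 1)) Gf x := by ring
    calc |Sm (QQ g n0 (k + 1)) Gf x| = |(Sm (QQ g n0 (k + 1)) Gf x +
        Sm (W L l \ QQ g n0 (k + 1)) Gf x) - Sm (W L l \ QQ g n0 (k + 1)) Gf x| := by rw [← h4]
      _ ≤ |Sm (QQ g n0 (k + 1)) Gf x + Sm (W L l \ QQ g n0 (k + 1)) Gf x| +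
          |Sm (W L l \ QQ g n0 (k + 1)) Gf x| := abs_sub _ _
      _ ≤ _ := by linarith
  have e3 : Av (l + J) (fun x => Sm (W L l \ QQ g n0 (k + 1))
      (fun _ y => Sm (W L J) (fun _ _ => 1) y + 1) x) ≤
      2 * ∑ w ∈ W L l \ QQ g n0 (k + 1), pr w := by
    have hlen : ∀ w ∈ W L l \ QQ g n0 (k + 1), w.length = l :=
      fun w hw => W_length (Finset.mem_sdiff.mp hw).1
    have hper1 : Per J (Sm (W L J) (fun _ _ => (1 : ℝ))) :=
      Sm_one_Per _ _ (fun w hw => W_length hw)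
    have h1 := Av_Sm (C := W L l \ QQ g n0 (k + 1)) (k := l) (s := J) hlen
      (f := fun _ y => Sm (W L J) (fun _ _ => 1) y + 1) (fun w _ => by
        intro x z
        show Sm (W L J) (fun _ _ => 1) (x + 3 ^ J * z) + 1 = Sm (W L J) (fun _ _ => 1) x + 1
        rw [hper1 x z])
    have h2 : Av (l + J) (fun x => Sm (W L l \ QQ g n0 (k + 1))
        (fun _ y => Sm (W L J) (fun _ _ => 1) y + 1) x) = ∑ w ∈ W L l \ QQ g n0 (k + 1),
        pr w * Av J (fun y => Sm (W L J) (fun _ _ => 1) y + 1) := h1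
    rw [h2, Finset.mul_sum]
    apply Finset.sum_le_sum
    intro w _
    rw [mul_comm 2 (pr w)]
    apply mul_le_mul_of_nonneg_left _ (pr_pos w).le
    have h3 : Av J (fun y => Sm (W L J) (fun _ _ => 1) y + 1) =
        Av J (Sm (W L J) (fun _ _ => (1 : ℝ))) + Av J (fun _ => 1) := Av_add J _ _
    rw [h3, Av_Sm_one _ _ (fun w hw => W_length hw), Av_const]
    have := sum_pr_le L J
    linarith
  have e4 := hinc L (by omega) τ hτ0 hτ1 l hl1 J
  have e5 : C1 / (l : ℝ) ^ D ≤ 50 ^ D * C1 / (II n0 k : ℝ) ^ D := by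
    have hl0 : (0 : ℝ) < l := by exact_mod_cast hl1
    rw [div_le_div_iff₀ (by positivity) (by positivity)]
    have h2 : (II n0 k : ℝ) ^ D ≤ 50 ^ D * (l : ℝ) ^ D := by
      rw [← mul_pow]
      apply pow_le_pow_left₀ hI0.le
      have : II n0 k ≤ 50 * l := by omega
      exact_mod_cast this
    calc C1 * (II n0 k : ℝ) ^ D ≤ C1 * (50 ^ D * (l : ℝ) ^ D) :=
          mul_le_mul_of_nonneg_left h2 hC1.le
      _ = _ := by ring
  have e6 := hbad n0 hn k k L le_rfl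
  calc Av (l + J) (fun x => |Sm (QQ g n0 (k + 1)) Gf x|)
      ≤ Av (l + J) (fun x => |Sm (W L (l + J)) (fun w _ => τ w.sum) x -
          Sm (W L l) (fun w _ => tauI L τ J w.sum) x| +
          Sm (W L l \ QQ g n0 (k + 1)) (fun _ y => Sm (W L J) (fun _ _ => 1) y + 1) x) :=
        Av_mono e2
    _ = Av (l + J) (fun x => |Sm (W L (l + J)) (fun w _ => τ w.sum) x -
          Sm (W L l) (fun w _ => tauI L τ J w.sum) x|) + Av (l + J) (fun x =>
          Sm (W L l \ QQ g n0 (k + 1)) (fun _ y => Sm (W L J) (fun _ _ => 1) y + 1) x) :=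
        Av_add _ _ _
    _ ≤ 50 ^ D * C1 / (II n0 k : ℝ) ^ D + 2 * (C2 / (II n0 k : ℝ) ^ D) := by linarith
    _ = _ := by ring

theorem Av_HH {g : ℕ} (hg : 100 ≤ g) (D : ℕ) : ∃ C : ℝ, 0 < C ∧ ∀ n0 : ℕ, 100 ≤ n0 → ∀ k : ℕ,
    Av (ll n0 (k + 1) + ll n0 (k + 2)) (fun x => |HH g n0 k x|) ≤ C / (II n0 k : ℝ) ^ D := by
  obtain ⟨C1, hC1, herr⟩ := Av_ERR hg D
  obtain ⟨C2, hC2, hbad⟩ := bad_block hg D
  obtain ⟨M, hM, hdec⟩ := pow_decay' D (κ := 1 / 2) (by norm_num) (by norm_num)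
  refine ⟨C1 + C2 + M, by positivity, ?_⟩
  intro n0 hn k
  have hI : 1 ≤ II n0 k := by
    have := II_pos hn k
    omega
  have hI0 : (0 : ℝ) < II n0 k := by exact_mod_cast hI
  set l := ll n0 (k + 1) with hldef
  set J := ll n0 (k + 2) with hJdef
  have hlJ : l ≤ J := ll_mono n0 k
  have hl : l = II n0 k / 50 + 1 := rfl
  set L := 3 * J with hL
  have hQsub2 : QQ g n0 (k + 2) ⊆ W L J := Q_sub _ le_rfl
  set δ : ℝ := 1 - (1 - (1 / 2) ^ L) ^ J with hδ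
  have hδ0 : 0 ≤ δ := by
    rw [hδ]
    have : (1 - (1 / 2 : ℝ) ^ L) ^ J ≤ 1 := by
      apply pow_le_one₀
      · have : (1 / 2 : ℝ) ^ L ≤ 1 := pow_le_one₀ (by norm_num) (by norm_num)
        linarith
      · have : (0 : ℝ) ≤ (1 / 2) ^ L := by positivity
        linarith
    linarith
  have hδ1 : δ ≤ (1 / 2) ^ J := by
    have hb := one_add_mul_le_pow (a := -((1 / 2 : ℝ) ^ L)) (by
      have : (1 / 2 : ℝ) ^ L ≤ 1 := pow_le_one₀ (by norm_num) (by norm_num)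
      linarith) J
    have h1 : (1 : ℝ) + -((1 / 2) ^ L) = 1 - (1 / 2) ^ L := by ring
    rw [h1] at hb
    have h2 : (J : ℝ) * (1 / 2) ^ L ≤ (1 / 2) ^ J := by
      rw [hL, show 3 * J = J + (J + J) by ring, pow_add, pow_add]
      have h3 : (J : ℝ) * (1 / 2) ^ J ≤ 1 := by
        have h4 : (J : ℝ) ≤ 2 ^ J := by exact_mod_cast (Nat.lt_two_pow_self).le
        rw [one_div, inv_pow, ← div_eq_mul_inv, div_le_one (by positivity)]
        exact h4
      have h5 : (1 / 2 : ℝ) ^ J ≤ 1 := pow_le_one₀ (by norm_num) (by norm_num)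
      have h6 : (0 : ℝ) ≤ (1 / 2) ^ J := by positivity
      calc (J : ℝ) * ((1 / 2) ^ J * ((1 / 2) ^ J * (1 / 2) ^ J))
          = ((J : ℝ) * (1 / 2) ^ J) * ((1 / 2) ^ J * (1 / 2) ^ J) := by ring
        _ ≤ 1 * ((1 / 2) ^ J * 1) := by
            apply mul_le_mul h3 _ (by positivity) (by norm_num)
            exact mul_le_mul_of_nonneg_left h5 h6
        _ = (1 / 2) ^ J := by ring
    rw [hδ]
    linarith
  -- decomposition
  have e1 : ∀ x, |HH g n0 k x| ≤ |Sm (QQ g n0 (k + 1)) (fun q y =>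
      Sm (W L J) (fun b _ => (fun _ => (1 : ℝ)) (q.sum + b.sum)) y -
        tauI L (fun _ => 1) J q.sum) x| +
      Sm (QQ g n0 (k + 1)) (fun _ y => Sm (W L J \ QQ g n0 (k + 2)) (fun _ _ => 1) y + δ) x := by
    intro x
    have h1 : HH g n0 k x = Sm (QQ g n0 (k + 1)) (fun q y =>
        Sm (W L J) (fun b _ => (fun _ => (1 : ℝ)) (q.sum + b.sum)) y -
          tauI L (fun _ => 1) J q.sum) x -
        Sm (QQ g n0 (k + 1)) (fun _ y => Sm (W L J \ QQ g n0 (k + 2)) (fun _ _ => 1) y + δ) x := by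
      rw [← Sm_sub]
      unfold HH
      apply Sm_congr
      intro q _ y
      simp only
      rw [tauI_one, Sm_sdiff hQsub2 (fun _ _ => 1) y, hδ]
      ring
    have h2 : 0 ≤ Sm (QQ g n0 (k + 1)) (fun _ y => Sm (W L J \ QQ g n0 (k + 2)) (fun _ _ => 1) y + δ) x := by
      apply Sm_nonneg
      intro q _ y
      have : 0 ≤ Sm (W L J \ QQ g n0 (k + 2)) (fun _ _ => (1 : ℝ)) y :=
        Sm_nonneg (fun _ _ _ => zero_le_one) y
      linarith
    rw [h1]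
    refine (abs_sub _ _).trans ?_
    rw [abs_of_nonneg h2]
  have e3 : Av (l + J) (fun x => Sm (QQ g n0 (k + 1))
      (fun _ y => Sm (W L J \ QQ g n0 (k + 2)) (fun _ _ => 1) y + δ) x) ≤
      ∑ w ∈ W L J \ QQ g n0 (k + 2), pr w + δ := by
    have hlen2 : ∀ w ∈ W L J \ QQ g n0 (k + 2), w.length = J :=
      fun w hw => W_length (Finset.mem_sdiff.mp hw).1
    have hper1 : Per J (Sm (W L J \ QQ g n0 (k + 2)) (fun _ _ => (1 : ℝ))) :=
      Sm_one_Per _ _ hlen2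
    have h1 := Av_Sm (C := QQ g n0 (k + 1)) (k := l) (s := J) (fun w hw => QQ_length hw)
      (f := fun _ y => Sm (W L J \ QQ g n0 (k + 2)) (fun _ _ => 1) y + δ) (fun w _ => by
        intro x z
        show Sm (W L J \ QQ g n0 (k + 2)) (fun _ _ => 1) (x + 3 ^ J * z) + δ =
          Sm (W L J \ QQ g n0 (k + 2)) (fun _ _ => 1) x + δ
        rw [hper1 x z])
    have h2 : Av (l + J) (fun x => Sm (QQ g n0 (k + 1))
        (fun _ y => Sm (W L J \ QQ g n0 (k + 2)) (fun _ _ => 1) y + δ) x) =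
        ∑ w ∈ QQ g n0 (k + 1),
        pr w * Av J (fun y => Sm (W L J \ QQ g n0 (k + 2)) (fun _ _ => 1) y + δ) := h1
    rw [h2]
    have h3 : Av J (fun y => Sm (W L J \ QQ g n0 (k + 2)) (fun _ _ => 1) y + δ) =
        Av J (Sm (W L J \ QQ g n0 (k + 2)) (fun _ _ => (1 : ℝ))) + Av J (fun _ => δ) :=
      Av_add J _ _
    rw [h3, Av_Sm_one _ _ hlen2, Av_const, ← Finset.sum_mul]
    have h4 : ∑ w ∈ QQ g n0 (k + 1), pr w ≤ 1 := by
      calc ∑ w ∈ QQ g n0 (k + 1), pr w ≤ ∑ w ∈ W (3 * l) l, pr w :=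
            Finset.sum_le_sum_of_subset_of_nonneg (Q_sub _ le_rfl) (fun w _ _ => (pr_pos w).le)
        _ ≤ 1 := sum_pr_le _ _
    have h5 : 0 ≤ ∑ w ∈ W L J \ QQ g n0 (k + 2), pr w + δ := by
      have : 0 ≤ ∑ w ∈ W L J \ QQ g n0 (k + 2), pr w := Finset.sum_nonneg fun w _ => (pr_pos w).le
      linarith
    calc _ ≤ 1 * (∑ w ∈ W L J \ QQ g n0 (k + 2), pr w + δ) := mul_le_mul_of_nonneg_right h4 h5
      _ = _ := one_mul _
  have e4 := herr n0 hn k J L (by omega) (fun _ => 1) (fun _ => zero_le_one) (fun _ => le_rfl)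
  have e5 := hbad n0 hn (k + 1) k L (Nat.le_succ k)
  have e6 := hdec (II n0 k) J hI (by omega)
  calc Av (l + J) (fun x => |HH g n0 k x|)
      ≤ Av (l + J) (fun x => |Sm (QQ g n0 (k + 1)) (fun q y =>
      Sm (W L J) (fun b _ => (fun _ => (1 : ℝ)) (q.sum + b.sum)) y -
        tauI L (fun _ => 1) J q.sum) x| +
      Sm (QQ g n0 (k + 1)) (fun _ y => Sm (W L J \ QQ g n0 (k + 2)) (fun _ _ => 1) y + δ) x) :=
        Av_mono e1
    _ = Av (l + J) (fun x => |Sm (QQ g n0 (k + 1)) (fun q y =>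
      Sm (W L J) (fun b _ => (fun _ => (1 : ℝ)) (q.sum + b.sum)) y -
        tauI L (fun _ => 1) J q.sum) x|) + Av (l + J) (fun x => Sm (QQ g n0 (k + 1))
      (fun _ y => Sm (W L J \ QQ g n0 (k + 2)) (fun _ _ => 1) y + δ) x) := Av_add _ _ _
    _ ≤ C1 / (II n0 k : ℝ) ^ D + (C2 / (II n0 k : ℝ) ^ D + M / (II n0 k : ℝ) ^ D) := by
        have e5' : ∑ w ∈ W L J \ QQ g n0 (k + 2), pr w ≤ C2 / (II n0 k : ℝ) ^ D := e5
        linarith
    _ = _ := by ring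

end Pool.Agent.Lib.MP_e43fce_kd
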