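import Pool.Agent.Lib.MP_e43fce_kd.Defs
import Pool.Agent.Lib.MP_e43fce_kd.D02
import Pool.Agent.Lib.MP_e43fce_kd.D04
import Pool.Agent.Lib.MP_e43fce_kd.D05
import Pool.Agent.Lib.MP_e43fce_kd.D06

/-!
Uniform lower bound of the mass. MM_step, PP_samp (f A = |HH|, three_pow_le), Av_HH with D = 3: |MM (k+2) - MM (k+1)| ≤ C'/I_k² , I_k ≥ n0 (51/50)^k: total ≤ 1/4 for n0 ≥ N0.
Av MM_1 = P(Q_0) P(Q_1) ≥ 3/4 (Q_mass, T_0 = 10^4: 11/100), exists_ge_Av, Per_MM.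
-/

set_option autoImplicit false

open Finset

namespace Pool.Agent.Lib.MP_e43fce_kd

theorem II_ge (n0 : ℕ) (k : ℕ) : n0 + k ≤ II n0 k := by
  induction k with
  | zero => exact le_rfl
  | succ k ih =>
    show n0 + (k + 1) ≤ II n0 k + (II n0 k / 50 + 1)
    omega

/-- the increments of the mass -/
theorem MM_incr {g : ℕ} (hg : 100 ≤ g) : ∃ C : ℝ, 0 < C ∧ ∀ n0 : ℕ, 100 ≤ n0 → ∀ (k : ℕ) (m : ℤ),
    |MM g n0 (k + 2) m - MM g n0 (k + 1) m| ≤ C / (II n0 k : ℝ) ^ 2 := by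
  obtain ⟨C, hC, h⟩ := Av_HH hg 3
  refine ⟨10002 * 4 * C, by positivity, ?_⟩
  intro n0 hn k m
  have hI : 1 ≤ II n0 k := by
    have := II_pos hn k
    omega
  have hI0 : (0 : ℝ) < II n0 k := by exact_mod_cast hI
  rw [MM_step]
  refine (abs_Sm_le _ _ m).trans ?_
  have hper := Per_HH g n0 k
  have key := PP_samp (g := g) (n0 := n0) (k := k) (s := ll n0 (k + 1) + ll n0 (k + 2)) hg hn
    (fun A hA => by
      have e : II n0 k + (ll n0 (k + 1) + ll n0 (k + 2)) = II n0 (k + 2) := by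
        rw [II_succ n0 (k + 1), II_succ n0 k]
        ring
      rw [e]
      exact three_pow_le hn hA)
    (f := fun _ x => |HH g n0 k x|) (fun _ _ => abs_nonneg _)
    (fun _ x z => by
      show |HH g n0 k (x + 3 ^ (ll n0 (k + 1) + ll n0 (k + 2)) * z)| = |HH g n0 k x|
      rw [hper x z]) (fun _ => h n0 hn k) m
  refine key.trans ?_
  have h1 : (3 * (II n0 k : ℝ) + 1) ≤ 4 * II n0 k := by
    have : (1 : ℝ) ≤ II n0 k := by exact_mod_cast hI
    linarith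
  calc 10002 * (3 * (II n0 k : ℝ) + 1) * (C / (II n0 k : ℝ) ^ 3)
      ≤ 10002 * (4 * (II n0 k : ℝ)) * (C / (II n0 k : ℝ) ^ 3) := by
        apply mul_le_mul_of_nonneg_right _ (by positivity)
        linarith
    _ = 10002 * 4 * C / (II n0 k : ℝ) ^ 2 := by
        field_simp

/-- telescoping bound -/
theorem MM_tail {g : ℕ} (hg : 100 ≤ g) : ∃ C : ℝ, 0 < C ∧ ∀ n0 : ℕ, 100 ≤ n0 → ∀ (k : ℕ) (m : ℤ),
    |MM g n0 (k + 1) m - MM g n0 1 m| ≤ C * (1 / ((n0 : ℝ) - 1) - 1 / ((n0 : ℝ) - 1 + k)) := by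
  obtain ⟨C, hC, h⟩ := MM_incr hg
  refine ⟨C, hC, ?_⟩
  intro n0 hn k m
  have hn' : (100 : ℝ) ≤ n0 := by exact_mod_cast hn
  induction k with
  | zero => simp
  | succ k ih =>
    have h1 := h n0 hn k m
    have hIk : (n0 : ℝ) + k ≤ II n0 k := by exact_mod_cast II_ge n0 k
    have hk0 : (0 : ℝ) ≤ k := Nat.cast_nonneg k
    have h2 : C / (II n0 k : ℝ) ^ 2 ≤ C * (1 / ((n0 : ℝ) - 1 + k) - 1 / ((n0 : ℝ) - 1 + (k + 1))) := by
      have h3 : 1 / ((n0 : ℝ) - 1 + k) - 1 / ((n0 : ℝ) - 1 + (k + 1)) =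
          1 / (((n0 : ℝ) - 1 + k) * ((n0 : ℝ) + k)) := by
        have a1 : (n0 : ℝ) - 1 + k ≠ 0 := by
          have : 0 < (n0 : ℝ) - 1 + k := by linarith
          exact this.ne'
        have a2 : (n0 : ℝ) + k ≠ 0 := by
          have : 0 < (n0 : ℝ) + k := by linarith
          exact this.ne'
        have a3 : (n0 : ℝ) - 1 + (k + 1) = n0 + k := by ring
        rw [a3]
        field_simp
        ring
      rw [h3, mul_one_div]
      apply div_le_div_of_nonneg_left hC.le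
      · apply mul_pos <;> linarith
      · nlinarith
    have e : MM g n0 (k + 1 + 1) m - MM g n0 1 m = (MM g n0 (k + 2) m - MM g n0 (k + 1) m) +
        (MM g n0 (k + 1) m - MM g n0 1 m) := by ring
    rw [e]
    refine (abs_add_le _ _).trans ?_
    push_cast
    have h4 : C * (1 / ((n0 : ℝ) - 1) - 1 / ((n0 : ℝ) - 1 + (k + 1))) =
        C * (1 / ((n0 : ℝ) - 1 + k) - 1 / ((n0 : ℝ) - 1 + (k + 1))) +
        C * (1 / ((n0 : ℝ) - 1) - 1 / ((n0 : ℝ) - 1 + k)) := by ring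
    rw [h4]
    linarith

theorem mass_lower {g : ℕ} (hg : 100 ≤ g) : ∃ N0 : ℕ, 100 ≤ N0 ∧ ∀ n0 : ℕ, N0 ≤ n0 → ∃ m0 : ℤ,
    ∀ m : ℤ, (3 : ℤ) ^ II n0 1 ∣ m - m0 → ∀ k : ℕ, 1 / 2 ≤ MM g n0 (k + 1) m := by
  obtain ⟨C, hC, htail⟩ := MM_tail hg
  obtain ⟨κ, h0, h1, hmass⟩ := Q_mass hg
  -- choose N0
  have hlim1 : Filter.Tendsto (fun n : ℕ => κ ^ n) Filter.atTop (nhds 0) :=
    tendsto_pow_atTop_nhds_zero_of_lt_one h0.le h1
  have hlim2 : Filter.Tendsto (fun n : ℕ => (25 / 26 : ℝ) ^ n) Filter.atTop (nhds 0) :=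
    tendsto_pow_atTop_nhds_zero_of_lt_one (by norm_num) (by norm_num)
  obtain ⟨n1, hn1⟩ := (hlim1.eventually (gt_mem_nhds (show (0 : ℝ) < 1 / 1000 by norm_num))).exists_forall_of_atTop
  obtain ⟨n2, hn2⟩ := (hlim2.eventually (gt_mem_nhds (show (0 : ℝ) < 1 / 1100 by norm_num))).exists_forall_of_atTop
  obtain ⟨n3, hn3⟩ := exists_nat_ge (4 * C + 1)
  refine ⟨max (max 100 (50 * n1)) (max n2 n3), le_max_of_le_left (le_max_left _ _), ?_⟩
  intro n0 hn0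
  have g1 : 100 ≤ n0 := le_trans (le_trans (le_max_left _ _) (le_max_left _ _)) hn0
  have g2 : 50 * n1 ≤ n0 := le_trans (le_trans (le_max_right _ _) (le_max_left _ _)) hn0
  have g3 : n2 ≤ n0 := le_trans (le_trans (le_max_left _ _) (le_max_right _ _)) hn0
  have g4 : n3 ≤ n0 := le_trans (le_trans (le_max_right _ _) (le_max_right _ _)) hn0
  have small : ∀ l : ℕ, (l : ℝ) / 2 ^ (3 * l) ≤ (1 / 4) ^ l := by
    intro l
    have h3 : (l : ℝ) ≤ 2 ^ l := by exact_mod_cast (Nat.lt_two_pow_self).le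
    rw [div_le_iff₀ (by positivity)]
    calc (l : ℝ) ≤ 2 ^ l := h3
      _ = (1 / 4) ^ l * 2 ^ (3 * l) := by
          rw [pow_mul, ← mul_pow]
          norm_num
  have q0 : 22 / 25 ≤ ∑ w ∈ QQ g n0 0, pr w := by
    have h2 := hmass n0 10000 (by norm_num)
    have h3 : Real.sqrt 10000 = 100 := by
      rw [show (10000 : ℝ) = 100 ^ 2 by norm_num]
      exact Real.sqrt_sq (by norm_num)
    rw [h3] at h2
    have h4 := small n0
    have h5 : (1 / 4 : ℝ) ^ n0 ≤ 1 / 1000 := by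
      calc (1 / 4 : ℝ) ^ n0 ≤ (1 / 4) ^ 100 := pow_le_pow_of_le_one (by norm_num) (by norm_num) g1
        _ ≤ 1 / 1000 := by norm_num
    have h8 : ∑ w ∈ Q g 10000 n0, pr w = ∑ w ∈ QQ g n0 0, pr w := rfl
    rw [h8] at h2
    have h9 := hn1 n0 (by omega)
    linarith
  have q1 : 24 / 25 ≤ ∑ w ∈ QQ g n0 1, pr w := by
    have h2 := hmass (ll n0 1) (TB n0 1) (TB_pos n0 1)
    have hl : ll n0 1 = n0 / 50 + 1 := rfl
    have h3 := inv_sqrt_TB n0 0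
    have hII : II n0 0 = n0 := rfl
    rw [hII] at h3
    have h4 := small (ll n0 1)
    have h5 : (1 / 4 : ℝ) ^ ll n0 1 ≤ 1 / 64 := by
      calc (1 / 4 : ℝ) ^ ll n0 1 ≤ (1 / 4) ^ 3 :=
            pow_le_pow_of_le_one (by norm_num) (by norm_num) (by omega)
        _ ≤ 1 / 64 := by norm_num
    have h9 := hn1 (ll n0 1) (by omega)
    have h10 := hn2 n0 g3
    have h8 : ∑ w ∈ Q g (TB n0 1) (ll n0 1), pr w = ∑ w ∈ QQ g n0 1, pr w := rfl
    rw [h8] at h2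
    linarith
  have hAv : 3 / 4 ≤ Av (II n0 1) (MM g n0 1) := by
    rw [Av_MM, sum_pr_PP]
    have e : ∑ w ∈ PP g n0 0, pr w = ∑ w ∈ QQ g n0 0, pr w := rfl
    rw [e]
    nlinarith
  obtain ⟨m0, hm0⟩ := exists_ge_Av (II n0 1) (MM g n0 1)
  refine ⟨m0, ?_⟩
  intro m hm k
  obtain ⟨z, hz⟩ := hm
  have e1 : MM g n0 1 m = MM g n0 1 m0 := by
    have := Per_MM g n0 1 m0 z
    rw [← this]
    congr 1
    linarith
  have h2 := htail n0 g1 k m
  have hn0' : (4 * C + 1 : ℝ) ≤ n0 := hn3.trans (by exact_mod_cast g4)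
  have h3 : C * (1 / ((n0 : ℝ) - 1) - 1 / ((n0 : ℝ) - 1 + k)) ≤ 1 / 4 := by
    have a1 : (0 : ℝ) < n0 - 1 := by linarith
    have a2 : (0 : ℝ) ≤ 1 / ((n0 : ℝ) - 1 + k) := by
      have : (0 : ℝ) ≤ k := Nat.cast_nonneg k
      apply div_nonneg zero_le_one
      linarith
    calc C * (1 / ((n0 : ℝ) - 1) - 1 / ((n0 : ℝ) - 1 + k)) ≤ C * (1 / ((n0 : ℝ) - 1)) := by
          apply mul_le_mul_of_nonneg_left _ hC.le
          linarith
      _ = C / (n0 - 1) := by ring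
      _ ≤ 1 / 4 := by
          rw [div_le_div_iff₀ a1 (by norm_num)]
          linarith
  have h4 := (abs_le.mp (h2.trans h3)).1
  linarith

end Pool.Agent.Lib.MP_e43fce_kd
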