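import Pool.Agent.Lib.MP_e43fce_kd.Defs
import Pool.Agent.Lib.MP_e43fce_kd.A03
import Pool.Agent.Lib.MP_e43fce_kd.A04
import Pool.Agent.Lib.MP_e43fce_kd.C07
import Pool.Agent.Lib.MP_e43fce_kd.D03
import Pool.Agent.Lib.MP_e43fce_kd.D05
import Pool.Agent.Lib.MP_e43fce_kd.D06

/-!
Replacement error: PP (k+1) = cat (PP k) (QQ (k+1)), Sm_cat, and PP_samp with f A x = |Sm (QQ (k+1)) (fun q y => Sm (W L J) 1[A + q.sum + b.sum = At] y - tauI L 1[· = At] J (A + q.sum)) x|,
s = ll (k+1) + J, J = K - II (k+1), condition three_pow_le', Av_ERR with τ = fun x => if A + x = At ... and tauI_shift; D+1 to absorb 3 II + 1.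
-/

set_option autoImplicit false

open Finset

namespace Pool.Agent.Lib.MP_e43fce_kd

theorem replace_err {g : ℕ} (hg : 100 ≤ g) (D : ℕ) : ∃ C : ℝ, 0 < C ∧ ∀ n0 : ℕ, 100 ≤ n0 →
    ∀ k K L : ℕ, II n0 (k + 1) ≤ K → 100 * K ≤ 114 * II n0 (k + 1) → 3 * II n0 (k + 1) ≤ L →
    ∀ (At : ℕ) (m : ℤ),
    |Sm (PP g n0 (k + 1)) (fun p y =>
        Sm (W L (K - II n0 (k + 1))) (fun b _ => if p.sum + b.sum = At then 1 else 0) y -
          tauI L (fun x => if x = At then 1 else 0) (K - II n0 (k + 1)) p.sum) m| ≤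
      C / (II n0 k : ℝ) ^ D := by
  obtain ⟨C, hC, h⟩ := Av_ERR hg (D + 1)
  refine ⟨10002 * 4 * C, by positivity, ?_⟩
  intro n0 hn k K L hK1 hK2 hL At m
  have hI : 1 ≤ II n0 k := by
    have := II_pos hn k
    omega
  have hI0 : (0 : ℝ) < II n0 k := by exact_mod_cast hI
  set J := K - II n0 (k + 1) with hJ
  have hsucc := II_succ n0 k
  set τ : ℕ → ℕ → ℝ := fun A x => if A + x = At then 1 else 0 with hτ
  set f : ℕ → ℤ → ℝ := fun A x => |Sm (QQ g n0 (k + 1)) (fun q y =>
    Sm (W L J) (fun b _ => τ A (q.sum + b.sum)) y - tauI L (τ A) J q.sum) x| with hf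
  have e1 : Sm (PP g n0 (k + 1)) (fun p y =>
        Sm (W L J) (fun b _ => if p.sum + b.sum = At then 1 else 0) y -
          tauI L (fun x => if x = At then 1 else 0) J p.sum) m =
      Sm (PP g n0 k) (fun u x => Sm (QQ g n0 (k + 1)) (fun q y =>
        Sm (W L J) (fun b _ => τ u.sum (q.sum + b.sum)) y - tauI L (τ u.sum) J q.sum) x) m := by
    rw [Sm_PP_succ]
    apply Sm_congr
    intro u _ x
    apply Sm_congr
    intro q _ y
    have e2 : tauI L (τ u.sum) J q.sum =
        tauI L (fun x => if x = At then 1 else 0) J (u ++ q).sum := by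
      rw [List.sum_append]
      exact tauI_shift L (fun x => if x = At then 1 else 0) u.sum J q.sum
    rw [e2]
    congr 1
    apply Sm_congr
    intro b _ _
    simp only [hτ, List.sum_append, add_assoc]
  rw [e1]
  refine (abs_Sm_le _ _ m).trans ?_
  have key := PP_samp (g := g) (n0 := n0) (k := k) (s := ll n0 (k + 1) + J) hg hn
    (fun A hA => by
      have e : II n0 k + (ll n0 (k + 1) + J) = K := by omega
      rw [e]
      exact three_pow_le' hn hA hK2)
    (f := f) (fun _ _ => abs_nonneg _)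
    (fun A x z => by
      have hper : Per (ll n0 (k + 1) + J) (Sm (QQ g n0 (k + 1)) (fun q y =>
          Sm (W L J) (fun b _ => τ A (q.sum + b.sum)) y - tauI L (τ A) J q.sum)) := by
        apply Per_Sm (fun w hw => QQ_length hw)
        intro q _ x z
        have h1 := Per_Sm (C := W L J) (k := J) (s := 0) (fun w hw => W_length hw)
          (f := fun b _ => τ A (q.sum + b.sum)) (fun b _ => Per_const 0 _)
        rw [add_zero] at h1
        show Sm (W L J) (fun b _ => τ A (q.sum + b.sum)) (x + 3 ^ J * z) - _ =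
          Sm (W L J) (fun b _ => τ A (q.sum + b.sum)) x - _
        rw [h1 x z]
      simp only [hf]
      rw [hper x z])
    (θ := C / (II n0 k : ℝ) ^ (D + 1))
    (fun A => h n0 hn k J L (by omega) (τ A)
      (fun x => by simp only [hτ]; split_ifs <;> norm_num)
      (fun x => by simp only [hτ]; split_ifs <;> norm_num)) m
  refine key.trans ?_
  have h1 : (3 * (II n0 k : ℝ) + 1) ≤ 4 * II n0 k := by
    have : (1 : ℝ) ≤ II n0 k := by exact_mod_cast hI
    linarith
  calc 10002 * (3 * (II n0 k : ℝ) + 1) * (C / (II n0 k : ℝ) ^ (D + 1))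
      ≤ 10002 * (4 * (II n0 k : ℝ)) * (C / (II n0 k : ℝ) ^ (D + 1)) := by
        apply mul_le_mul_of_nonneg_right _ (by positivity)
        linarith
    _ = 10002 * 4 * C / (II n0 k : ℝ) ^ D := by
        rw [pow_succ]
        field_simp

end Pool.Agent.Lib.MP_e43fce_kd
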