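import Pool.Agent.Lib.MP_e43fce_kd.Defs
import Pool.Agent.Lib.MP_e43fce_kd.A03
import Pool.Agent.Lib.MP_e43fce_nt.Steer2

/-!
Nodes and the Collatz map. One letter: `x = nd m [j]`, `3 x = 2^j m - 1`, so x ≥ 1 and x is odd (j ≥ 1), col x = 3 x + 1 = 2^j m, then j halvings.
-/

set_option autoImplicit false

open Finset

namespace Pool.Agent.Lib.MP_e43fce_kd

open Pool.Agent.Lib.MP_e43fce_nt.KL (col)

private lemma a05_halve (j m : ℕ) : col^[j] (2 ^ j * m) = m := by
  induction j with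
  | zero => simp
  | succ j ih =>
    rw [Function.iterate_succ_apply, pow_succ, mul_comm (2 ^ j) 2, mul_assoc,
      Pool.Agent.Lib.MP_e43fce_nt.KL.col_two_mul, ih]

private lemma a05_cons {m : ℤ} {j : ℕ} {w : List ℕ} (h : adm m (j :: w)) :
    adm m [j] ∧ adm (nd m [j]) w ∧ nd m (j :: w) = nd (nd m [j]) w := by
  have h1 : adm m ([j] ++ w) := h
  have h2 := adm_append.mp h1
  exact ⟨h2.1, h2.2, nd_append w h2.1⟩

private lemma a05_one {m : ℤ} {j : ℕ} (h : adm m [j]) : 3 * nd m [j] = 2 ^ j * m - 1 := by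
  have := nd_mul h
  simpa [F] using this

private lemma a05_one_pos {m : ℤ} (hm : 1 ≤ m) {j : ℕ} (hj : 1 ≤ j) (h : adm m [j]) :
    1 ≤ nd m [j] := by
  have h1 := a05_one h
  have h2 : (2 : ℤ) ≤ 2 ^ j * m := by
    have h3 : (2 : ℤ) ^ 1 ≤ 2 ^ j := pow_le_pow_right₀ (by norm_num) hj
    nlinarith
  omega

theorem nd_pos {m : ℤ} (hm : 1 ≤ m) {w : List ℕ} (hw : ∀ j ∈ w, 1 ≤ j) (h : adm m w) :
    1 ≤ nd m w := by
  induction w generalizing m with
  | nil => rw [nd_nil]; exact hm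
  | cons j w ih =>
    obtain ⟨h1, h2, h3⟩ := a05_cons h
    rw [h3]
    exact ih (a05_one_pos hm (hw j (by simp)) h1) (fun i hi => hw i (by simp [hi])) h2

theorem nd_odd {m : ℤ} {w : List ℕ} (hw : ∀ j ∈ w, 1 ≤ j) (hne : w ≠ []) (h : adm m w) :
    Odd (nd m w) := by
  have h1 := nd_mul h
  have h2 := F_odd hne hw
  have h3 : 1 ≤ w.sum := by
    cases w with
    | nil => exact absurd rfl hne
    | cons j w =>
      have := hw j (by simp)
      rw [List.sum_cons]
      omega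
  have h4 : Even ((2 : ℤ) ^ w.sum * m) := by
    apply Even.mul_right
    rw [Int.even_pow]
    exact ⟨by decide, by omega⟩
  have h5 : Odd ((3 : ℤ) ^ w.length * nd m w) := by
    rw [h1]
    have h6 : Odd (F w : ℤ) := by exact_mod_cast h2
    exact h4.sub_odd h6
  exact (Int.odd_mul.mp h5).2

theorem col_nd {m : ℕ} (hm : 1 ≤ m) {w : List ℕ} (hw : ∀ j ∈ w, 1 ≤ j) (h : adm (m : ℤ) w) :
    col^[w.length + w.sum] (nd (m : ℤ) w).toNat = m := by
  induction w generalizing m with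
  | nil => rw [nd_nil]; simp
  | cons j w ih =>
    obtain ⟨h1, h2, h3⟩ := a05_cons h
    have hj : 1 ≤ j := hw j (by simp)
    have hp := a05_one_pos (by exact_mod_cast hm) hj h1
    obtain ⟨x, hx⟩ : ∃ x : ℕ, (x : ℤ) = nd (m : ℤ) [j] :=
      ⟨(nd (m : ℤ) [j]).toNat, Int.toNat_of_nonneg (by omega)⟩
    have hx1 : 1 ≤ x := by
      rw [← hx] at hp
      exact_mod_cast hp
    rw [h3, ← hx]
    rw [← hx] at h2
    have hi := ih hx1 (fun i hi => hw i (by simp [hi])) h2
    have e : (j :: w).length + (j :: w).sum = (j + 1) + (w.length + w.sum) := by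
      rw [List.length_cons, List.sum_cons]; ring
    rw [e, Function.iterate_add_apply, hi]
    have h4 := a05_one h1
    rw [← hx] at h4
    obtain ⟨i, rfl⟩ : ∃ i, j = i + 1 := ⟨j - 1, by omega⟩
    have h5 : 3 * x + 1 = 2 * (2 ^ i * m) := by
      have : (3 : ℤ) * x + 1 = 2 * (2 ^ i * m) := by
        rw [h4, pow_succ]; ring
      exact_mod_cast this
    rw [Function.iterate_succ_apply, Pool.Agent.Lib.MP_e43fce_nt.KL.col_odd h5, ← mul_assoc,
      mul_comm 2, ← pow_succ, a05_halve]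

end Pool.Agent.Lib.MP_e43fce_kd
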