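import Mathlib

/-!
# Uniform positive predecessor density for the Collatz map: definitions

See `/team-store/KL2_POSITIVE_DENSITY.md`.
-/

set_option autoImplicit false

open Finset

namespace Pool.Agent.Lib.MP_e43fce_kd

/-! ## Words -/

/-- affine constant of a word -/
def F : List ℕ → ℕ
  | [] => 0
  | _ :: w => 2 ^ w.sum + 3 * F w

/-- words of length `n` with letters in `[1, L]` -/
def W (L : ℕ) : ℕ → Finset (List ℕ)
  | 0 => {[]}
  | n + 1 => (Icc 1 L ×ˢ W L n).image (fun p : ℕ × List ℕ => p.1 :: p.2)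

/-- the word `w` is admissible at `m` -/
def adm (m : ℤ) (w : List ℕ) : Prop := (3 : ℤ) ^ w.length ∣ 2 ^ w.sum * m - F w

instance (m : ℤ) (w : List ℕ) : Decidable (adm m w) := by unfold adm; infer_instance

/-- the node of `w` above `m` -/
def nd (m : ℤ) (w : List ℕ) : ℤ := (2 ^ w.sum * m - F w) / 3 ^ w.length

/-- weight of a word -/
noncomputable def wt (w : List ℕ) : ℝ := 3 ^ w.length / 2 ^ w.sum

/-- probability of a word -/
noncomputable def pr (w : List ℕ) : ℝ := 1 / 2 ^ w.sum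

/-- `f` has period `3 ^ s` -/
def Per {β : Type} (s : ℕ) (f : ℤ → β) : Prop := ∀ x z : ℤ, f (x + 3 ^ s * z) = f x

/-- average over the residues modulo `3 ^ s` -/
noncomputable def Av (s : ℕ) (f : ℤ → ℝ) : ℝ := (∑ x ∈ range (3 ^ s), f x) / 3 ^ s

/-- weighted sum of `f` over the words of `C` admissible at `m` -/
noncomputable def Sm (C : Finset (List ℕ)) (f : List ℕ → ℤ → ℝ) (m : ℤ) : ℝ :=
  ∑ w ∈ C, if adm m w then wt w * f w (nd m w) else 0

/-- the same with complex values -/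
noncomputable def SmC (C : Finset (List ℕ)) (f : List ℕ → ℤ → ℂ) (m : ℤ) : ℂ :=
  ∑ w ∈ C, if adm m w then (wt w : ℂ) * f w (nd m w) else 0

/-- all concatenations of a word of `C` and a word of `D` -/
def cat (C D : Finset (List ℕ)) : Finset (List ℕ) :=
  (C ×ˢ D).image (fun p : List ℕ × List ℕ => p.1 ++ p.2)

/-- `exp (2 π i t)` -/
noncomputable def ee (t : ℝ) : ℂ := Complex.exp (2 * Real.pi * t * Complex.I)

/-- the backward iterates of a function of the total exponent: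
`tauI L τ (j+1) A = ∑_{1 ≤ b ≤ L} 2^(-b) tauI L τ j (A + b)` -/
noncomputable def tauI (L : ℕ) (τ : ℕ → ℝ) : ℕ → ℕ → ℝ
  | 0, A => τ A
  | j + 1, A => ∑ b ∈ Icc 1 L, tauI L τ j (A + b) / 2 ^ b

/-! ## The chain of pair sums -/

/-- distribution of the sum of two geometric variables -/
noncomputable def P2 (b : ℕ) : ℝ := ((b - 1 : ℕ) : ℝ) / 2 ^ b

/-- black points -/
def Blk (u0 : ℤ) (r j l : ℕ) : Prop :=
  ∃ u : ℤ, 100 * |u| < 3 ^ (r - 2 * j) ∧ (3 : ℤ) ^ (r - 2 * j) ∣ 2 ^ l * u - u0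

/-- the gain -/
noncomputable def c0 : ℝ := 1 - Real.cos (Real.pi / 100)

open Classical in
/-- factor of a step -/
noncomputable def kap (u0 : ℤ) (r j l b : ℕ) : ℝ := if b = 3 ∧ ¬ Blk u0 r j l then 1 - c0 else 1

/-- expected product of the factors along `n` steps starting at the lattice point `(j, l)` -/
noncomputable def G (B : ℕ) (u0 : ℤ) (r : ℕ) : ℕ → ℕ → ℕ → ℝ
  | 0, _, _ => 1
  | n + 1, j, l => ∑ b ∈ Icc 2 B, P2 b * kap u0 r j l b * G B u0 r n (j + 1) (l + b)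

/-- all points of depth at least `h` have small `G` -/
def SS (h : ℕ) (q : ℝ) : Prop :=
  ∀ B : ℕ, 4 ≤ B → ∀ (u0 : ℤ) (r n d : ℕ) (c : ℤ), u0 = 2 ^ d * c → Odd c → ¬ (3 : ℤ) ∣ u0 →
    100 * |u0| < 3 ^ r → h ≤ d → 3 * d ≤ 10 * n → 2 * n + 1 ≤ r → G B u0 r n 0 0 ≤ q

/-- distribution of the sum of `i` pair sums -/
noncomputable def pc : ℕ → ℕ → ℝ
  | 0, x => if x = 0 then 1 else 0
  | i + 1, x => ∑ y ∈ range (x + 1), pc i y * P2 (x - y)

/-- tail of a pair sum -/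
noncomputable def TT (y : ℕ) : ℝ := ((y : ℝ) + 1) / 2 ^ y

/-- probability that the first passage of `d` happens at step `e + 1` -/
noncomputable def PE (d e : ℕ) : ℝ := ∑ x ∈ range (d + 1), pc e x * TT (d - x)

/-- exponents of the moduli of deep black points behind a crossing -/
def DD (c : ℤ) (ρ R s : ℕ) : Prop :=
  100 * |c| < 9 * 3 ^ s ∧
    ∃ (K : ℕ) (v : ℤ), 1 ≤ K ∧ K ≤ R ∧ 100 * 2 ^ ρ * |v| < 3 ^ s ∧ (3 : ℤ) ^ s ∣ 2 ^ (K + ρ) * v - c

/-- no deep black point in the window behind a crossing at step `e` -/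
def Good (u0 : ℤ) (r d ρ R t e : ℕ) : Prop :=
  ∀ i ≤ 2 * t + 1, ∀ K : ℕ, 1 ≤ K → K ≤ R → ∀ v : ℤ, 100 * (2 ^ ρ * |v|) < 3 ^ (r - 2 * (e + i)) →
    ¬ (3 : ℤ) ^ (r - 2 * (e + i)) ∣ 2 ^ (d + K) * (2 ^ ρ * v) - u0

/-! ## Blocks of good words (`g ≥ 100` is the inverse width of the window) -/

open Classical in
/-- good words of length `l` -/
noncomputable def Q (g : ℕ) (T : ℝ) (l : ℕ) : Finset (List ℕ) :=
  (W (3 * l) l).filter
    (fun w => (2 * g - 1) * l ≤ g * w.sum ∧ g * w.sum ≤ (2 * g + 1) * l ∧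
      (F w : ℝ) ≤ T * 2 ^ w.sum)

/-- length of the prefix up to block `k` -/
def II (n0 : ℕ) : ℕ → ℕ
  | 0 => n0
  | k + 1 => II n0 k + (II n0 k / 50 + 1)

/-- length of block `k` -/
def ll (n0 : ℕ) : ℕ → ℕ
  | 0 => n0
  | k + 1 => II n0 k / 50 + 1

/-- height bound of block `k` -/
noncomputable def TB (n0 : ℕ) : ℕ → ℝ
  | 0 => 10000
  | k + 1 => (11 / 10) ^ II n0 k

/-- good words of block `k` -/
noncomputable def QQ (g n0 k : ℕ) : Finset (List ℕ) := Q g (TB n0 k) (ll n0 k)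

/-- good prefixes up to block `k` -/
noncomputable def PP (g n0 : ℕ) : ℕ → Finset (List ℕ)
  | 0 => QQ g n0 0
  | k + 1 => cat (PP g n0 k) (QQ g n0 (k + 1))

/-- mass of the good prefixes at `m` -/
noncomputable def MM (g n0 k : ℕ) (m : ℤ) : ℝ := Sm (PP g n0 k) (fun _ _ => 1) m

/-- change of the mass in one block, seen from the node of the prefix before the previous block -/
noncomputable def HH (g n0 k : ℕ) (x : ℤ) : ℝ :=
  Sm (QQ g n0 (k + 1)) (fun _ y => Sm (QQ g n0 (k + 2)) (fun _ _ => 1) y - 1) x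

/-- largest `A` with `2 ^ A * m ≤ X * 3 ^ K` -/
def AX (X m K : ℕ) : ℕ := Nat.log 2 (X * 3 ^ K / m)

/-- the lengths `K` used in the count: `I ≤ K ≤ 1.14 I` and `|A_X(K) - 2 K| ≤ 2 K / g` -/
def KK (g X m I : ℕ) : Finset ℕ :=
  (Icc I (I + 14 * I / 100)).filter
    (fun K => (2 * g - 2) * K ≤ g * AX X m K ∧ g * AX X m K ≤ (2 * g + 2) * K)

end Pool.Agent.Lib.MP_e43fce_kd
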