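import Pool.Agent.Lib.MP_e43fce_kd.Defs
import Pool.Agent.Lib.MP_e43fce_nt_nat.WB2

/-!
Lower bound of the local probability: tauI L 1[· = A+α] j A = #{w ∈ W L j : sum = α}/2^α = C(α-1, j-1)/2^α for L ≥ α, and for |α - 2j| ≤ √j this is ≥ c1/√j
(central binomial ≥ 4^m/(2√m); moving ≤ √j + 2 steps away from the centre multiplies by ratios ≥ 1 - 3/√j each).
-/

set_option autoImplicit false

open Finset

namespace Pool.Agent.Lib.MP_e43fce_kd

open Pool.Agent.Lib.MP_e43fce_nt_nat (rho WB2_rho_succ)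

theorem E01_tauI_rho {L T : ℕ} : ∀ (j A : ℕ), T ≤ A + L →
    tauI L (fun x => if x = T then 1 else 0) j A = if A ≤ T then rho j (T - A) else 0
  | 0, A, _ => by
    unfold tauI rho
    by_cases h : A = T
    · subst h; simp
    · by_cases h2 : A ≤ T
      · rw [if_neg h, if_pos h2, if_pos rfl, if_neg (by omega)]
      · rw [if_neg h, if_neg h2]
  | j + 1, A, hT => by
    have h1 : ∀ b ∈ Icc 1 L, tauI L (fun x => if x = T then 1 else 0) j (A + b) / 2 ^ b =
        if b ≤ T - A ∧ A ≤ T then (1 / 2 ^ b : ℝ) * rho j (T - A - b) else 0 := by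
      intro b hb
      rw [Finset.mem_Icc] at hb
      rw [E01_tauI_rho j (A + b) (by omega)]
      by_cases h2 : A + b ≤ T
      · rw [if_pos h2, if_pos (by omega), show T - (A + b) = T - A - b by omega]
        ring
      · rw [if_neg h2, if_neg (by omega), zero_div]
    rw [tauI, Finset.sum_congr rfl h1]
    by_cases hA : A ≤ T
    · rw [if_pos hA, WB2_rho_succ, ← Finset.sum_filter]
      apply Finset.sum_congr
      · ext b
        simp only [Finset.mem_filter, Finset.mem_Icc]
        omega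
      · intro b _
        rfl
    · rw [if_neg hA]
      apply Finset.sum_eq_zero
      intro b _
      rw [if_neg (by omega)]

theorem tauI_ind {L j A α : ℕ} (hj : 1 ≤ j) (hα : 1 ≤ α) (hL : α ≤ L) :
    tauI L (fun x => if x = A + α then 1 else 0) j A = (Nat.choose (α - 1) (j - 1) : ℝ) / 2 ^ α := by
  rw [E01_tauI_rho j A (by omega), if_pos (by omega), Nat.add_sub_cancel_left]
  unfold rho
  rw [if_neg (by omega), if_neg (by omega)]

/-- `(centralBinom n)^2 * 4 n >= 16^n` -/
theorem E01_central (n : ℕ) (hn : 1 ≤ n) : 16 ^ n ≤ (Nat.centralBinom n) ^ 2 * (4 * n) := by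
  induction n, hn using Nat.le_induction with
  | base => decide
  | succ n hn ih =>
    have h1 := Nat.succ_mul_centralBinom_succ n
    have h2 : (n + 1) ^ 2 * (16 ^ (n + 1)) ≤ (n + 1) ^ 2 * ((Nat.centralBinom (n + 1)) ^ 2 * (4 * (n + 1))) := by
      have h3 : (n + 1) ^ 2 * ((Nat.centralBinom (n + 1)) ^ 2 * (4 * (n + 1))) =
          ((n + 1) * Nat.centralBinom (n + 1)) ^ 2 * (4 * (n + 1)) := by ring
      rw [h3, h1]
      have h4 : (2 * (2 * n + 1) * Nat.centralBinom n) ^ 2 * (4 * (n + 1)) =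
          16 * (n + 1) * (2 * n + 1) ^ 2 * (Nat.centralBinom n) ^ 2 := by ring
      rw [h4]
      have h5 : n * ((n + 1) ^ 2 * 16 ^ (n + 1)) ≤
          n * (16 * (n + 1) * (2 * n + 1) ^ 2 * (Nat.centralBinom n) ^ 2) := by
        calc n * ((n + 1) ^ 2 * 16 ^ (n + 1)) = 16 * n * (n + 1) ^ 2 * 16 ^ n := by rw [pow_succ]; ring
          _ ≤ 16 * n * (n + 1) ^ 2 * ((Nat.centralBinom n) ^ 2 * (4 * n)) := Nat.mul_le_mul_left _ ih
          _ = 16 * n * (n + 1) * (Nat.centralBinom n) ^ 2 * (4 * n * (n + 1)) := by ring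
          _ ≤ 16 * n * (n + 1) * (Nat.centralBinom n) ^ 2 * ((2 * n + 1) ^ 2) := by
              apply Nat.mul_le_mul_left
              nlinarith
          _ = _ := by ring
      exact Nat.le_of_mul_le_mul_left h5 hn
    exact Nat.le_of_mul_le_mul_left h2 (by positivity)

theorem E01_centre (j : ℕ) (hj : 1 ≤ j) :
    1 / (4 * Real.sqrt j) ≤ (Nat.choose (2 * j - 1) (j - 1) : ℝ) / 2 ^ (2 * j) := by
  have h1 := E01_central j hj
  have h2 : Nat.centralBinom j = 2 * Nat.choose (2 * j - 1) (j - 1) := by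
    obtain ⟨k, rfl⟩ : ∃ k, j = k + 1 := ⟨j - 1, by omega⟩
    rw [Nat.centralBinom, show 2 * (k + 1) = (2 * k + 1) + 1 by ring, Nat.choose_succ_succ]
    have h3 : (2 * k + 1).choose (k + 1) = (2 * k + 1).choose k :=
      Nat.choose_symm_of_eq_add (by omega)
    rw [show 2 * k + 1 + 1 - 1 = 2 * k + 1 by omega, show k + 1 - 1 = k by omega, h3]
    ring
  have h3 : (16 : ℝ) ^ j ≤ (2 * (Nat.choose (2 * j - 1) (j - 1) : ℝ)) ^ 2 * (4 * j) := by
    rw [h2] at h1
    exact_mod_cast h1
  set C : ℝ := (Nat.choose (2 * j - 1) (j - 1) : ℝ) with hC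
  have hC0 : 0 ≤ C := by positivity
  have hj' : (0 : ℝ) < j := by exact_mod_cast hj
  have hs : 0 < Real.sqrt j := Real.sqrt_pos.mpr hj'
  have hs2 : Real.sqrt j ^ 2 = j := Real.sq_sqrt hj'.le
  have h4 : (4 : ℝ) ^ j ≤ C * (4 * Real.sqrt j) := by
    apply le_of_sq_le_sq _ (by positivity)
    calc ((4 : ℝ) ^ j) ^ 2 = 16 ^ j := by rw [← pow_mul, mul_comm, pow_mul]; norm_num
      _ ≤ _ := h3
      _ = (C * (4 * Real.sqrt j)) ^ 2 := by
          rw [mul_pow, mul_pow, mul_pow, hs2]; ring
  rw [div_le_div_iff₀ (by positivity) (by positivity), one_mul, pow_mul]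
  norm_num
  exact h4

theorem E01_up (j : ℕ) (hj : 1 ≤ j) (t : ℕ) :
    (4 * (j : ℝ) - t ^ 2 - 3 * t) * ((Nat.choose (2 * j - 1) (j - 1) : ℝ) / 2 ^ (2 * j)) ≤
      4 * j * ((Nat.choose (2 * j + t - 1) (j - 1) : ℝ) / 2 ^ (2 * j + t)) := by
  induction t with
  | zero => simp
  | succ t ih =>
    set a : ℝ := (Nat.choose (2 * j - 1) (j - 1) : ℝ) / 2 ^ (2 * j) with ha
    have ha0 : 0 ≤ a := by positivity
    have h1 : (2 * j + t - 1).choose (j - 1) * (2 * j + t) =
        (2 * j + (t + 1) - 1).choose (j - 1) * (j + t + 1) := by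
      have := Nat.choose_mul_succ_eq (2 * j + t - 1) (j - 1)
      rw [show 2 * j + t - 1 + 1 = 2 * j + t by omega,
        show 2 * j + t - (j - 1) = j + t + 1 by omega] at this
      rw [show 2 * j + (t + 1) - 1 = 2 * j + t by omega]
      exact this
    have h2 : ((2 * j + t - 1).choose (j - 1) : ℝ) * (2 * j + t) =
        ((2 * j + (t + 1) - 1).choose (j - 1) : ℝ) * (j + t + 1) := by exact_mod_cast h1
    have hpos : (0 : ℝ) < j + t + 1 := by positivity
    have h3 : ((2 * j + (t + 1) - 1).choose (j - 1) : ℝ) / 2 ^ (2 * j + (t + 1)) =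
        ((2 * j + t - 1).choose (j - 1) : ℝ) / 2 ^ (2 * j + t) * ((2 * j + t) / (2 * (j + t + 1))) := by
      rw [← add_assoc (2 * j) t 1, pow_succ, div_mul_div_comm, h2]
      rw [show 2 * j + t + 1 = 2 * j + (t + 1) by ring]
      field_simp
    rw [h3]
    set f : ℝ := ((2 * j + t - 1).choose (j - 1) : ℝ) / 2 ^ (2 * j + t) with hf
    have h4 : 4 * (j : ℝ) * (f * ((2 * j + t) / (2 * (j + t + 1)))) =
        (4 * j * f) * ((2 * j + t) / (2 * (j + t + 1))) := by ring
    rw [h4]
    have h5 : (0 : ℝ) ≤ (2 * j + t) / (2 * (j + t + 1)) := by positivity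
    refine le_trans ?_ (mul_le_mul_of_nonneg_right ih h5)
    rw [mul_comm _ a, mul_comm _ a, mul_assoc]
    apply mul_le_mul_of_nonneg_left _ ha0
    rw [← mul_div_assoc, le_div_iff₀ (by positivity)]
    push_cast
    have ht : (0 : ℝ) ≤ t := by positivity
    nlinarith [mul_nonneg (show (0 : ℝ) ≤ t + 2 by positivity) (show (0 : ℝ) ≤ t ^ 2 + 7 * t + 4 by positivity)]

theorem E01_down (j : ℕ) (hj : 1 ≤ j) (t : ℕ) (ht : t < j) :
    (2 * (j : ℝ) - t ^ 2) * ((Nat.choose (2 * j - 1) (j - 1) : ℝ) / 2 ^ (2 * j)) ≤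
      2 * j * ((Nat.choose (2 * j - t - 1) (j - 1) : ℝ) / 2 ^ (2 * j - t)) := by
  induction t with
  | zero => simp
  | succ t ih =>
    have ih := ih (by omega)
    set a : ℝ := (Nat.choose (2 * j - 1) (j - 1) : ℝ) / 2 ^ (2 * j) with ha
    have ha0 : 0 ≤ a := by positivity
    have h1 : (2 * j - (t + 1) - 1).choose (j - 1) * (2 * j - t - 1) =
        (2 * j - t - 1).choose (j - 1) * (j - t) := by
      have := Nat.choose_mul_succ_eq (2 * j - (t + 1) - 1) (j - 1)
      rw [show 2 * j - (t + 1) - 1 + 1 = 2 * j - t - 1 by omega,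
        show 2 * j - t - 1 - (j - 1) = j - t by omega] at this
      exact this
    have hjt : (t : ℝ) + 1 < j := by exact_mod_cast ht
    have e1 : ((2 * j - t - 1 : ℕ) : ℝ) = 2 * j - t - 1 := by
      rw [Nat.cast_sub (by omega), Nat.cast_sub (by omega)]
      push_cast
      ring
    have e2 : ((j - t : ℕ) : ℝ) = j - t := by
      rw [Nat.cast_sub (by omega)]
    have h2 : ((2 * j - (t + 1) - 1).choose (j - 1) : ℝ) * (2 * j - t - 1) =
        ((2 * j - t - 1).choose (j - 1) : ℝ) * (j - t) := by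
      rw [← e1, ← e2]
      exact_mod_cast h1
    have ht0 : (0 : ℝ) ≤ t := by positivity
    have hpos : (0 : ℝ) < 2 * j - t - 1 := by linarith
    have h3 : ((2 * j - (t + 1) - 1).choose (j - 1) : ℝ) / 2 ^ (2 * j - (t + 1)) =
        ((2 * j - t - 1).choose (j - 1) : ℝ) / 2 ^ (2 * j - t) * (2 * (j - t) / (2 * j - t - 1)) := by
      have h5 : ((2 * j - (t + 1) - 1).choose (j - 1) : ℝ) =
          ((2 * j - t - 1).choose (j - 1) : ℝ) * (j - t) / (2 * j - t - 1) := by
        rw [eq_div_iff hpos.ne']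
        exact h2
      have h6 : (2 : ℝ) ^ (2 * j - t) = 2 ^ (2 * j - (t + 1)) * 2 := by
        rw [← pow_succ]
        congr 1
        omega
      rw [h5, h6]
      field_simp
    rw [h3]
    set f : ℝ := ((2 * j - t - 1).choose (j - 1) : ℝ) / 2 ^ (2 * j - t) with hf
    have h4 : 2 * (j : ℝ) * (f * (2 * (j - t) / (2 * j - t - 1))) =
        (2 * j * f) * (2 * (j - t) / (2 * j - t - 1)) := by ring
    rw [h4]
    have h5 : (0 : ℝ) ≤ 2 * (j - t) / (2 * j - t - 1) := by
      apply div_nonneg _ hpos.le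
      linarith
    refine le_trans ?_ (mul_le_mul_of_nonneg_right ih h5)
    rw [mul_comm _ a, mul_comm _ a, mul_assoc]
    apply mul_le_mul_of_nonneg_left _ ha0
    rw [← mul_div_assoc, le_div_iff₀ hpos]
    push_cast
    nlinarith [mul_nonneg ht0 ht0, mul_nonneg (mul_nonneg ht0 ht0) ht0,
      mul_nonneg ht0 (show (0 : ℝ) ≤ j - t - 1 by linarith)]

theorem choose_lower : ∃ c1 : ℝ, 0 < c1 ∧ ∀ j α : ℕ, 1 ≤ j → ((α : ℤ) - 2 * j) ^ 2 ≤ j →
    c1 / Real.sqrt j ≤ (Nat.choose (α - 1) (j - 1) : ℝ) / 2 ^ α := by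
  refine ⟨1 / 2 ^ 27, by positivity, ?_⟩
  intro j α hj h
  have hj' : (0 : ℝ) < j := by exact_mod_cast hj
  have hs : 0 < Real.sqrt j := Real.sqrt_pos.mpr hj'
  have hs1 : 1 ≤ Real.sqrt j := by
    rw [Real.one_le_sqrt]
    exact_mod_cast hj
  rcases Nat.lt_or_ge j 9 with h9 | h9
  · -- small values
    have h1 : |(α : ℤ) - 2 * j| ≤ j := by
      rw [abs_le]
      constructor <;> nlinarith
    rw [abs_le] at h1
    have h2 : (1 : ℝ) ≤ (Nat.choose (α - 1) (j - 1) : ℝ) := by
      have : 0 < Nat.choose (α - 1) (j - 1) := Nat.choose_pos (by omega)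
      exact_mod_cast this
    calc 1 / 2 ^ 27 / Real.sqrt j ≤ 1 / 2 ^ 27 := div_le_self (by positivity) hs1
      _ ≤ 1 / 2 ^ α := by
          apply one_div_le_one_div_of_le (by positivity)
          apply pow_le_pow_right₀ (by norm_num)
          omega
      _ ≤ _ := div_le_div_of_nonneg_right h2 (by positivity)
  · have h0 := E01_centre j hj
    have hgoal : 1 / (8 * Real.sqrt j) ≤ (Nat.choose (α - 1) (j - 1) : ℝ) / 2 ^ α := by
      rcases Nat.lt_or_ge α (2 * j) with hα | hα
      · -- below the centre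
        obtain ⟨t, rfl⟩ : ∃ t, α = 2 * j - t := ⟨2 * j - α, by omega⟩
        have ht2 : t ≤ 2 * j := by
          by_contra hcon
          have : 2 * j - t = 0 := by omega
          rw [this] at h
          push_cast at h
          nlinarith
        have e : (((2 * j - t : ℕ) : ℤ) - 2 * j) = -t := by
          rw [Nat.cast_sub ht2]
          push_cast
          ring
        rw [e] at h
        have ht : t < j := by
          have : (t : ℤ) ^ 2 ≤ j := by simpa using h
          have h3 : (t : ℤ) < j := by nlinarith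
          exact_mod_cast h3
        have h1 := E01_down j hj t ht
        have h2 : (t : ℝ) ^ 2 ≤ j := by
          have : (t : ℤ) ^ 2 ≤ j := by simpa using h
          exact_mod_cast this
        set f : ℝ := ((2 * j - t - 1).choose (j - 1) : ℝ) / 2 ^ (2 * j - t) with hf
        set a : ℝ := (Nat.choose (2 * j - 1) (j - 1) : ℝ) / 2 ^ (2 * j) with ha
        have ha0 : 0 ≤ a := by positivity
        have h3 : j * a ≤ 2 * j * f := by
          refine le_trans ?_ h1
          apply mul_le_mul_of_nonneg_right _ ha0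
          linarith
        have h4 : a / 2 ≤ f := by
          have : j * (a / 2) ≤ j * f := by linarith
          exact le_of_mul_le_mul_left this hj'
        calc 1 / (8 * Real.sqrt j) = 1 / (4 * Real.sqrt j) / 2 := by field_simp; norm_num
          _ ≤ a / 2 := by linarith
          _ ≤ f := h4
      · -- above the centre
        obtain ⟨t, rfl⟩ : ∃ t, α = 2 * j + t := ⟨α - 2 * j, by omega⟩
        have e : (((2 * j + t : ℕ) : ℤ) - 2 * j) = t := by
          push_cast
          ring
        rw [e] at h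
        have h1 := E01_up j hj t
        have h2 : (t : ℝ) ^ 2 ≤ j := by exact_mod_cast h
        have h3 : 3 * (t : ℝ) ≤ j := by
          have : 3 * (t : ℤ) ≤ j := by nlinarith
          exact_mod_cast this
        set f : ℝ := ((2 * j + t - 1).choose (j - 1) : ℝ) / 2 ^ (2 * j + t) with hf
        set a : ℝ := (Nat.choose (2 * j - 1) (j - 1) : ℝ) / 2 ^ (2 * j) with ha
        have ha0 : 0 ≤ a := by positivity
        have h4 : 2 * j * a ≤ 4 * j * f := by
          refine le_trans ?_ h1
          apply mul_le_mul_of_nonneg_right _ ha0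
          linarith
        have h5 : a / 2 ≤ f := by
          have : j * (a / 2) ≤ j * f := by linarith
          exact le_of_mul_le_mul_left this hj'
        calc 1 / (8 * Real.sqrt j) = 1 / (4 * Real.sqrt j) / 2 := by field_simp; norm_num
          _ ≤ a / 2 := by linarith
          _ ≤ f := h5
    refine le_trans ?_ hgoal
    rw [div_div]
    apply one_div_le_one_div_of_le (by positivity)
    apply mul_le_mul_of_nonneg_right (by norm_num) hs.le

end Pool.Agent.Lib.MP_e43fce_kd
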