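import Pool.Agent.Lib.MP_e43fce_kd.Defs
import Pool.Agent.Lib.MP_e43fce_kd.E01

/-!
Main sum. Λ = log2 (X/m) ∈ [.45 I, .46 I], θ = log2 3 = 1.58496, AX X m K = ⌊Λ + K θ⌋ (Nat.log: 2^A ≤ X 3^K/m < 2^(A+1)). With K = I + j, α_j = AX - Ap:
α_j - 2j = Λ + θ I - Ap - (2-θ) j - frac, zero at j* = (Λ + θI - Ap)/(2-θ) ∈ [.0601 I, .1325 I]; for |j - j*| ≤ √j* - 1 (large I): (α_j - 2j)² ≤ j, so choose_lower gives c1/√j,
≥ √(.06 I) many such j, all in [1, .14 I]; and |AX - 2K| ≤ |Ap - 2I| + √j ≤ I/g + √j ≤ 2K/g so K ∈ KK.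
-/

set_option autoImplicit false

open Finset

namespace Pool.Agent.Lib.MP_e43fce_kd

theorem E02_tauI_nonneg (L : ℕ) {τ : ℕ → ℝ} (h : ∀ x, 0 ≤ τ x) : ∀ j A, 0 ≤ tauI L τ j A
  | 0, A => h A
  | j + 1, A => by
    rw [tauI]
    exact Finset.sum_nonneg fun b _ => div_nonneg (E02_tauI_nonneg L h j _) (by positivity)

theorem E02_theta : 84 * Real.log 2 < 53 * Real.log 3 ∧ 41 * Real.log 3 < 65 * Real.log 2 := by
  constructor
  · have h : Real.log ((2 : ℝ) ^ 84) < Real.log ((3 : ℝ) ^ 53) :=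
      Real.log_lt_log (by positivity) (by norm_num)
    rw [Real.log_pow, Real.log_pow] at h
    exact_mod_cast h
  · have h : Real.log ((3 : ℝ) ^ 41) < Real.log ((2 : ℝ) ^ 65) :=
      Real.log_lt_log (by positivity) (by norm_num)
    rw [Real.log_pow, Real.log_pow] at h
    exact_mod_cast h

/-- `AX` is the integer part of `(log (X / m) + K log 3) / log 2` -/
theorem E02_AX {X m K : ℕ} (hm : 1 ≤ m) (hX : m ≤ X) :
    (AX X m K : ℝ) * Real.log 2 ≤ Real.log X - Real.log m + K * Real.log 3 ∧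
      Real.log X - Real.log m + K * Real.log 3 < ((AX X m K : ℝ) + 1) * Real.log 2 := by
  have h3 : 1 ≤ 3 ^ K := Nat.one_le_pow _ _ (by norm_num)
  have hn : X * 3 ^ K / m ≠ 0 := by
    have : 1 ≤ X * 3 ^ K / m := by
      rw [Nat.le_div_iff_mul_le (by omega)]
      nlinarith
    omega
  have h1 : 2 ^ AX X m K * m ≤ X * 3 ^ K := by
    have := Nat.pow_log_le_self 2 hn
    rw [Nat.le_div_iff_mul_le (by omega)] at this
    exact this
  have h2 : X * 3 ^ K < 2 ^ (AX X m K + 1) * m := by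
    have := Nat.lt_pow_succ_log_self (b := 2) (by norm_num) (X * 3 ^ K / m)
    rwa [Nat.div_lt_iff_lt_mul (by omega)] at this
  have hm' : (0 : ℝ) < m := by exact_mod_cast hm
  have hX' : (0 : ℝ) < X := by exact_mod_cast (by omega : 0 < X)
  have h1' : (2 : ℝ) ^ AX X m K * m ≤ X * 3 ^ K := by exact_mod_cast h1
  have h2' : (X : ℝ) * 3 ^ K < 2 ^ (AX X m K + 1) * m := by exact_mod_cast h2
  have g1 := Real.log_le_log (by positivity) h1'
  have g2 := Real.log_lt_log (by positivity) h2'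
  rw [Real.log_mul (by positivity) (by positivity), Real.log_mul (by positivity) (by positivity),
    Real.log_pow, Real.log_pow] at g1 g2
  push_cast at g2
  constructor <;> linarith

theorem main_sum {g : ℕ} (hg : 100 ≤ g) : ∃ c' : ℝ, 0 < c' ∧ ∃ I0 : ℕ, ∀ I : ℕ, I0 ≤ I →
    ∀ X m Ap L : ℕ, 1 ≤ m → m ^ 100 * 2 ^ (45 * I) ≤ X ^ 100 → X ^ 100 ≤ m ^ 100 * 2 ^ (46 * I) →
    (2 * g - 1) * I ≤ g * Ap → g * Ap ≤ (2 * g + 1) * I → 4 * I ≤ L →
    c' ≤ ∑ K ∈ KK g X m I, tauI L (fun x => if x = AX X m K then 1 else 0) (K - I) Ap := by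
  obtain ⟨c1, hc1, hlow⟩ := choose_lower
  refine ⟨c1 / 2, by positivity, max 1000 (g ^ 2), ?_⟩
  intro I hI X m Ap L hm hX1 hX2 hA1 hA2 hL
  have hI1 : 1000 ≤ I := le_trans (le_max_left _ _) hI
  have hIg : g ^ 2 ≤ I := le_trans (le_max_right _ _) hI
  have hI' : (1000 : ℝ) ≤ I := by exact_mod_cast hI1
  obtain ⟨ht1, ht2⟩ := E02_theta
  have hl2 : 0 < Real.log 2 := Real.log_pos (by norm_num)
  -- X >= m
  have hmX : m ≤ X := by
    have h1 : m ^ 100 ≤ X ^ 100 := le_trans (Nat.le_mul_of_pos_right _ (by positivity)) hX1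
    exact (Nat.pow_le_pow_iff_left (by norm_num)).1 h1
  have hm' : (0 : ℝ) < m := by exact_mod_cast hm
  have hX' : (0 : ℝ) < X := by exact_mod_cast (by omega : 0 < X)
  set lam : ℝ := Real.log X - Real.log m with hlam
  have hlam1 : 45 * I * Real.log 2 ≤ 100 * lam := by
    have h1 : (m : ℝ) ^ 100 * 2 ^ (45 * I) ≤ X ^ 100 := by exact_mod_cast hX1
    have h2 := Real.log_le_log (by positivity) h1
    rw [Real.log_mul (by positivity) (by positivity), Real.log_pow, Real.log_pow, Real.log_pow] at h2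
    push_cast at h2
    rw [hlam]
    linarith
  have hlam2 : 100 * lam ≤ 46 * I * Real.log 2 := by
    have h1 : (X : ℝ) ^ 100 ≤ (m : ℝ) ^ 100 * 2 ^ (46 * I) := by exact_mod_cast hX2
    have h2 := Real.log_le_log (by positivity) h1
    rw [Real.log_mul (by positivity) (by positivity), Real.log_pow, Real.log_pow, Real.log_pow] at h2
    push_cast at h2
    rw [hlam]
    linarith
  -- the window of Ap
  have hAp1 : 199 * (I : ℝ) ≤ 100 * Ap := by
    have h1 : 199 * I ≤ 100 * Ap := by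
      by_contra hcon
      push Not at hcon
      have h2 : g * (100 * Ap) < g * (199 * I) := Nat.mul_lt_mul_of_pos_left hcon (by omega)
      have h3 : 100 * ((2 * g - 1) * I) ≤ g * (100 * Ap) := by nlinarith
      have h4 : g * (199 * I) ≤ 100 * ((2 * g - 1) * I) := by
        have : 199 * g ≤ 100 * (2 * g - 1) := by omega
        nlinarith
      omega
    exact_mod_cast h1
  have hAp2 : 100 * (Ap : ℝ) ≤ 201 * I := by
    have h1 : 100 * Ap ≤ 201 * I := by
      by_contra hcon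
      push Not at hcon
      have h2 : g * (201 * I) < g * (100 * Ap) := Nat.mul_lt_mul_of_pos_left hcon (by omega)
      have h3 : g * (100 * Ap) ≤ 100 * ((2 * g + 1) * I) := by nlinarith
      have h4 : 100 * ((2 * g + 1) * I) ≤ g * (201 * I) := by
        have : 100 * (2 * g + 1) ≤ 201 * g := by omega
        nlinarith
      omega
    exact_mod_cast h1
  -- the centre
  set kap : ℝ := 2 * Real.log 2 - Real.log 3 with hkap
  have hk1 : 17 * Real.log 2 < 41 * kap := by rw [hkap]; linarith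
  have hk2 : 53 * kap < 22 * Real.log 2 := by rw [hkap]; linarith
  have hkpos : 0 < kap := by linarith
  set J : ℝ := (lam + I * Real.log 3 - Ap * Real.log 2) / kap with hJ
  have hkJ : kap * J = lam + I * Real.log 3 - Ap * Real.log 2 := by
    rw [hJ]; field_simp
  have hIpos : (0 : ℝ) < I := by linarith
  have hI3a : 84 * ((I : ℝ) * Real.log 2) ≤ 53 * (I * Real.log 3) := by nlinarith
  have hI3b : 41 * ((I : ℝ) * Real.log 3) ≤ 65 * (I * Real.log 2) := by nlinarith
  have hAl1 : 199 * ((I : ℝ) * Real.log 2) ≤ 100 * (Ap * Real.log 2) := by nlinarith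
  have hAl2 : 100 * ((Ap : ℝ) * Real.log 2) ≤ 201 * (I * Real.log 2) := by nlinarith
  set il : ℝ := (I : ℝ) * Real.log 2 with hil
  have hilpos : 0 < il := by positivity
  have hkJ1 : 0.0249 * il ≤ kap * J := by
    rw [hkJ]
    have : 45 * il ≤ 100 * lam := by rw [hil]; linarith
    linarith
  have hkJ2 : kap * J ≤ 0.05537 * il := by
    rw [hkJ]
    have : 100 * lam ≤ 46 * il := by rw [hil]; linarith
    linarith
  have hJ1 : 0.0599 * (I : ℝ) ≤ J := by
    by_contra hcon
    push Not at hcon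
    have h1 : kap * J < kap * (0.0599 * I) := mul_lt_mul_of_pos_left hcon hkpos
    have h2 : 53 * (kap * I) ≤ 22 * il := by rw [hil]; nlinarith
    linarith
  have hJ2 : J ≤ 0.1336 * (I : ℝ) := by
    by_contra hcon
    push Not at hcon
    have h1 : kap * (0.1336 * I) < kap * J := mul_lt_mul_of_pos_left hcon hkpos
    have h2 : 17 * il ≤ 41 * (kap * I) := by rw [hil]; nlinarith
    linarith
  -- the half width
  set w : ℕ := Nat.sqrt (I / 25) with hw
  have hw1 : w * w ≤ I / 25 := Nat.sqrt_le (I / 25)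
  have hw2 : I / 25 < (w + 1) * (w + 1) := Nat.lt_succ_sqrt (I / 25)
  have hw1' : 25 * (w * w) ≤ I := by omega
  have hw2' : I < 25 * ((w + 1) * (w + 1)) := by omega
  have hw6 : 6 ≤ w := by
    by_contra hcon
    push Not at hcon
    have : (w + 1) * (w + 1) ≤ 6 * 6 := Nat.mul_le_mul (by omega) (by omega)
    omega
  have hgw : g * w ≤ I := by
    have h1 : (g * w) ^ 2 ≤ I ^ 2 := by
      calc (g * w) ^ 2 = g ^ 2 * (w * w) := by ring
        _ ≤ I * I := Nat.mul_le_mul hIg (by omega)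
        _ = I ^ 2 := by ring
    exact (Nat.pow_le_pow_iff_left (by norm_num)).1 h1
  have hwR : (25 : ℝ) * w ^ 2 ≤ I := by
    have : 25 * w ^ 2 ≤ I := by rw [sq]; exact hw1'
    exact_mod_cast this
  have hw6' : (6 : ℝ) ≤ w := by exact_mod_cast hw6
  have hwI : (w : ℝ) ≤ 0.0064 * I := by nlinarith
  set j0 : ℕ := ⌊J⌋₊ with hj0
  have hJpos : 0 ≤ J := by linarith
  have hj0a : (j0 : ℝ) ≤ J := Nat.floor_le hJpos
  have hj0b : J < j0 + 1 := Nat.lt_floor_add_one J
  have hwj0 : w ≤ j0 := by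
    have : (w : ℝ) < j0 + 1 := by nlinarith
    have : w < j0 + 1 := by exact_mod_cast this
    omega
  -- the deviation
  have key : ∀ j : ℕ, j0 ≤ j + w → j ≤ j0 + w →
      Ap + 2 * j ≤ AX X m (I + j) + w ∧ AX X m (I + j) ≤ Ap + 2 * j + w := by
    intro j hja hjb
    have hja' : (j0 : ℝ) ≤ j + w := by exact_mod_cast hja
    have hjb' : (j : ℝ) ≤ j0 + w := by exact_mod_cast hjb
    obtain ⟨ha1, ha2⟩ := E02_AX (K := I + j) hm hmX
    push_cast at ha1 ha2
    have e0 : kap * (J - j) = lam + I * Real.log 3 - Ap * Real.log 2 - kap * j := by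
      rw [mul_sub, hkJ]
    have e1 : ((AX X m (I + j) : ℝ) - Ap - 2 * j) * Real.log 2 ≤ kap * (J - j) := by
      rw [e0, hkap]
      linarith
    have e2 : kap * (J - j) < ((AX X m (I + j) : ℝ) - Ap - 2 * j + 1) * Real.log 2 := by
      rw [e0, hkap]
      linarith
    have hw0 : (0 : ℝ) ≤ w := by linarith
    have e3 : kap * (J - j) ≤ kap * (w + 1) := mul_le_mul_of_nonneg_left (by linarith) hkpos.le
    have e4 : kap * (-w) ≤ kap * (J - j) := mul_le_mul_of_nonneg_left (by linarith) hkpos.le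
    have e5 : kap * (w + 1) ≤ w * Real.log 2 := by nlinarith
    have e6 : -(w : ℝ) * Real.log 2 + Real.log 2 ≤ kap * (-w) := by nlinarith
    have e7 : (AX X m (I + j) : ℝ) - Ap - 2 * j ≤ w :=
      le_of_mul_le_mul_right (by linarith) hl2
    have e8 : -(w : ℝ) + 1 < (AX X m (I + j) : ℝ) - Ap - 2 * j + 1 :=
      lt_of_mul_lt_mul_right (by linarith) hl2.le
    constructor
    · have : ((Ap + 2 * j : ℕ) : ℝ) ≤ ((AX X m (I + j) + w : ℕ) : ℝ) := by
        push_cast
        linarith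
      exact_mod_cast this
    · have : (AX X m (I + j) : ℝ) ≤ ((Ap + 2 * j + w : ℕ) : ℝ) := by
        push_cast
        linarith
      exact_mod_cast this
  have hJI : 100 * (j0 + w) ≤ 14 * I := by
    have : 100 * ((j0 : ℝ) + w) ≤ 14 * I := by linarith
    exact_mod_cast this
  have hJI2 : I ≤ 25 * (j0 - w) := by
    have : (I : ℝ) + 25 * w ≤ 25 * j0 := by linarith
    have : I + 25 * w ≤ 25 * j0 := by exact_mod_cast this
    omega
  -- the window of K
  have hsub : Icc (I + (j0 - w)) (I + (j0 + w)) ⊆ KK g X m I := by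
    intro K hK
    rw [Finset.mem_Icc] at hK
    obtain ⟨j, rfl⟩ : ∃ j, K = I + j := ⟨K - I, by omega⟩
    obtain ⟨k1, k2⟩ := key j (by omega) (by omega)
    unfold KK
    rw [Finset.mem_filter, Finset.mem_Icc]
    refine ⟨⟨by omega, by omega⟩, ?_, ?_⟩
    · have h1 : g * (Ap + 2 * j) ≤ g * (AX X m (I + j) + w) := Nat.mul_le_mul_left g k1
      have e1 : (2 * g - 2) * (I + j) + (I + 2 * j) = (2 * g - 1) * I + 2 * g * j := by
        obtain ⟨g', rfl⟩ : ∃ g', g = g' + 1 := ⟨g - 1, by omega⟩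
        rw [show 2 * (g' + 1) - 2 = 2 * g' by omega, show 2 * (g' + 1) - 1 = 2 * g' + 1 by omega]
        ring
      nlinarith
    · have h1 : g * AX X m (I + j) ≤ g * (Ap + 2 * j + w) := Nat.mul_le_mul_left g k2
      nlinarith
  have hnn : ∀ K, 0 ≤ tauI L (fun x => if x = AX X m K then 1 else 0) (K - I) Ap := by
    intro K
    apply E02_tauI_nonneg
    intro x
    split_ifs <;> norm_num
  have hterm : ∀ K ∈ Icc (I + (j0 - w)) (I + (j0 + w)), c1 / Real.sqrt (14 * I / 100) ≤
      tauI L (fun x => if x = AX X m K then 1 else 0) (K - I) Ap := by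
    intro K hK
    rw [Finset.mem_Icc] at hK
    obtain ⟨j, rfl⟩ : ∃ j, K = I + j := ⟨K - I, by omega⟩
    obtain ⟨k1, k2⟩ := key j (by omega) (by omega)
    have hj1 : 1 ≤ j := by omega
    have hwj : w ≤ j := by
      have := Nat.le_mul_self w
      omega
    obtain ⟨α, hα⟩ : ∃ α, AX X m (I + j) = Ap + α := ⟨AX X m (I + j) - Ap, by omega⟩
    rw [hα] at k1 k2 ⊢
    rw [Nat.add_sub_cancel_left, tauI_ind hj1 (by omega) (by omega)]
    have hdev : ((α : ℤ) - 2 * j) ^ 2 ≤ j := by
      have h1 : -(w : ℤ) ≤ (α : ℤ) - 2 * j := by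
        have : 2 * (j : ℤ) ≤ α + w := by
          have : 2 * j ≤ α + w := by omega
          exact_mod_cast this
        linarith
      have h2 : (α : ℤ) - 2 * j ≤ w := by
        have : (α : ℤ) ≤ 2 * j + w := by
          have : α ≤ 2 * j + w := by omega
          exact_mod_cast this
        linarith
      have h3 : ((α : ℤ) - 2 * j) ^ 2 ≤ (w : ℤ) ^ 2 := sq_le_sq' h1 h2
      have h4 : (w : ℤ) ^ 2 ≤ j := by
        have : w * w ≤ j := by omega
        rw [sq]
        exact_mod_cast this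
      linarith
    refine le_trans ?_ (hlow j α hj1 hdev)
    apply div_le_div_of_nonneg_left hc1.le
    · exact Real.sqrt_pos.mpr (by exact_mod_cast hj1)
    · apply Real.sqrt_le_sqrt
      have : 100 * j ≤ 14 * I := by omega
      have : 100 * (j : ℝ) ≤ 14 * I := by exact_mod_cast this
      linarith
  calc c1 / 2 ≤ (2 * w + 1 : ℕ) * (c1 / Real.sqrt (14 * I / 100)) := by
        have hs : 0 < Real.sqrt (14 * I / 100) := Real.sqrt_pos.mpr (by positivity)
        have h1 : Real.sqrt (14 * I / 100) ≤ 2 * (2 * w + 1) := by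
          rw [Real.sqrt_le_left (by positivity)]
          have h2 : (I : ℝ) < 25 * ((w + 1) * (w + 1)) := by exact_mod_cast hw2'
          nlinarith
        rw [← mul_div_assoc, div_le_div_iff₀ (by norm_num) hs]
        push_cast
        nlinarith
    _ = ∑ K ∈ Icc (I + (j0 - w)) (I + (j0 + w)), c1 / Real.sqrt (14 * I / 100) := by
        rw [Finset.sum_const, Nat.card_Icc, nsmul_eq_mul]
        congr 2
        omega
    _ ≤ ∑ K ∈ Icc (I + (j0 - w)) (I + (j0 + w)),
        tauI L (fun x => if x = AX X m K then 1 else 0) (K - I) Ap := Finset.sum_le_sum hterm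
    _ ≤ _ := Finset.sum_le_sum_of_subset_of_nonneg hsub fun K _ _ => hnn K

end Pool.Agent.Lib.MP_e43fce_kd
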