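import Pool.Agent.Lib.MP_e43fce_kd.Defs
import Pool.Agent.Lib.MP_e43fce_kd.A02
import Pool.Agent.Lib.MP_e43fce_kd.A03
import Pool.Agent.Lib.MP_e43fce_kd.A05
import Pool.Agent.Lib.MP_e43fce_nt.Steer2

/-!
Counting nodes (section 4). For w ∈ W L K with sum A = AX X m K, admissible: n = nd m w is odd (K ≥ 1), 1 ≤ n ≤ 2^A m/3^K ≤ X, col^[K+A] n = m, and
wt w = 3^K/2^A ≤ 2m/X (2^(A+1) m > X 3^K). Distinct pairs (K,w) give distinct n: same K: F_inj; different K < K': K + AX K < K' + AX K' and both reach m, so m would be periodic.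
-/

set_option autoImplicit false

open Finset

namespace Pool.Agent.Lib.MP_e43fce_kd

open Pool.Agent.Lib.MP_e43fce_nt.KL (col)

private lemma e04_mono {X m K K' : ℕ} (h : K ≤ K') : AX X m K ≤ AX X m K' := by
  unfold AX
  apply Nat.log_mono_right
  apply Nat.div_le_div_right
  exact Nat.mul_le_mul_left _ (Nat.pow_le_pow_right (by norm_num) h)

private lemma e04_lower {X m K : ℕ} (hm : 1 ≤ m) (hX : m ≤ X) :
    2 ^ AX X m K * m ≤ X * 3 ^ K := by
  unfold AX
  have h1 : X * 3 ^ K / m ≠ 0 := by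
    apply (Nat.div_pos _ (by omega)).ne'
    calc m ≤ X := hX
      _ ≤ X * 3 ^ K := Nat.le_mul_of_pos_right _ (by positivity)
  calc 2 ^ Nat.log 2 (X * 3 ^ K / m) * m ≤ (X * 3 ^ K / m) * m :=
        Nat.mul_le_mul_right _ (Nat.pow_log_le_self 2 h1)
    _ ≤ X * 3 ^ K := Nat.div_mul_le_self _ _

private lemma e04_upper {X m K : ℕ} (hm : 1 ≤ m) :
    X * 3 ^ K < 2 ^ (AX X m K + 1) * m := by
  unfold AX
  have h1 : X * 3 ^ K / m < 2 ^ (Nat.log 2 (X * 3 ^ K / m) + 1) :=
    Nat.lt_pow_succ_log_self (by norm_num) _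
  exact (Nat.div_lt_iff_lt_mul (by omega)).mp h1

private lemma e04_col {m n i j : ℕ} (hnp : ∀ i, 1 ≤ i → col^[i] m ≠ m)
    (h1 : col^[i] n = m) (h2 : col^[j] n = m) : ¬ i < j := by
  intro h
  apply hnp (j - i) (by omega)
  have e : j = (j - i) + i := by omega
  rw [e, Function.iterate_add_apply, h1] at h2
  exact h2

open Classical in
theorem count_ge {X m L : ℕ} {S : Finset ℕ} (hS : ∀ K ∈ S, 1 ≤ K) (hm : 1 ≤ m) (hX : m ≤ X)
    (hnp : ∀ i, 1 ≤ i → col^[i] m ≠ m) :
    ∑ K ∈ S, Sm (W L K) (fun w _ => if w.sum = AX X m K then 1 else 0) (m : ℤ) ≤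
      2 * m / X * (((Icc 1 X).filter (fun n => n % 2 = 1 ∧ ∃ K ∈ S,
        col^[K + AX X m K] n = m)).card : ℝ) := by
  have hm' : (1 : ℤ) ≤ m := by exact_mod_cast hm
  have hXpos : (0 : ℝ) < X := by
    have : 0 < X := by omega
    exact_mod_cast this
  let T : ℕ → Finset (List ℕ) := fun K =>
    (W L K).filter (fun w => adm (m : ℤ) w ∧ w.sum = AX X m K)
  have hT : ∀ K w, w ∈ T K → w.length = K ∧ (∀ j ∈ w, 1 ≤ j) ∧ adm (m : ℤ) w ∧
      w.sum = AX X m K := by
    intro K w hw
    obtain ⟨h1, h2, h3⟩ := Finset.mem_filter.mp hw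
    obtain ⟨h4, h5⟩ := mem_W.mp h1
    exact ⟨h4, fun j hj => (h5 j hj).1, h2, h3⟩
  -- step 1
  have hstep : ∀ K ∈ S, Sm (W L K) (fun w _ => if w.sum = AX X m K then 1 else 0) (m : ℤ) ≤
      2 * m / X * ((T K).card : ℝ) := by
    intro K _
    have e1 : Sm (W L K) (fun w _ => if w.sum = AX X m K then 1 else 0) (m : ℤ) =
        ∑ w ∈ T K, wt w := by
      unfold Sm
      simp only [T, Finset.sum_filter]
      apply Finset.sum_congr rfl
      intro w _
      by_cases h1 : adm (m : ℤ) w
      · by_cases h2 : w.sum = AX X m K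
        · simp [h1, h2]
        · simp [h1, h2]
      · simp [h1]
    rw [e1]
    calc ∑ w ∈ T K, wt w ≤ ∑ w ∈ T K, (2 * m / X : ℝ) := by
          apply Finset.sum_le_sum
          intro w hw
          obtain ⟨h1, _, _, h4⟩ := hT K w hw
          unfold wt
          rw [h1, h4, div_le_div_iff₀ (by positivity) hXpos]
          have h5 := e04_upper (X := X) (K := K) hm
          have h6 : ((X * 3 ^ K : ℕ) : ℝ) ≤ ((2 ^ (AX X m K + 1) * m : ℕ) : ℝ) := by
            exact_mod_cast h5.le
          push_cast at h6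
          rw [pow_succ] at h6
          nlinarith
      _ = 2 * m / X * ((T K).card : ℝ) := by
          rw [Finset.sum_const, nsmul_eq_mul]; ring
  have hsum := Finset.sum_le_sum hstep
  rw [← Finset.mul_sum] at hsum
  refine hsum.trans ?_
  apply mul_le_mul_of_nonneg_left _ (by positivity)
  -- step 2
  have hcard : ∑ K ∈ S, (T K).card ≤ ((Icc 1 X).filter (fun n => n % 2 = 1 ∧ ∃ K ∈ S,
        col^[K + AX X m K] n = m)).card := by
    rw [← Finset.card_sigma]
    apply Finset.card_le_card_of_injOn (fun p : (Σ _ : ℕ, List ℕ) => (nd (m : ℤ) p.2).toNat)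
    · rintro ⟨K, w⟩ hp
      have hp' := Finset.mem_sigma.mp (Finset.mem_coe.mp hp)
      have hKS : K ∈ S := hp'.1
      obtain ⟨h1, h2, h3, h4⟩ := hT K w hp'.2
      have hpos := nd_pos hm' h2 h3
      have hne : w ≠ [] := by
        intro h
        have := hS K hKS
        rw [h] at h1
        simp at h1
        omega
      have hodd := nd_odd h2 hne h3
      have hcol := col_nd hm h2 h3
      have hmul := nd_mul h3
      rw [h1] at hmul
      apply Finset.mem_coe.mpr
      rw [Finset.mem_filter, Finset.mem_Icc]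
      show (1 ≤ (nd (m : ℤ) w).toNat ∧ (nd (m : ℤ) w).toNat ≤ X) ∧
        (nd (m : ℤ) w).toNat % 2 = 1 ∧ ∃ K ∈ S, col^[K + AX X m K] (nd (m : ℤ) w).toNat = m
      refine ⟨⟨by omega, ?_⟩, ?_, K, hKS, ?_⟩
      · have h5 := e04_lower (K := K) hm hX
        have h6 : (3 : ℤ) ^ K * nd (m : ℤ) w ≤ 3 ^ K * X := by
          rw [hmul, h4]
          have h7 : (2 : ℤ) ^ AX X m K * m ≤ X * 3 ^ K := by exact_mod_cast h5
          have h8 : (0 : ℤ) ≤ F w := by positivity
          linarith
        have h9 : nd (m : ℤ) w ≤ X := le_of_mul_le_mul_left h6 (by positivity)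
        omega
      · obtain ⟨c, hc⟩ := hodd
        omega
      · rw [← h4, ← h1] at *
        exact hcol
    · rintro ⟨K, w⟩ hp ⟨K', w'⟩ hp' hEq
      have hq := Finset.mem_sigma.mp (Finset.mem_coe.mp hp)
      have hq' := Finset.mem_sigma.mp (Finset.mem_coe.mp hp')
      obtain ⟨h1, h2, h3, h4⟩ := hT K w hq.2
      obtain ⟨h1', h2', h3', h4'⟩ := hT K' w' hq'.2
      have hpos := nd_pos hm' h2 h3
      have hpos' := nd_pos hm' h2' h3'
      have hE : (nd (m : ℤ) w).toNat = (nd (m : ℤ) w').toNat := hEq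
      have hn : nd (m : ℤ) w = nd (m : ℤ) w' := by omega
      have hcol := col_nd hm h2 h3
      have hcol' := col_nd hm h2' h3'
      rw [h1, h4] at hcol
      rw [h1', h4', ← hE] at hcol'
      have hKK : K = K' := by
        rcases lt_trichotomy K K' with h | h | h
        · exact absurd (by have := e04_mono (X := X) (m := m) h.le; omega)
            (e04_col hnp hcol hcol')
        · exact h
        · exact absurd (by have := e04_mono (X := X) (m := m) h.le; omega)
            (e04_col hnp hcol' hcol)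
      subst hKK
      have hm1 := nd_mul h3
      have hm2 := nd_mul h3'
      rw [h1, h4] at hm1
      rw [h1', h4', ← hn] at hm2
      have hF : F w = F w' := by
        have : (F w : ℤ) = F w' := by linarith
        exact_mod_cast this
      have hww := F_inj h2 h2' (h1.trans h1'.symm) (h4.trans h4'.symm) hF
      rw [hww]
  exact_mod_cast hcard

end Pool.Agent.Lib.MP_e43fce_kd
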